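import Pool.Agent.Helper79.KM.Mod
import Pool.Agent.Helper44.KM.FiveCount

/-!
# The character sums of order five
-/

open Finset

namespace Pool.Agent.Helper79.KM

open Pool.Agent.Helper73.LF Pool.Agent.Helper73.QC

theorem five_cases : ∀ u : ZMod 5, u ≠ 0 → u = 1 ∨ u = 2 ∨ -u = 1 ∨ -u = 2 := by
  decide

theorem five_sq {A B : ℤ} (h : A ^ 2 - A * B - B ^ 2 = 0) : A = 0 ∧ B = 0 := by
  have h1 : (2 * A - B) ^ 2 = 5 * B ^ 2 := by linear_combination 4 * h
  have hB : B = 0 := by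
    by_contra hB
    have h2 : IsSquare ((5 : ℕ) : ℚ) := by
      refine ⟨(2 * A - B : ℤ) / (B : ℤ), ?_⟩
      have hB' : ((B : ℤ) : ℚ) ≠ 0 := by exact_mod_cast hB
      have h3 : (((2 * A - B : ℤ) : ℚ)) ^ 2 = 5 * ((B : ℤ) : ℚ) ^ 2 := by exact_mod_cast h1
      field_simp
      push_cast at h3 ⊢
      linear_combination -h3
    rw [Rat.isSquare_natCast_iff] at h2
    obtain ⟨x, hx⟩ := h2
    have h3 : x < 3 := by nlinarith
    interval_cases x <;> omega
  rw [hB] at h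
  refine ⟨?_, hB⟩
  have h4 : A ^ 2 = 0 := by linear_combination h
  exact pow_eq_zero_iff (two_ne_zero) |>.1 h4

section

variable {L : Type} [Field L] [CharZero L] {z : L}

omit [CharZero L] in
theorem root_sum (hz : IsPrimitiveRoot z 5) : 1 + z + z ^ 2 + z ^ 3 + z ^ 4 = 0 := by
  have h := hz.geom_sum_eq_zero (by norm_num)
  simp only [sum_range_succ, range_zero, sum_empty, pow_zero, pow_one, zero_add] at h
  exact h

theorem five_indep (hz : IsPrimitiveRoot z 5) {A B : ℤ} (h : (A : L) + B * (z + z ^ 4) = 0) :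
    A = 0 ∧ B = 0 := by
  apply five_sq
  have h1 := root_sum hz
  have h5 : z ^ 5 = 1 := hz.pow_eq_one
  have h2 : ((A ^ 2 - A * B - B ^ 2 : ℤ) : L) = 0 := by
    push_cast
    have h3 : (A : L) ^ 2 - A * B - B ^ 2 = ((A : L) + B * (z + z ^ 4)) * (A + B * (z ^ 2 + z ^ 3)) := by
      linear_combination (-(A : L) * B - B ^ 2) * h1 - (B : L) ^ 2 * (z + z ^ 2) * h5
    rw [h3, h, zero_mul]
  exact_mod_cast h2

omit [CharZero L] in
/-- the value of a symmetric sum -/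
theorem five_T1 (hz : IsPrimitiveRoot z 5) {n00 n01 n02 n10 n11 n12 n20 n21 n22 w : ℤ}
    (h1 : n10 + 2 * n11 + 2 * n12 = (5 * w - 2) * w)
    (h2 : n20 + 2 * n21 + 2 * n22 = (5 * w - 2) * w)
    (h3 : n00 + 2 * n01 + 2 * n02 = (5 * w - 2) * (w - 1))
    (k1 : n01 + 2 * n11 + 2 * n21 = (5 * w - 3) * w)
    (k2 : n02 + 2 * n12 + 2 * n22 = (5 * w - 3) * w) :
    (n00 : L) + (z + z ^ 4) * n01 + (z ^ 2 + z ^ 3) * n02 + (z + z ^ 4) * n10 +
      (z ^ 2 + z ^ 3) * n20 + (z + z ^ 4) ^ 2 * n11 + (z + z ^ 4) * (z ^ 2 + z ^ 3) * (n12 + n21) +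
        (z ^ 2 + z ^ 3) ^ 2 * n22 =
      ((-25 * w ^ 2 + 10 * w + 2 + 5 * (n11 + n12 + n21 + n22) + 5 * n22 : ℤ) : L) +
        ((5 * (n22 - n11) : ℤ) : L) * (z + z ^ 4) := by
  have r1 := root_sum hz
  have h5 : z ^ 5 = 1 := hz.pow_eq_one
  have hb : z ^ 2 + z ^ 3 = -1 - (z + z ^ 4) := by linear_combination r1
  have ha : (z + z ^ 4) ^ 2 = 1 - (z + z ^ 4) := by
    linear_combination r1 + (2 + z ^ 3) * h5 - r1 + r1
  rw [hb]
  set α : L := z + z ^ 4 with hα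
  have h1' : (n10 : L) = (5 * w - 2) * w - 2 * n11 - 2 * n12 := by
    have : n10 = (5 * w - 2) * w - 2 * n11 - 2 * n12 := by linear_combination h1
    rw [this]
    push_cast
    ring
  have h2' : (n20 : L) = (5 * w - 2) * w - 2 * n21 - 2 * n22 := by
    have : n20 = (5 * w - 2) * w - 2 * n21 - 2 * n22 := by linear_combination h2
    rw [this]
    push_cast
    ring
  have k1' : (n01 : L) = (5 * w - 3) * w - 2 * n11 - 2 * n21 := by
    have : n01 = (5 * w - 3) * w - 2 * n11 - 2 * n21 := by linear_combination k1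
    rw [this]
    push_cast
    ring
  have k2' : (n02 : L) = (5 * w - 3) * w - 2 * n12 - 2 * n22 := by
    have : n02 = (5 * w - 3) * w - 2 * n12 - 2 * n22 := by linear_combination k2
    rw [this]
    push_cast
    ring
  have h3' : (n00 : L) = (5 * w - 2) * (w - 1) - 2 * n01 - 2 * n02 := by
    have : n00 = (5 * w - 2) * (w - 1) - 2 * n01 - 2 * n02 := by linear_combination h3
    rw [this]
    push_cast
    ring
  rw [h3', h1', h2', k1', k2']
  push_cast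
  linear_combination ((n11 : L) + n22 - n12 - n21) * ha

end

section

variable {K : Type} [Field K] [Fintype K] [DecidableEq K] {l : K → ZMod 5}

/-- the congruences for the numbers of points -/
theorem five_count [hr : Fact (Nat.Prime 5)] (hl : IsLog l) (h0 : ∃ x, l x ≠ 0) {w : ℕ}
    (hw : Fintype.card K = 5 * w + 1)
    (hC : (25 : ℤ) ∣ (((pts K).filter fun P => lam l P = dif l P).card : ℤ) -
      (Fintype.card K + 1)) :
    nn l 1 0 + 2 * nn l 1 1 + 2 * nn l 1 2 = (5 * w - 2) * w ∧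
    nn l 2 0 + 2 * nn l 2 1 + 2 * nn l 2 2 = (5 * w - 2) * w ∧
    nn l 0 0 + 2 * nn l 0 1 + 2 * nn l 0 2 = (5 * w - 2) * (w - 1) ∧
    nn l 0 1 + 2 * nn l 1 1 + 2 * nn l 2 1 = (5 * w - 3) * w ∧
    nn l 0 2 + 2 * nn l 1 2 + 2 * nn l 2 2 = (5 * w - 3) * w ∧
    (25 : ℤ) ∣ nn l 0 0 + 2 * nn l 1 1 + 2 * nn l 2 2 - (5 * w + 2) ∧
    (5 : ℤ) ∣ 4 * (nn l 1 1 + nn l 1 2 + nn l 2 1 + nn l 2 2) - 2 * w ^ 2 := by
  have hr2 : (5 : ℕ) ≠ 2 := by norm_num
  have l4 : ∀ j, nn l 4 j = nn l 1 j := fun j => nn_neg_left hr2 hl 1 j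
  have l3 : ∀ j, nn l 3 j = nn l 2 j := fun j => nn_neg_left hr2 hl 2 j
  have r4 : ∀ i, nn l i 4 = nn l i 1 := fun i => nn_neg_right hr2 hl i 1
  have r3 : ∀ i, nn l i 3 = nn l i 2 := fun i => nn_neg_right hr2 hl i 2
  have s0 := sum_lam hl h0 hw 0
  have s1 := sum_lam hl h0 hw 1
  have s2 := sum_lam hl h0 hw 2
  have t1 := sum_dif hr2 hl h0 hw 1
  have t2 := sum_dif hr2 hl h0 hw 2
  rw [Helper44.KM.sum_five, r4, r3] at s0 s1 s2
  rw [Helper44.KM.sum_five, l4, l3] at t1 t2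
  rw [if_pos rfl] at s0
  rw [if_neg Helper44.KM.one_ne_five] at s1 t1
  rw [if_neg Helper44.KM.two_ne_five] at s2 t2
  push_cast at s0 s1 s2 t1 t2
  refine ⟨by linear_combination s1, by linear_combination s2, by linear_combination s0,
    by linear_combination t1, by linear_combination t2, ?_, ?_⟩
  · have h1 : (((pts K).filter fun P => lam l P = dif l P).card : ℤ) =
        nn l 0 0 + 2 * nn l 1 1 + 2 * nn l 2 2 := by
      have h2 := sum_nn (K := K) (l := l) (fun i j => if i = j then (1 : ℤ) else 0)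
      simp only [mul_ite, mul_one, mul_zero, sum_ite_eq, mem_univ, if_true] at h2
      rw [Helper44.KM.sum_five, l4, l3, r4, r3] at h2
      rw [card_filter]
      push_cast
      rw [h2]
      simp only [Int.cast_id]
      ring
    rw [h1, hw] at hC
    push_cast at hC
    have h2 : (nn l 0 0 + 2 * nn l 1 1 + 2 * nn l 2 2 - (5 * (w : ℤ) + 2)) =
        (nn l 0 0 + 2 * nn l 1 1 + 2 * nn l 2 2 - (5 * (w : ℤ) + 1 + 1)) := by ring
    rw [h2]
    exact hC
  · obtain ⟨a1, a2, a3, a4, a5, a6, a7, a8, a9⟩ := Helper44.KM.five_table' hl h0 hw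
    have h1 := al44 hl hw a1 a2 a3 a4 a5 a6 a7 a8 a9
    have h2 := sum_nn (K := K) (l := l) (fun i j => (i : ZMod 5) ^ 4 * j ^ 4)
    have h3 : al l 4 4 = ∑ P ∈ pts K, lam l P ^ 4 * dif l P ^ 4 := rfl
    rw [← h3, h1] at h2
    have e : ∀ f : ZMod 5 → ZMod 5 → ZMod 5, ∑ i, ∑ j, f i j =
        ∑ i, (f i 0 + f i 1 + f i 2 + f i 3 + f i 4) := fun f =>
      sum_congr rfl fun i _ => Helper44.KM.sum_five _
    rw [e, Helper44.KM.sum_five] at h2
    simp only [l4, l3, r4, r3] at h2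
    apply (ZMod.intCast_zmod_eq_zero_iff_dvd _ 5).1
    push_cast
    have q2 : (2 : ZMod 5) ^ 4 = 1 := rfl
    have q3 : (3 : ZMod 5) ^ 4 = 1 := rfl
    have q4 : (4 : ZMod 5) ^ 4 = 1 := rfl
    rw [q2, q3, q4] at h2
    linear_combination -h2

end

section

variable {K L : Type} [Field K] [Fintype K] [DecidableEq K] [Field L] [CharZero L]
  {l : K → ZMod 5} {z : L}

theorem five_value [hr : Fact (Nat.Prime 5)] (hl : IsLog l) (h0 : ∃ x, l x ≠ 0)
    (hz : IsPrimitiveRoot z 5) {w : ℕ} (hw : Fintype.card K = 5 * w + 1) (hw5 : ¬ 5 ∣ w)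
    (hC : (25 : ℤ) ∣ (((pts K).filter fun P => lam l P = dif l P).card : ℤ) -
      (Fintype.card K + 1)) {u : ZMod 5} (hu : u = 1 ∨ u = 2) :
    (∑ i, ∑ j, (nn l i j : L) * z ^ (i - u * j).val) *
      (∑ i, ∑ j, (nn l i j : L) * z ^ (i - u * j).val) ≠ 4 * (Fintype.card K : L) ^ 2 := by
  intro heq
  obtain ⟨c1, c2, c3, c4, c5, c6, c7⟩ := five_count hl h0 hw hC
  have hr2 : (5 : ℕ) ≠ 2 := by norm_num
  have l4 : ∀ j, nn l 4 j = nn l 1 j := fun j => nn_neg_left hr2 hl 1 j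
  have l3 : ∀ j, nn l 3 j = nn l 2 j := fun j => nn_neg_left hr2 hl 2 j
  have r4 : ∀ i, nn l i 4 = nn l i 1 := fun i => nn_neg_right hr2 hl i 1
  have r3 : ∀ i, nn l i 3 = nn l i 2 := fun i => nn_neg_right hr2 hl i 2
  have h5 : z ^ 5 = 1 := hz.pow_eq_one
  have hw5' : ¬ (5 : ℤ) ∣ w := by
    intro h
    exact hw5 (by exact_mod_cast h)
  set T := ∑ i, ∑ j, (nn l i j : L) * z ^ (i - u * j).val with hT
  have hT2 : T = ((2 * (5 * w + 1) : ℤ) : L) ∨ T = ((-(2 * (5 * w + 1)) : ℤ) : L) := by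
    rw [hw] at heq
    push_cast at heq ⊢
    have h1 : (T - 2 * (5 * w + 1)) * (T + 2 * (5 * w + 1)) = 0 := by linear_combination heq
    rcases mul_eq_zero.1 h1 with h | h
    · left
      linear_combination h
    · right
      linear_combination h
  have e : ∀ f : ZMod 5 → ZMod 5 → L, ∑ i, ∑ j, f i j =
      ∑ i, (f i 0 + f i 1 + f i 2 + f i 3 + f i 4) := fun f =>
    sum_congr rfl fun i _ => Helper44.KM.sum_five _
  have main : ∀ {A B : ℤ}, T = (A : L) + (B : L) * (z + z ^ 4) →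
      B = 0 ∧ (A = 2 * (5 * w + 1) ∨ A = -(2 * (5 * w + 1))) := by
    intro A B h
    rcases hT2 with h1 | h1
    · have h2 : ((A - 2 * (5 * w + 1) : ℤ) : L) + (B : L) * (z + z ^ 4) = 0 := by
        push_cast at h1 ⊢
        linear_combination h1 - h
      obtain ⟨h3, h4⟩ := five_indep hz h2
      exact ⟨h4, Or.inl (by linear_combination h3)⟩
    · have h2 : ((A + 2 * (5 * w + 1) : ℤ) : L) + (B : L) * (z + z ^ 4) = 0 := by
        push_cast at h1 ⊢
        linear_combination h1 - h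
      obtain ⟨h3, h4⟩ := five_indep hz h2
      exact ⟨h4, Or.inr (by linear_combination h3)⟩
  have hsq : ∀ m : ℤ, (5 : ℤ) ∣ m * (w : ℤ) ^ 2 → ¬ (5 : ℤ) ∣ m → False := by
    intro m h hm
    have hp : Prime (5 : ℤ) := by norm_num
    rcases hp.dvd_mul.1 h with h | h
    · exact hm h
    · exact hw5' (hp.dvd_of_dvd_pow h)
  rcases hu with rfl | rfl
  · have h1 := five_T1 hz c1 c2 c3 c4 c5
    have h2 : T = (nn l 0 0 : L) + (z + z ^ 4) * nn l 0 1 + (z ^ 2 + z ^ 3) * nn l 0 2 +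
        (z + z ^ 4) * nn l 1 0 + (z ^ 2 + z ^ 3) * nn l 2 0 + (z + z ^ 4) ^ 2 * nn l 1 1 +
          (z + z ^ 4) * (z ^ 2 + z ^ 3) * (nn l 1 2 + nn l 2 1) +
            (z ^ 2 + z ^ 3) ^ 2 * nn l 2 2 := by
      rw [hT, e, Helper44.KM.sum_five]
      simp only [l4, l3, r4, r3]
      have v00 : ((0 : ZMod 5) - 1 * 0).val = 0 := rfl
      have v01 : ((0 : ZMod 5) - 1 * 1).val = 4 := rfl
      have v02 : ((0 : ZMod 5) - 1 * 2).val = 3 := rfl
      have v03 : ((0 : ZMod 5) - 1 * 3).val = 2 := rfl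
      have v04 : ((0 : ZMod 5) - 1 * 4).val = 1 := rfl
      have v10 : ((1 : ZMod 5) - 1 * 0).val = 1 := rfl
      have v11 : ((1 : ZMod 5) - 1 * 1).val = 0 := rfl
      have v12 : ((1 : ZMod 5) - 1 * 2).val = 4 := rfl
      have v13 : ((1 : ZMod 5) - 1 * 3).val = 3 := rfl
      have v14 : ((1 : ZMod 5) - 1 * 4).val = 2 := rfl
      have v20 : ((2 : ZMod 5) - 1 * 0).val = 2 := rfl
      have v21 : ((2 : ZMod 5) - 1 * 1).val = 1 := rfl
      have v22 : ((2 : ZMod 5) - 1 * 2).val = 0 := rfl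
      have v23 : ((2 : ZMod 5) - 1 * 3).val = 4 := rfl
      have v24 : ((2 : ZMod 5) - 1 * 4).val = 3 := rfl
      have v30 : ((3 : ZMod 5) - 1 * 0).val = 3 := rfl
      have v31 : ((3 : ZMod 5) - 1 * 1).val = 2 := rfl
      have v32 : ((3 : ZMod 5) - 1 * 2).val = 1 := rfl
      have v33 : ((3 : ZMod 5) - 1 * 3).val = 0 := rfl
      have v34 : ((3 : ZMod 5) - 1 * 4).val = 4 := rfl
      have v40 : ((4 : ZMod 5) - 1 * 0).val = 4 := rfl
      have v41 : ((4 : ZMod 5) - 1 * 1).val = 3 := rfl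
      have v42 : ((4 : ZMod 5) - 1 * 2).val = 2 := rfl
      have v43 : ((4 : ZMod 5) - 1 * 3).val = 1 := rfl
      have v44 : ((4 : ZMod 5) - 1 * 4).val = 0 := rfl
      simp only [v00, v01, v02, v03, v04, v10, v11, v12, v13, v14, v20, v21, v22, v23, v24, v30,
        v31, v32, v33, v34, v40, v41, v42, v43, v44]
      linear_combination (-(2 + z ^ 3) * (nn l 1 1 : L) - (z + z ^ 2) * (nn l 1 2 + nn l 2 1) -
        (2 + z) * (nn l 2 2 : L)) * h5
    rw [h1] at h2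
    obtain ⟨hB, hA⟩ := main h2
    rcases hA with hA | hA
    · obtain ⟨k, hk⟩ := c6
      refine hsq 1 ⟨k, ?_⟩ (by norm_num)
      linarith
    · have h4 : (5 : ℤ) ∣ 4 :=
        ⟨5 * w ^ 2 - 4 * w - (nn l 1 1 + nn l 1 2 + nn l 2 1 + nn l 2 2) - nn l 2 2, by linarith⟩
      norm_num at h4
  · have h1 := five_T1 hz (n00 := nn l 0 0) (n01 := nn l 0 2) (n02 := nn l 0 1) (n10 := nn l 1 0)
      (n11 := nn l 1 2) (n12 := nn l 1 1) (n20 := nn l 2 0) (n21 := nn l 2 2) (n22 := nn l 2 1)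
      (w := w) (by linear_combination c1) (by linear_combination c2) (by linear_combination c3)
      (by linear_combination c5) (by linear_combination c4)
    have h2 : T = (nn l 0 0 : L) + (z + z ^ 4) * nn l 0 2 + (z ^ 2 + z ^ 3) * nn l 0 1 +
        (z + z ^ 4) * nn l 1 0 + (z ^ 2 + z ^ 3) * nn l 2 0 + (z + z ^ 4) ^ 2 * nn l 1 2 +
          (z + z ^ 4) * (z ^ 2 + z ^ 3) * (nn l 1 1 + nn l 2 2) +
            (z ^ 2 + z ^ 3) ^ 2 * nn l 2 1 := by
      rw [hT, e, Helper44.KM.sum_five]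
      simp only [l4, l3, r4, r3]
      have v00 : ((0 : ZMod 5) - 2 * 0).val = 0 := rfl
      have v01 : ((0 : ZMod 5) - 2 * 1).val = 3 := rfl
      have v02 : ((0 : ZMod 5) - 2 * 2).val = 1 := rfl
      have v03 : ((0 : ZMod 5) - 2 * 3).val = 4 := rfl
      have v04 : ((0 : ZMod 5) - 2 * 4).val = 2 := rfl
      have v10 : ((1 : ZMod 5) - 2 * 0).val = 1 := rfl
      have v11 : ((1 : ZMod 5) - 2 * 1).val = 4 := rfl
      have v12 : ((1 : ZMod 5) - 2 * 2).val = 2 := rfl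
      have v13 : ((1 : ZMod 5) - 2 * 3).val = 0 := rfl
      have v14 : ((1 : ZMod 5) - 2 * 4).val = 3 := rfl
      have v20 : ((2 : ZMod 5) - 2 * 0).val = 2 := rfl
      have v21 : ((2 : ZMod 5) - 2 * 1).val = 0 := rfl
      have v22 : ((2 : ZMod 5) - 2 * 2).val = 3 := rfl
      have v23 : ((2 : ZMod 5) - 2 * 3).val = 1 := rfl
      have v24 : ((2 : ZMod 5) - 2 * 4).val = 4 := rfl
      have v30 : ((3 : ZMod 5) - 2 * 0).val = 3 := rfl
      have v31 : ((3 : ZMod 5) - 2 * 1).val = 1 := rfl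
      have v32 : ((3 : ZMod 5) - 2 * 2).val = 4 := rfl
      have v33 : ((3 : ZMod 5) - 2 * 3).val = 2 := rfl
      have v34 : ((3 : ZMod 5) - 2 * 4).val = 0 := rfl
      have v40 : ((4 : ZMod 5) - 2 * 0).val = 4 := rfl
      have v41 : ((4 : ZMod 5) - 2 * 1).val = 2 := rfl
      have v42 : ((4 : ZMod 5) - 2 * 2).val = 0 := rfl
      have v43 : ((4 : ZMod 5) - 2 * 3).val = 3 := rfl
      have v44 : ((4 : ZMod 5) - 2 * 4).val = 1 := rfl
      simp only [v00, v01, v02, v03, v04, v10, v11, v12, v13, v14, v20, v21, v22, v23, v24, v30,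
        v31, v32, v33, v34, v40, v41, v42, v43, v44]
      linear_combination (-(2 + z ^ 3) * (nn l 1 2 : L) - (z + z ^ 2) * (nn l 1 1 + nn l 2 2) -
        (2 + z) * (nn l 2 1 : L)) * h5
    rw [h1] at h2
    obtain ⟨hB, hA⟩ := main h2
    rcases hA with hA | hA
    · obtain ⟨k, hk⟩ := c6
      obtain ⟨m, hm⟩ := c7
      refine hsq 12 ⟨m - 2 * k, ?_⟩ (by norm_num)
      linarith
    · have h4 : (5 : ℤ) ∣ 4 :=
        ⟨5 * w ^ 2 - 4 * w - (nn l 1 1 + nn l 1 2 + nn l 2 1 + nn l 2 2) - nn l 2 1, by linarith⟩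
      norm_num at h4

omit [CharZero L] in
theorem sum_neg_u [hr : Fact (Nat.Prime 5)] (hl : IsLog l) (u : ZMod 5) :
    ∑ i, ∑ j, (nn l i j : L) * z ^ (i - -u * j).val =
      ∑ i, ∑ j, (nn l i j : L) * z ^ (i - u * j).val := by
  refine sum_congr rfl fun i _ => ?_
  rw [← Equiv.sum_comp (Equiv.neg (ZMod 5))]
  refine sum_congr rfl fun j _ => ?_
  simp only [Equiv.neg_apply]
  rw [nn_neg_right (by norm_num) hl, neg_mul_neg]

theorem five_ne_aux [IsAlgClosed L]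
    (hC : ∀ l : K → ZMod 5, IsLog l → (∃ x, l x ≠ 0) →
      (25 : ℤ) ∣ (((pts K).filter fun P => lam l P = dif l P).card : ℤ) - (Fintype.card K + 1))
    (hK : Fintype.card K % 5 = 1) (hK25 : Fintype.card K % 25 ≠ 1) {τ : MulChar K L}
    (hτ : orderOf τ = Fintype.card K - 1) {a : Fin 5 → ZMod 5} {s t : ZMod 5} (hs : s ≠ 0)
    (ht : t ≠ 0) (hP : Permuted (planeVec s t) a) :
    quad (ch τ (a 0)) (ch τ (a 1)) (ch τ (a 2)) (ch τ (a 3)) (ch τ (a 4)) *
      quad (ch τ (a 0))⁻¹ (ch τ (a 1))⁻¹ (ch τ (a 2))⁻¹ (ch τ (a 3))⁻¹ (ch τ (a 4))⁻¹ ≠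
        4 * (Fintype.card K : L) ^ 2 := by
  have hr : Fact (Nat.Prime 5) := ⟨by norm_num⟩
  obtain ⟨w, hw⟩ : ∃ w, Fintype.card K = 5 * w + 1 := ⟨Fintype.card K / 5, by omega⟩
  have hw5 : ¬ 5 ∣ w := by
    rintro ⟨m, rfl⟩
    omega
  have hd : 5 ∣ Fintype.card K - 1 := ⟨w, by omega⟩
  obtain ⟨z, l, hz, hl, h0, e1, e2⟩ := plane_data (by norm_num) hτ hd hs hP
  rw [e1, e2]
  have hu : s⁻¹ * t ≠ 0 := mul_ne_zero (inv_ne_zero hs) ht
  generalize s⁻¹ * t = u at hu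
  rcases five_cases u hu with h | h | h | h
  · exact five_value hl h0 hz hw hw5 (hC l hl h0) (Or.inl h)
  · exact five_value hl h0 hz hw hw5 (hC l hl h0) (Or.inr h)
  · rw [← sum_neg_u hl]
    exact five_value hl h0 hz hw hw5 (hC l hl h0) (Or.inl h)
  · rw [← sum_neg_u hl]
    exact five_value hl h0 hz hw hw5 (hC l hl h0) (Or.inr h)

end

end Pool.Agent.Helper79.KM
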