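import Pool.Agent.Helper79.KM.Two

/-!
# The moments of the logarithms on the plane of the vectors `(s, -s, -s, s, -t)`
-/

open Finset

namespace Pool.Agent.Helper79.KM

section

variable {K : Type*} [Field K] [Fintype K] [DecidableEq K] {r : ℕ} {l : K → ZMod r}

/-- the logarithm of the cross ratio -/
def lam (l : K → ZMod r) (P : K × K) : ZMod r := l P.1 + l (1 - P.2) - l (1 - P.1) - l P.2

/-- the logarithm of the difference -/
def dif (l : K → ZMod r) (P : K × K) : ZMod r := l (P.1 - P.2)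

/-- the mixed moments -/
def al (l : K → ZMod r) (i j : ℕ) : ZMod r := ∑ P ∈ pts K, lam l P ^ i * dif l P ^ j

theorem al_cross (hl : IsLog l) (i j : ℕ) : al l i j =
    ∑ c ∈ (univ.erase (0 : K)).erase 1,
      ∑ Y ∈ univ.filter (fun Y : K => Y ≠ 0 ∧ 1 + Y ≠ 0 ∧ 1 + c * Y ≠ 0),
        l c ^ i * (l (c - 1) + l Y - l (1 + c * Y) - l (1 + Y)) ^ j := by
  rw [← fib_cross (fun c Y => l c ^ i * (l (c - 1) + l Y - l (1 + c * Y) - l (1 + Y)) ^ j), al]
  refine sum_congr rfl ?_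
  rintro ⟨x, y⟩ h
  rw [mem_pts] at h
  obtain ⟨hx0, hx1, hy0, hy1, hxy⟩ := h
  simp only at hx0 hx1 hy0 hy1 hxy
  have a1 : 1 - x ≠ 0 := sub_ne_zero.2 hx1.symm
  have a2 : 1 - y ≠ 0 := sub_ne_zero.2 hy1.symm
  have a3 : x - y ≠ 0 := sub_ne_zero.2 hxy
  simp only [lam, dif]
  have h1 : l (x * (1 - y) / ((1 - x) * y)) = l x + l (1 - y) - l (1 - x) - l y := by
    rw [hl.div (mul_ne_zero hx0 a2) (mul_ne_zero a1 hy0), hl.mul _ _ hx0 a2, hl.mul _ _ a1 hy0]
    ring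
  have h2 : x * (1 - y) / ((1 - x) * y) - 1 = (x - y) / ((1 - x) * y) := by
    field_simp
    ring
  have h3 : 1 + x * (1 - y) / ((1 - x) * y) * (y / (1 - y)) = (1 - x)⁻¹ := by
    field_simp
    ring
  have h4 : 1 + y / (1 - y) = (1 - y)⁻¹ := by
    field_simp
    ring
  rw [h1, h2, h3, h4, hl.div a3 (mul_ne_zero a1 hy0), hl.mul _ _ a1 hy0, hl.div hy0 a2, hl.inv,
    hl.inv]
  congr 2
  ring

theorem al_diff (i j : ℕ) : al l i j =
    ∑ w ∈ univ.erase (0 : K),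
      ∑ y ∈ univ.filter (fun y : K => y ≠ 0 ∧ y ≠ 1 ∧ y + w ≠ 0 ∧ y + w ≠ 1),
        (l (y + w) + l (1 - y) - l (1 - (y + w)) - l y) ^ i * l w ^ j := by
  rw [← fib_diff (fun w y => (l (y + w) + l (1 - y) - l (1 - (y + w)) - l y) ^ i * l w ^ j), al]
  refine sum_congr rfl ?_
  rintro ⟨x, y⟩ _
  simp only [lam, dif, add_sub_cancel]

variable [hr : Fact r.Prime] (hr2 : r ≠ 2)

include hr2

theorem al_odd (hl : IsLog l) {i : ℕ} (hi : Odd i) (j : ℕ) : al l i j = 0 := by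
  have h : al l i j = -al l i j := by
    conv_lhs => rw [al, ← swap_pts]
    rw [al, ← sum_neg_distrib]
    refine sum_congr rfl fun P _ => ?_
    have h1 : lam l P.swap = -lam l P := by
      simp only [lam, Prod.fst_swap, Prod.snd_swap]
      ring
    have h2 : dif l P.swap = dif l P := by
      simp only [dif, Prod.fst_swap, Prod.snd_swap]
      exact hl.sub_comm hr2 _ _
    rw [h1, h2, hi.neg_pow, neg_mul]
  have h2 : (2 : ZMod r) * al l i j = 0 := by linear_combination h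
  exact (mul_eq_zero.1 h2).resolve_left (two_ne hr2)

variable (hl : IsLog l) (hK : (Fintype.card K : ZMod r) = 1)

include hl hK

omit hr2 in
theorem al_zero : al l 0 0 = 2 := by
  rw [al_cross hl]
  simp only [pow_zero, mul_one]
  have h1 : ∀ c ∈ (univ.erase (0 : K)).erase 1,
      ∑ Y ∈ univ.filter (fun Y : K => Y ≠ 0 ∧ 1 + Y ≠ 0 ∧ 1 + c * Y ≠ 0), (1 : ZMod r) = -2 := by
    intro c hc
    rw [mem_erase, mem_erase] at hc
    rw [sum_three (fun _ => (1 : ZMod r)) hc.2.1 hc.1, sum_const, card_univ, nsmul_eq_mul, hK]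
    ring
  rw [sum_congr rfl h1]
  have h2 : ∑ _c ∈ (univ.erase (0 : K)).erase 1, (-2 : ZMod r) = 2 := by
    have h3 : (1 : K) ∈ univ.erase (0 : K) := by
      rw [mem_erase]
      exact ⟨one_ne_zero, mem_univ _⟩
    have h4 := add_sum_erase univ (fun _ : K => (-2 : ZMod r)) (mem_univ 0)
    have h5 : ∑ _x : K, (-2 : ZMod r) = -2 := by
      rw [sum_const, card_univ, nsmul_eq_mul, hK, one_mul]
    rw [← add_sum_erase _ (fun _ : K => (-2 : ZMod r)) h3, h5] at h4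
    linear_combination h4
  exact h2

omit hr2 in
theorem al_cross_zero {i : ℕ} (hi : 0 < i) (hir : i + 1 < r) : al l i 0 = 0 := by
  rw [al_cross hl]
  simp only [pow_zero, mul_one]
  have h1 : ∀ c ∈ (univ.erase (0 : K)).erase 1,
      ∑ Y ∈ univ.filter (fun Y : K => Y ≠ 0 ∧ 1 + Y ≠ 0 ∧ 1 + c * Y ≠ 0), l c ^ i =
        -2 * l c ^ i := by
    intro c hc
    rw [mem_erase, mem_erase] at hc
    rw [sum_three (fun _ => l c ^ i) hc.2.1 hc.1, sum_const, card_univ, nsmul_eq_mul, hK]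
    ring
  rw [sum_congr rfl h1, ← mul_sum]
  have h3 : (1 : K) ∈ univ.erase (0 : K) := by
    rw [mem_erase]
    exact ⟨one_ne_zero, mem_univ _⟩
  have h4 := add_sum_erase univ (fun c : K => l c ^ i) (mem_univ 0)
  rw [← add_sum_erase _ (fun c : K => l c ^ i) h3, sum_pow_log hl i hi hir, hl.zero, hl.one,
    zero_pow hi.ne', zero_add, zero_add] at h4
  rw [h4, mul_zero]

theorem al_diff_zero {j : ℕ} (hj : 0 < j) (hjr : j + 1 < r) : al l 0 j = 0 := by
  rw [al_diff]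
  simp only [pow_zero, one_mul]
  have h1 : ∀ w ∈ univ.erase (0 : K),
      ∑ y ∈ univ.filter (fun y : K => y ≠ 0 ∧ y ≠ 1 ∧ y + w ≠ 0 ∧ y + w ≠ 1), l w ^ j =
        -3 * l w ^ j := by
    intro w hw
    rw [mem_erase] at hw
    by_cases hw1 : w = 1
    · rw [hw1, hl.one, zero_pow hj.ne', mul_zero]
      exact sum_const_zero
    by_cases hw2 : w = -1
    · rw [hw2, hl.neg_one hr2, zero_pow hj.ne', mul_zero]
      exact sum_const_zero
    rw [sum_four (fun _ => l w ^ j) hw.1 hw1 hw2, sum_const, card_univ, nsmul_eq_mul, hK]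
    ring
  rw [sum_congr rfl h1, ← mul_sum]
  have h4 := add_sum_erase univ (fun c : K => l c ^ j) (mem_univ 0)
  rw [sum_pow_log hl j hj hjr, hl.zero, zero_pow hj.ne', zero_add] at h4
  rw [h4, mul_zero]

/-- the second moments along the curves of constant cross ratio -/
theorem inner_cross (h3r : 3 < r) {c : K} (hc0 : c ≠ 0) (hc1 : c ≠ 1) :
    ∑ Y ∈ univ.filter (fun Y : K => Y ≠ 0 ∧ 1 + Y ≠ 0 ∧ 1 + c * Y ≠ 0),
        (l (c - 1) + l Y - l (1 + c * Y) - l (1 + Y)) ^ 2 =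
      -2 * l (1 - c) ^ 2 + 2 * (l c * l (1 - c)) := by
  set a := l c with ha
  set b := l (1 - c) with hb
  have hcm : l (c - 1) = b := hl.sub_comm hr2 _ _
  have e1 : ∀ Y ∈ univ.filter (fun Y : K => Y ≠ 0 ∧ 1 + Y ≠ 0 ∧ 1 + c * Y ≠ 0),
      (l (c - 1) + l Y - l (1 + c * Y) - l (1 + Y)) ^ 2 =
        (b - a + l (Y + 0) - l (Y + c⁻¹) - l (Y + 1)) ^ 2 := by
    intro Y hY
    rw [mem_filter] at hY
    have h1 : 1 + c * Y = c * (Y + c⁻¹) := by
      rw [mul_add, mul_inv_cancel₀ hc0, add_comm]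
    have h2 : Y + c⁻¹ ≠ 0 := by
      intro h
      apply hY.2.2.2
      rw [h1, h, mul_zero]
    rw [h1, hl.mul _ _ hc0 h2, hcm, add_zero, add_comm 1 Y]
    ring
  rw [sum_congr rfl e1, sum_three (fun Y => (b - a + l (Y + 0) - l (Y + c⁻¹) - l (Y + 1)) ^ 2)
    hc0 hc1]
  have p : ∀ u : K, ∑ z, l (z + u) = 0 := by
    intro u
    rw [sum_add_right l u]
    have := sum_pow_log hl 1 (by omega) (by omega)
    simpa using this
  have s0 := square_sum hl h3r (0 : K)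
  have s1 := square_sum hl h3r (c⁻¹ : K)
  have s2 := square_sum hl h3r (1 : K)
  have q01 := pair_sum hr2 hl hK h3r (u := 0) (v := c⁻¹) (inv_ne_zero hc0).symm
  have q02 := pair_sum hr2 hl hK h3r (u := 0) (v := 1) (zero_ne_one)
  have q12 := pair_sum hr2 hl hK h3r (u := c⁻¹) (v := 1) (by
    intro h
    rw [inv_eq_one] at h
    exact hc1 h)
  have hc : l (c⁻¹ - 1) = b - a := by
    have : c⁻¹ - 1 = (1 - c) / c := by field_simp
    rw [this, hl.div (sub_ne_zero.2 hc1.symm) hc0]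
  have n1 : l (0 - c⁻¹) = -a := by rw [zero_sub, hl.neg hr2, hl.inv]
  have n2 : l (0 - 1 : K) = 0 := by rw [zero_sub, hl.neg_one hr2]
  rw [n1] at q01
  rw [n2] at q02
  rw [hc] at q12
  have full : ∑ Y, (b - a + l (Y + 0) - l (Y + c⁻¹) - l (Y + 1)) ^ 2 =
      (b - a) ^ 2 + 2 * a ^ 2 - 2 * (b - a) ^ 2 := by
    have e : ∑ Y, (b - a + l (Y + 0) - l (Y + c⁻¹) - l (Y + 1)) ^ 2 =
        (Fintype.card K : ZMod r) * (b - a) ^ 2 +
        2 * (b - a) * ((∑ Y, l (Y + 0)) - (∑ Y, l (Y + c⁻¹)) - (∑ Y, l (Y + 1))) +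
        (∑ Y, l (Y + 0) * l (Y + 0)) + (∑ Y, l (Y + c⁻¹) * l (Y + c⁻¹)) +
        (∑ Y, l (Y + 1) * l (Y + 1)) - 2 * (∑ Y, l (Y + 0) * l (Y + c⁻¹)) -
        2 * (∑ Y, l (Y + 0) * l (Y + 1)) + 2 * (∑ Y, l (Y + c⁻¹) * l (Y + 1)) := by
      rw [← nsmul_eq_mul, ← card_univ, ← sum_const, ← sum_sub_distrib, ← sum_sub_distrib,
        mul_sum, mul_sum, mul_sum, mul_sum, ← sum_add_distrib, ← sum_add_distrib,
        ← sum_add_distrib, ← sum_add_distrib, ← sum_sub_distrib, ← sum_sub_distrib,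
        ← sum_add_distrib]
      exact sum_congr rfl fun x _ => by ring
    rw [e, p, p, p, s0, s1, s2, q01, q02, q12, hK]
    ring
  have v0 : l ((0 : K) + c⁻¹) = -a := by rw [zero_add, hl.inv]
  have v1 : l (-1 + c⁻¹) = b - a := by rw [neg_add_eq_sub, hc]
  have v2 : l (-c⁻¹ + 1) = b - a := by rw [neg_add_eq_sub, hl.sub_comm hr2, hc]
  have v3 : l (-c⁻¹) = -a := by rw [hl.neg hr2, hl.inv]
  rw [full, v0, v1, v2]
  simp only [add_zero, zero_add, neg_add_cancel, hl.zero, hl.one, hl.neg_one hr2, v3]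
  ring

/-- the second moments along the curves of constant difference -/
theorem inner_diff (h3r : 3 < r) {w : K} (hw0 : w ≠ 0) (hw1 : w ≠ 1) (hw2 : w ≠ -1) :
    ∑ y ∈ univ.filter (fun y : K => y ≠ 0 ∧ y ≠ 1 ∧ y + w ≠ 0 ∧ y + w ≠ 1),
        (l (y + w) + l (1 - y) - l (1 - (y + w)) - l y) ^ 2 =
      -4 * l (1 - w) ^ 2 - 4 * l (1 + w) ^ 2 + 4 * (l w * l (1 - w)) + 4 * (l w * l (1 + w)) := by
  set a := l w with ha
  set b := l (1 - w) with hb
  set c := l (1 + w) with hc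
  have e1 : ∀ y : K, (l (y + w) + l (1 - y) - l (1 - (y + w)) - l y) ^ 2 =
      (l (y + w) + l (y + -1) - l (y + (w - 1)) - l (y + 0)) ^ 2 := by
    intro y
    rw [hl.sub_comm hr2 1 y, hl.sub_comm hr2 1 (y + w), add_zero, ← sub_eq_add_neg,
      add_sub_assoc y w 1]
  simp only [e1]
  rw [sum_four (fun y => (l (y + w) + l (y + -1) - l (y + (w - 1)) - l (y + 0)) ^ 2) hw0 hw1 hw2]
  have s0 := square_sum hl h3r (w : K)
  have s1 := square_sum hl h3r (-1 : K)
  have s2 := square_sum hl h3r (w - 1 : K)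
  have s3 := square_sum hl h3r (0 : K)
  have q01 := pair_sum hr2 hl hK h3r (u := w) (v := -1) hw2
  have q02 := pair_sum hr2 hl hK h3r (u := w) (v := w - 1) (by
    intro h
    exact one_ne_zero (by linear_combination h : (1 : K) = 0))
  have q03 := pair_sum hr2 hl hK h3r (u := w) (v := 0) hw0
  have q12 := pair_sum hr2 hl hK h3r (u := -1) (v := w - 1) (by
    intro h
    exact hw0 (by linear_combination -h))
  have q13 := pair_sum hr2 hl hK h3r (u := -1) (v := (0 : K)) (neg_ne_zero.2 one_ne_zero)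
  have q23 := pair_sum hr2 hl hK h3r (u := w - 1) (v := 0) (sub_ne_zero.2 hw1)
  have n01 : l (w - -1) = c := by rw [sub_neg_eq_add, add_comm]
  have n02 : l (w - (w - 1)) = 0 := by rw [sub_sub_cancel, hl.one]
  have n03 : l (w - 0) = a := by rw [sub_zero]
  have n12 : l (-1 - (w - 1)) = a := by
    have : -1 - (w - 1) = -w := by ring
    rw [this, hl.neg hr2]
  have n13 : l (-1 - 0 : K) = 0 := by rw [sub_zero, hl.neg_one hr2]
  have n23 : l (w - 1 - 0) = b := by rw [sub_zero, hl.sub_comm hr2]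
  rw [n01] at q01
  rw [n02] at q02
  rw [n03] at q03
  rw [n12] at q12
  rw [n13] at q13
  rw [n23] at q23
  have full : ∑ y, (l (y + w) + l (y + -1) - l (y + (w - 1)) - l (y + 0)) ^ 2 =
      -2 * c ^ 2 + 4 * a ^ 2 - 2 * b ^ 2 := by
    have e : ∑ y, (l (y + w) + l (y + -1) - l (y + (w - 1)) - l (y + 0)) ^ 2 =
        (∑ y, l (y + w) * l (y + w)) + (∑ y, l (y + -1) * l (y + -1)) +
        (∑ y, l (y + (w - 1)) * l (y + (w - 1))) + (∑ y, l (y + 0) * l (y + 0)) +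
        2 * (∑ y, l (y + w) * l (y + -1)) - 2 * (∑ y, l (y + w) * l (y + (w - 1))) -
        2 * (∑ y, l (y + w) * l (y + 0)) - 2 * (∑ y, l (y + -1) * l (y + (w - 1))) -
        2 * (∑ y, l (y + -1) * l (y + 0)) + 2 * (∑ y, l (y + (w - 1)) * l (y + 0)) := by
      simp only [mul_sum, ← sum_add_distrib, ← sum_sub_distrib]
      exact sum_congr rfl fun x _ => by ring
    rw [e, s0, s1, s2, s3, q01, q02, q03, q12, q13, q23]
    ring
  have v1 : l (0 + (w - 1)) = b := by rw [zero_add, hl.sub_comm hr2]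
  have v2 : l (1 + (w - 1)) = a := by rw [add_sub_cancel]
  have v3 : l (-w + -1) = c := by
    have : -w + -1 = -(1 + w) := by ring
    rw [this, hl.neg hr2]
  have v4 : l (-w + (w - 1)) = 0 := by
    have : -w + (w - 1) = -1 := by ring
    rw [this, hl.neg_one hr2]
  have v5 : l (1 - w + w) = 0 := by rw [sub_add_cancel, hl.one]
  have v6 : l (1 - w + -1) = a := by
    have : 1 - w + -1 = -w := by ring
    rw [this, hl.neg hr2]
  have v7 : l (1 - w + (w - 1)) = 0 := by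
    have : 1 - w + (w - 1) = 0 := by ring
    rw [this, hl.zero]
  have v8 : l (-w) = a := hl.neg hr2 w
  have v9 : l (1 + -1 : K) = 0 := by rw [add_neg_cancel, hl.zero]
  rw [full, v1, v2, v3, v4, v5, v6, v7, v9]
  simp only [zero_add, add_zero, neg_add_cancel, hl.zero, hl.one, hl.neg_one hr2, v8]
  ring

/-- the moments needed below -/
theorem al_two {j : ℕ} (hj : 0 < j) (h3r : 3 < r) :
    al l 2 j = 8 * (bs l (j + 1) 1 - bs l j 2) := by
  rw [al_diff]
  have h1 : ∀ w ∈ univ.erase (0 : K),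
      ∑ y ∈ univ.filter (fun y : K => y ≠ 0 ∧ y ≠ 1 ∧ y + w ≠ 0 ∧ y + w ≠ 1),
        (l (y + w) + l (1 - y) - l (1 - (y + w)) - l y) ^ 2 * l w ^ j =
      l w ^ j * (-4 * l (1 - w) ^ 2 - 4 * l (1 + w) ^ 2 + 4 * (l w * l (1 - w)) +
        4 * (l w * l (1 + w))) := by
    intro w hw
    rw [mem_erase] at hw
    by_cases hw1 : w = 1
    · rw [hw1, hl.one, zero_pow hj.ne', zero_mul]
      simp only [mul_zero]
      exact sum_const_zero
    by_cases hw2 : w = -1
    · rw [hw2, hl.neg_one hr2, zero_pow hj.ne', zero_mul]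
      simp only [mul_zero]
      exact sum_const_zero
    rw [← sum_mul, inner_diff hr2 hl hK h3r hw.1 hw1 hw2]
    ring
  rw [sum_congr rfl h1]
  have h4 := add_sum_erase univ (fun w : K => l w ^ j * (-4 * l (1 - w) ^ 2 - 4 * l (1 + w) ^ 2 +
    4 * (l w * l (1 - w)) + 4 * (l w * l (1 + w)))) (mem_univ 0)
  simp only [hl.zero, zero_pow hj.ne', zero_mul, zero_add] at h4
  rw [h4]
  have h5 : ∀ a b : ℕ, ∑ w, l w ^ a * l (1 + w) ^ b = bs l a b := by
    intro a b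
    rw [bs]
    refine Fintype.sum_equiv (Equiv.neg K) _ _ fun y => ?_
    rw [Equiv.neg_apply, hl.neg hr2, sub_neg_eq_add]
  have h6 : ∑ w, l w ^ j * (-4 * l (1 - w) ^ 2 - 4 * l (1 + w) ^ 2 +
      4 * (l w * l (1 - w)) + 4 * (l w * l (1 + w))) =
      -4 * (∑ w, l w ^ j * l (1 - w) ^ 2) - 4 * (∑ w, l w ^ j * l (1 + w) ^ 2) +
        4 * (∑ w, l w ^ (j + 1) * l (1 - w) ^ 1) + 4 * (∑ w, l w ^ (j + 1) * l (1 + w) ^ 1) := by
    simp only [mul_sum, ← sum_add_distrib, ← sum_sub_distrib]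
    exact sum_congr rfl fun x _ => by ring
  rw [h6, h5, h5]
  simp only [bs]
  ring

theorem al_four {i : ℕ} (hi : 0 < i) (h3r : 3 < r) :
    al l i 2 = -2 * bs l i 2 + 2 * bs l (i + 1) 1 := by
  rw [al_cross hl]
  have h1 : ∀ c ∈ (univ.erase (0 : K)).erase 1,
      ∑ Y ∈ univ.filter (fun Y : K => Y ≠ 0 ∧ 1 + Y ≠ 0 ∧ 1 + c * Y ≠ 0),
        l c ^ i * (l (c - 1) + l Y - l (1 + c * Y) - l (1 + Y)) ^ 2 =
      l c ^ i * (-2 * l (1 - c) ^ 2 + 2 * (l c * l (1 - c))) := by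
    intro c hc
    rw [mem_erase, mem_erase] at hc
    rw [← mul_sum, inner_cross hr2 hl hK h3r hc.2.1 hc.1]
  rw [sum_congr rfl h1]
  have h3 : (1 : K) ∈ univ.erase (0 : K) := by
    rw [mem_erase]
    exact ⟨one_ne_zero, mem_univ _⟩
  have h4 := add_sum_erase univ
    (fun c : K => l c ^ i * (-2 * l (1 - c) ^ 2 + 2 * (l c * l (1 - c)))) (mem_univ 0)
  rw [← add_sum_erase _ _ h3] at h4
  simp only [hl.zero, hl.one, zero_pow hi.ne', zero_mul, zero_add] at h4
  rw [h4]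
  simp only [bs, mul_sum, ← sum_add_distrib]
  exact sum_congr rfl fun x _ => by ring

end

end Pool.Agent.Helper79.KM
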