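import Pool.Agent.Helper73.QC.Fun
import Pool.Agent.Helper73.QC.Add
import Pool.Agent.Helper73.QC.Defs

/-!
# Permutations of the five points
-/

open Finset

namespace Pool.Agent.Helper79.KM

open Pool.Agent.Helper73.LF Pool.Agent.Helper73.QC

/-- The exponents after a permutation of the five points `0, 1, ∞, x, y`: the constructors are the
transpositions of `x` and `y`, of `0` and `1`, of `0` and `∞`, and of `1` and `y`. -/
inductive Permuted {R : Type} [CommRing R] (a : Fin 5 → R) : (Fin 5 → R) → Prop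
  | refl : Permuted a a
  | xy (b : Fin 5 → R) : Permuted a b → Permuted a ![b 2, b 3, b 0, b 1, b 4]
  | zeroOne (b : Fin 5 → R) : Permuted a b → Permuted a ![b 1, b 0, b 3, b 2, b 4]
  | zeroInf (b : Fin 5 → R) : Permuted a b →
      Permuted a ![-(b 0 + b 1 + b 4), b 1, -(b 2 + b 3 + b 4), b 3, b 4]
  | oneY (b : Fin 5 → R) : Permuted a b →
      Permuted a ![b 0, b 4, -(b 0 + b 1 + b 2 + b 3 + b 4), b 3, b 1]

section

variable {K L : Type*} [Field K] [Fintype K] [Field L]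

theorem quad_zeroOne {A B C D E : MulChar K L} (hE : E (-1) = 1) :
    quad A B C D E = quad B A D C E := by
  rw [quad, quad, ← Equiv.sum_comp (Equiv.subLeft (1 : K))]
  refine sum_congr rfl fun x _ => ?_
  rw [← Equiv.sum_comp (Equiv.subLeft (1 : K))]
  refine sum_congr rfl fun y _ => ?_
  simp only [Equiv.subLeft_apply, sub_sub_cancel]
  have h : (1 - x) - (1 - y) = -(x - y) := by ring
  rw [h, map_neg_arg hE]
  ring

omit [Fintype K] in
theorem inv_apply_inv (χ : MulChar K L) (x : K) : χ x⁻¹ = χ⁻¹ x := by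
  rw [MulChar.inv_apply']

theorem quad_zeroInf {A B C D E : MulChar K L} (hB : B (-1) = 1) (hD : D (-1) = 1)
    (hE : E (-1) = 1) :
    quad A B C D E = quad (A⁻¹ * B⁻¹ * E⁻¹) B (C⁻¹ * D⁻¹ * E⁻¹) D E := by
  rw [quad, quad, ← Equiv.sum_comp (Equiv.inv K)]
  refine sum_congr rfl fun x _ => ?_
  rw [← Equiv.sum_comp (Equiv.inv K)]
  refine sum_congr rfl fun y _ => ?_
  simp only [Equiv.inv_apply]
  by_cases hx : x = 0
  · rw [hx, inv_zero, map_zero'', map_zero'']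
    ring
  by_cases hy : y = 0
  · rw [hy, inv_zero, map_zero'' C, map_zero'' (C⁻¹ * D⁻¹ * E⁻¹)]
    ring
  have h1 : 1 - x⁻¹ = -(1 - x) * x⁻¹ := by
    field_simp
    ring
  have h2 : 1 - y⁻¹ = -(1 - y) * y⁻¹ := by
    field_simp
    ring
  have h3 : x⁻¹ - y⁻¹ = -(x - y) * x⁻¹ * y⁻¹ := by
    field_simp
    ring
  rw [h1, h2, h3]
  simp only [map_mul, map_neg_arg hB, map_neg_arg hD, map_neg_arg hE, inv_apply_inv,
    MulChar.mul_apply]
  ring

theorem quad_oneY {A B C D E : MulChar K L} (hB : B (-1) = 1) (hD : D (-1) = 1)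
    (hE : E (-1) = 1) :
    quad A B C D E = quad A E (A⁻¹ * B⁻¹ * C⁻¹ * D⁻¹ * E⁻¹) D B := by
  have e : ∀ A B C D E : MulChar K L, quad A B C D E =
      ∑ y, ∑ x, A x * B (1 - x) * C y * D (1 - y) * E (x - y) := fun A B C D E => by
    rw [quad, sum_comm]
  rw [e, e, ← Equiv.sum_comp (Equiv.inv K)]
  refine sum_congr rfl fun y _ => ?_
  simp only [Equiv.inv_apply]
  by_cases hy : y = 0
  · rw [hy, inv_zero]
    refine sum_congr rfl fun x _ => ?_
    rw [map_zero'' C, map_zero'' (A⁻¹ * B⁻¹ * C⁻¹ * D⁻¹ * E⁻¹)]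
    ring
  rw [← Equiv.sum_comp (Equiv.mulRight₀ (y⁻¹) (inv_ne_zero hy))]
  refine sum_congr rfl fun x _ => ?_
  simp only [Equiv.mulRight₀_apply]
  have h1 : 1 - x * y⁻¹ = -(x - y) * y⁻¹ := by
    field_simp
    ring
  have h2 : 1 - y⁻¹ = -(1 - y) * y⁻¹ := by
    field_simp
    ring
  have h3 : x * y⁻¹ - y⁻¹ = -(1 - x) * y⁻¹ := by
    ring
  rw [h1, h2, h3]
  simp only [map_mul, map_neg_arg hB, map_neg_arg hD, map_neg_arg hE, inv_apply_inv,
    MulChar.mul_apply]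
  ring

end

section

variable {K L : Type*} [Field K] [Fintype K] [Field L] {n : ℕ} [NeZero n] {τ : MulChar K L}

/-- the condition that the powers of `τ` are defined and trivial at `-1` -/
def Ok (τ : MulChar K L) (x : ZMod n) : Prop :=
  ((Fintype.card K - 1 : ℕ) : ZMod n) * x = 0 ∧ ch τ x (-1) = 1

theorem Ok.add (hτ : orderOf τ = Fintype.card K - 1) {x y : ZMod n} (hx : Ok τ x) (hy : Ok τ y) :
    Ok τ (x + y) := by
  refine ⟨by rw [mul_add, hx.1, hy.1, add_zero], ?_⟩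
  rw [ch_add hτ hx.1 hy.1, mul_neg_one hx.2 hy.2]

theorem Ok.neg (hτ : orderOf τ = Fintype.card K - 1) {x : ZMod n} (hx : Ok τ x) :
    Ok τ (-x) := by
  refine ⟨by rw [mul_neg, hx.1, neg_zero], ?_⟩
  rw [ch_neg hτ hx.1, inv_neg_one hx.2]

/-- the character sum with given exponents -/
noncomputable def qs (τ : MulChar K L) (a : Fin 5 → ZMod n) : L :=
  quad (ch τ (a 0)) (ch τ (a 1)) (ch τ (a 2)) (ch τ (a 3)) (ch τ (a 4))

/-- the character sum is invariant under permutations -/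
theorem qs_permuted (hτ : orderOf τ = Fintype.card K - 1) {a b : Fin 5 → ZMod n}
    (h : Permuted a b) (ha : ∀ i, Ok τ (a i)) :
    (∀ i, Ok τ (b i)) ∧ qs τ b = qs τ a ∧ qs τ (-b) = qs τ (-a) := by
  induction h with
  | refl => exact ⟨ha, rfl, rfl⟩
  | xy b _ ih =>
    obtain ⟨hb, h1, h2⟩ := ih
    refine ⟨?_, ?_, ?_⟩
    · intro i
      fin_cases i
      exacts [hb 2, hb 3, hb 0, hb 1, hb 4]
    · rw [← h1]
      exact quad_symm (hb 4).2
    · rw [← h2]
      exact quad_symm ((hb 4).neg hτ).2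
  | zeroOne b _ ih =>
    obtain ⟨hb, h1, h2⟩ := ih
    refine ⟨?_, ?_, ?_⟩
    · intro i
      fin_cases i
      exacts [hb 1, hb 0, hb 3, hb 2, hb 4]
    · rw [← h1]
      exact quad_zeroOne (hb 4).2
    · rw [← h2]
      exact quad_zeroOne ((hb 4).neg hτ).2
  | zeroInf b _ ih =>
    obtain ⟨hb, h1, h2⟩ := ih
    have k1 := (((hb 0).add hτ (hb 1)).add hτ (hb 4)).neg hτ
    have k2 := (((hb 2).add hτ (hb 3)).add hτ (hb 4)).neg hτ
    have key : ∀ c : Fin 5 → ZMod n, (∀ i, Ok τ (c i)) →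
        qs τ ![-(c 0 + c 1 + c 4), c 1, -(c 2 + c 3 + c 4), c 3, c 4] = qs τ c := by
      intro c hc
      have e1 : ch τ (-(c 0 + c 1 + c 4)) = (ch τ (c 0))⁻¹ * (ch τ (c 1))⁻¹ * (ch τ (c 4))⁻¹ := by
        rw [ch_neg hτ (((hc 0).add hτ (hc 1)).add hτ (hc 4)).1,
          ch_add hτ ((hc 0).add hτ (hc 1)).1 (hc 4).1, ch_add hτ (hc 0).1 (hc 1).1,
          mul_inv, mul_inv]
      have e2 : ch τ (-(c 2 + c 3 + c 4)) = (ch τ (c 2))⁻¹ * (ch τ (c 3))⁻¹ * (ch τ (c 4))⁻¹ := by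
        rw [ch_neg hτ (((hc 2).add hτ (hc 3)).add hτ (hc 4)).1,
          ch_add hτ ((hc 2).add hτ (hc 3)).1 (hc 4).1, ch_add hτ (hc 2).1 (hc 3).1,
          mul_inv, mul_inv]
      change quad (ch τ (-(c 0 + c 1 + c 4))) (ch τ (c 1)) (ch τ (-(c 2 + c 3 + c 4)))
        (ch τ (c 3)) (ch τ (c 4)) = _
      rw [e1, e2]
      exact (quad_zeroInf (hc 1).2 (hc 3).2 (hc 4).2).symm
    refine ⟨?_, ?_, ?_⟩
    · intro i
      fin_cases i
      exacts [k1, hb 1, k2, hb 3, hb 4]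
    · rw [← h1]
      exact key b hb
    · rw [← h2, ← key (-b) fun i => (hb i).neg hτ]
      congr 1
      funext i
      fin_cases i <;> simp <;> ring
  | oneY b _ ih =>
    obtain ⟨hb, h1, h2⟩ := ih
    have k : ∀ c : Fin 5 → ZMod n, (∀ i, Ok τ (c i)) →
        Ok τ (c 0 + c 1 + c 2 + c 3 + c 4) := fun c hc =>
      ((((hc 0).add hτ (hc 1)).add hτ (hc 2)).add hτ (hc 3)).add hτ (hc 4)
    have key : ∀ c : Fin 5 → ZMod n, (∀ i, Ok τ (c i)) →
        qs τ ![c 0, c 4, -(c 0 + c 1 + c 2 + c 3 + c 4), c 3, c 1] = qs τ c := by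
      intro c hc
      have e1 : ch τ (-(c 0 + c 1 + c 2 + c 3 + c 4)) = (ch τ (c 0))⁻¹ * (ch τ (c 1))⁻¹ *
          (ch τ (c 2))⁻¹ * (ch τ (c 3))⁻¹ * (ch τ (c 4))⁻¹ := by
        rw [ch_neg hτ (k c hc).1,
          ch_add hτ ((((hc 0).add hτ (hc 1)).add hτ (hc 2)).add hτ (hc 3)).1 (hc 4).1,
          ch_add hτ (((hc 0).add hτ (hc 1)).add hτ (hc 2)).1 (hc 3).1,
          ch_add hτ ((hc 0).add hτ (hc 1)).1 (hc 2).1, ch_add hτ (hc 0).1 (hc 1).1,
          mul_inv, mul_inv, mul_inv, mul_inv]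
      change quad (ch τ (c 0)) (ch τ (c 4)) (ch τ (-(c 0 + c 1 + c 2 + c 3 + c 4)))
        (ch τ (c 3)) (ch τ (c 1)) = _
      rw [e1]
      exact (quad_oneY (hc 1).2 (hc 3).2 (hc 4).2).symm
    refine ⟨?_, ?_, ?_⟩
    · intro i
      fin_cases i
      exacts [hb 0, hb 4, (k b hb).neg hτ, hb 3, hb 1]
    · rw [← h1]
      exact key b hb
    · rw [← h2, ← key (-b) fun i => (hb i).neg hτ]
      congr 1
      funext i
      fin_cases i <;> simp <;> ring

end

end Pool.Agent.Helper79.KM
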