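import Pool.Agent.Helper79.KM.Sum
import Pool.Agent.Helper79.KM.Perm
import Pool.Agent.Helper73.QC.Height

/-!
# The criterion with the sum of `ind x ^ 2 * ind (1 - x)`
-/

open Finset

namespace Pool.Agent.Helper79.KM

open Pool.Agent.Helper73.LF Pool.Agent.Helper73.QC

section

variable {K : Type} [Field K] [Fintype K] {r : ℕ} [hr : Fact r.Prime]

omit [Fintype K] in
theorem log_pow {l : K → ZMod r} (hl : ∀ x y, x ≠ 0 → y ≠ 0 → l (x * y) = l x + l y) {g : K}
    (hg : g ≠ 0) (i : ℕ) : l (g ^ i) = i * l g := by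
  induction i with
  | zero =>
    have h := hl 1 1 one_ne_zero one_ne_zero
    rw [mul_one] at h
    rw [pow_zero, Nat.cast_zero, zero_mul]
    linear_combination -h
  | succ i ih =>
    rw [pow_succ, hl _ _ (pow_ne_zero i hg) hg, ih]
    push_cast
    ring

/-- two logarithms are proportional -/
theorem proportional {l l' : K → ZMod r} (hl : ∀ x y, x ≠ 0 → y ≠ 0 → l (x * y) = l x + l y)
    (hl' : ∀ x y, x ≠ 0 → y ≠ 0 → l' (x * y) = l' x + l' y) {x₀ : K} (h0 : x₀ ≠ 0)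
    (hx : l x₀ ≠ 0) : ∃ κ : ZMod r, ∀ x ≠ 0, l' x = κ * l x := by
  obtain ⟨g, hg⟩ := IsCyclic.exists_generator (α := Kˣ)
  have hpow : ∀ x : K, x ≠ 0 → ∃ i : ℕ, (g : K) ^ i = x := by
    intro x hx
    obtain ⟨i, hi⟩ := mem_powers_iff_mem_zpowers.2 (hg (Units.mk0 x hx))
    refine ⟨i, ?_⟩
    have := congrArg Units.val hi
    simpa using this
  have hlg : l (g : K) ≠ 0 := by
    intro h
    obtain ⟨i, hi⟩ := hpow x₀ h0
    apply hx
    rw [← hi, log_pow hl g.ne_zero, h, mul_zero]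
  refine ⟨l' (g : K) / l (g : K), fun x hx => ?_⟩
  obtain ⟨i, rfl⟩ := hpow x hx
  rw [log_pow hl g.ne_zero, log_pow hl' g.ne_zero]
  field_simp

end

section

variable {K L : Type} [Field K] [Fintype K] [Field L] [CharZero L] [IsAlgClosed L]
  {r : ℕ} [hr : Fact r.Prime]

/-- the vector in the plane -/
def planeVec {R : Type} [CommRing R] (s t : R) : Fin 5 → R := ![s, -s, -s, s, -t]

theorem kummer_ne (hr7 : 7 < r) {n c k : ℕ} (hk : 0 < k) (hn : n = c * r ^ k) (hn0 : n ≠ 0)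
    {τ : MulChar K L} (hτ : orderOf τ = Fintype.card K - 1)
    (hd : r ^ k ∣ Fintype.card K - 1) (s t : ℤ)
    (hst : ((s * t * (s ^ 2 + 4 * t ^ 2) : ℤ) : ZMod r) ≠ 0) {a : Fin 5 → ZMod n}
    (ha : Permuted (planeVec ((c * s : ℤ) : ZMod n) ((c * t : ℤ) : ZMod n)) a)
    {l : K → ZMod r} (hl : ∀ x y, x ≠ 0 → y ≠ 0 → l (x * y) = l x + l y)
    (hB : ∑ x, l x ^ 2 * l (1 - x) ≠ 0) :
    quad (ch τ (a 0)) (ch τ (a 1)) (ch τ (a 2)) (ch τ (a 3)) (ch τ (a 4)) *
      quad (ch τ (a 0))⁻¹ (ch τ (a 1))⁻¹ (ch τ (a 2))⁻¹ (ch τ (a 3))⁻¹ (ch τ (a 4))⁻¹ ≠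
        4 * (Fintype.card K : L) ^ 2 := by
  classical
  have : NeZero n := ⟨hn0⟩
  have hr2 : r ≠ 2 := by omega
  have hro : Odd (r ^ k) := (hr.out.odd_of_ne_two hr2).pow
  have : NeZero (r ^ k) := ⟨pow_ne_zero k hr.out.ne_zero⟩
  -- the exponents are allowed
  have hok : ∀ w : ℤ, Ok τ ((c * w : ℤ) : ZMod n) := by
    intro w
    have h1 : ((c * r ^ k : ℕ) : ZMod n) = 0 := by
      rw [← hn]
      exact ZMod.natCast_self n
    obtain ⟨m, hm⟩ := hd
    have h2 : ((Fintype.card K - 1 : ℕ) : ZMod n) * ((c * w : ℤ) : ZMod n) = 0 := by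
      rw [hm]
      push_cast at h1 ⊢
      linear_combination ((m : ZMod n) * w) * h1
    have h3 : ((r ^ k : ℕ) : ZMod n) * ((c * w : ℤ) : ZMod n) = 0 := by
      push_cast at h1 ⊢
      linear_combination (w : ZMod n) * h1
    refine ⟨h2, ?_⟩
    have h4 : (ch τ ((c * w : ℤ) : ZMod n) (-1)) ^ (r ^ k) = 1 := by
      rw [← MulChar.pow_apply' _ (NeZero.ne (r ^ k)), ch_pow hτ h2 h3,
        MulChar.one_apply (isUnit_iff_ne_zero.2 (neg_ne_zero.2 one_ne_zero))]
    have h5 : (ch τ ((c * w : ℤ) : ZMod n) (-1)) ^ 2 = 1 := by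
      rw [← map_pow, neg_one_sq, map_one]
    obtain ⟨i, hi⟩ := hro
    rw [hi, pow_succ, pow_mul, h5, one_pow, one_mul] at h4
    exact h4
  have hok0 : ∀ i, Ok τ (planeVec ((c * s : ℤ) : ZMod n) ((c * t : ℤ) : ZMod n) i) := by
    intro i
    fin_cases i
    exacts [hok s, (hok s).neg hτ, (hok s).neg hτ, hok s, (hok t).neg hτ]
  obtain ⟨hoka, h1, h2⟩ := qs_permuted hτ ha hok0
  have hinv : quad (ch τ (a 0))⁻¹ (ch τ (a 1))⁻¹ (ch τ (a 2))⁻¹ (ch τ (a 3))⁻¹ (ch τ (a 4))⁻¹ =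
      qs τ (-a) := by
    rw [qs]
    simp only [Pi.neg_apply]
    rw [ch_neg hτ (hoka 0).1, ch_neg hτ (hoka 1).1, ch_neg hτ (hoka 2).1, ch_neg hτ (hoka 3).1,
      ch_neg hτ (hoka 4).1]
  have hdir : quad (ch τ (a 0)) (ch τ (a 1)) (ch τ (a 2)) (ch τ (a 3)) (ch τ (a 4)) =
      qs τ a := rfl
  rw [hinv, hdir, h1, h2]
  -- reduction to the modulus `r ^ k`
  have hch : ∀ w : ℤ, ch τ ((c * w : ℤ) : ZMod n) = ch τ ((w : ℤ) : ZMod (r ^ k)) := by
    intro w
    have hc0 : 0 < c := by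
      rcases c.eq_zero_or_pos with h0 | h0
      · rw [h0, zero_mul] at hn
        exact absurd hn hn0
      · exact h0
    rw [ch, ch]
    congr 1
    have h3 := val_smul hn hn0 w
    rw [h3]
    conv_lhs => rw [hn]
    rw [mul_left_comm]
    exact Nat.mul_div_mul_left _ _ hc0
  have hneg : ∀ w : ℤ, ch τ (-((c * w : ℤ) : ZMod n)) = ch τ (-((w : ℤ) : ZMod (r ^ k))) := by
    intro w
    have h3 := hch (-w)
    push_cast at h3 ⊢
    rw [mul_neg] at h3
    exact h3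
  set S : ZMod (r ^ k) := (s : ZMod (r ^ k)) with hS
  set T : ZMod (r ^ k) := (t : ZMod (r ^ k)) with hT
  have e1 : qs τ (planeVec ((c * s : ℤ) : ZMod n) ((c * t : ℤ) : ZMod n)) =
      qs τ (planeVec S T) := by
    rw [qs, qs]
    simp only [planeVec, Matrix.cons_val]
    rw [hch, hneg, hneg]
  have e2 : qs τ (-planeVec ((c * s : ℤ) : ZMod n) ((c * t : ℤ) : ZMod n)) =
      qs τ (-planeVec S T) := by
    rw [qs, qs]
    simp only [planeVec, Pi.neg_apply, Matrix.cons_val, neg_neg]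
    rw [hch, hneg, hch]
  rw [e1, e2]
  -- the logarithms
  obtain ⟨z, e, hz, hadd, he, x₀, hx₀, hred⟩ := exists_log hk hτ hd
  have hL := lg_isLog hk hadd
  have hK : (Fintype.card K : ZMod r) = 1 := by
    have h3 : ((Fintype.card K - 1 : ℕ) : ZMod r) = 0 :=
      (ZMod.natCast_eq_zero_iff _ _).2 ((dvd_pow_self r hk.ne').trans hd)
    rw [Nat.cast_sub Fintype.card_pos, Nat.cast_one] at h3
    linear_combination h3
  have h42 := bs42 hr7 hL hK (jacobi_six hr7 hk hτ hd hz hadd he)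
  have hb : bs (lg hk e) 2 1 ≠ 0 := by
    obtain ⟨κ, hκ⟩ := proportional (l := lg hk e) (l' := l) hL.mul hl hx₀ (by
      rwa [lg_of_ne hk e hx₀])
    intro h0
    apply hB
    have h1' : l 1 = 0 := by
      have h := hl 1 1 one_ne_zero one_ne_zero
      rw [mul_one] at h
      linear_combination -h
    have h3 : ∑ x, l x ^ 2 * l (1 - x) = κ ^ 3 * bs (lg hk e) 2 1 := by
      rw [bs, mul_sum]
      refine sum_congr rfl fun x _ => ?_
      by_cases hx : x = 0
      · rw [hx, sub_zero, h1', hL.zero]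
        ring
      by_cases hx1 : x = 1
      · rw [hx1, sub_self, h1', hL.zero]
        ring
      rw [hκ x hx, hκ _ (sub_ne_zero.2 (Ne.symm hx1))]
      ring
    rw [h3, h0, mul_zero]
  have hst' : red r k hk S * red r k hk T * (red r k hk S ^ 2 + 4 * red r k hk T ^ 2) ≠ 0 := by
    intro h
    apply hst
    rw [hS, hT, map_intCast, map_intCast] at h
    push_cast
    exact h
  intro heq
  apply plane_ne hr7 hL hK h42 hb hst'
  have hphi : 6 < r ^ k - r ^ (k - 1) := by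
    obtain ⟨k', rfl⟩ : ∃ k', k = k' + 1 := ⟨k - 1, by omega⟩
    rw [Nat.add_sub_cancel, pow_succ]
    have h1 : 1 ≤ r ^ k' := Nat.one_le_pow _ _ hr.out.pos
    have h2 : r ^ k' * 8 ≤ r ^ k' * r := Nat.mul_le_mul_left _ (by omega)
    omega
  have q1 : qs τ (planeVec S T) = ∑ P ∈ pts K, z ^ (expo e (planeVec S T) P).val :=
    quad_sum hz.pow_eq_one he (planeVec S T)
  have q2 : qs τ (-planeVec S T) = ∑ P ∈ pts K, z ^ (-expo e (planeVec S T) P).val := by
    have h3 : qs τ (-planeVec S T) = ∑ P ∈ pts K, z ^ (expo e (-planeVec S T) P).val :=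
      quad_sum hz.pow_eq_one he (-planeVec S T)
    rw [h3]
    refine sum_congr rfl fun P _ => ?_
    congr 2
    simp only [expo, Pi.neg_apply]
    ring
  have h6 := pair_moment hk hz (pts K) (expo e (planeVec S T)) (4 * (Fintype.card K : ℤ) ^ 2)
    (by
      rw [← q1, ← q2, heq]
      push_cast
      ring) (k := 6) (by omega) hphi
  rw [← h6]
  have hval : ∀ P ∈ pts K, red r k hk (expo e (planeVec S T) P) =
      red r k hk S * lam (lg hk e) P - red r k hk T * dif (lg hk e) P := by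
    intro P hP
    rw [mem_pts] at hP
    obtain ⟨hx0, hx1, hy0, hy1, hxy⟩ := hP
    simp only [expo, planeVec, Matrix.cons_val, lam, dif]
    rw [lg_of_ne hk e hx0, lg_of_ne hk e (sub_ne_zero.2 hx1.symm), lg_of_ne hk e hy0,
      lg_of_ne hk e (sub_ne_zero.2 hy1.symm), lg_of_ne hk e (sub_ne_zero.2 hxy)]
    simp only [map_add, map_mul, map_neg]
    ring
  refine sum_congr rfl fun P hP => sum_congr rfl fun Q hQ => ?_
  rw [hval P hP, hval Q hQ]

end

end Pool.Agent.Helper79.KM
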