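import Pool.Agent.Helper79.KM.Full
import Pool.Agent.Helper79.KM.Kummer

/-!
# The criterion with the sum of `ind x ^ 2 * ind (1 - x)` for all exponents
-/

open Finset

namespace Pool.Agent.Helper79.KM

open Pool.Agent.Helper73.LF Pool.Agent.Helper73.QC

/-- the polynomial of degree six in the exponents -/
def kD {R : Type*} [CommRing R] (a b c d e : R) : R :=
  3 * sG a b c d e - 4 * sS 3 a b c d e ^ 2

theorem map_kD {R S : Type*} [CommRing R] [CommRing S] (f : R →+* S) (a b c d e : R) :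
    f (kD a b c d e) = kD (f a) (f b) (f c) (f d) (f e) := by
  simp only [kD, sG, sS, sV, map_add, map_sub, map_mul, map_pow, map_neg, map_ofNat]

section

variable {K : Type*} [Field K] [Fintype K] [DecidableEq K] {r : ℕ} {l : K → ZMod r}
  [hr : Fact r.Prime] (hr7 : 7 < r) (hl : IsLog l) (hK : (Fintype.card K : ZMod r) = 1)
  (h42 : bs l 4 2 = -6 * bs l 2 1 ^ 2)

include hr7 hl hK h42

/-- the sixth moment of the differences -/
theorem gen_six (a b c d e : ZMod r) :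
    ∑ P ∈ pts K, ∑ Q ∈ pts K, (ex l a b c d e P - ex l a b c d e Q) ^ 6 =
      5 * (bs l 2 1 ^ 2 * kD a b c d e) := by
  have h := good hr7 hl hK h42 a b c d e
  have m0 : ∑ P ∈ pts K, ex l a b c d e P ^ 0 = 2 := by
    rw [← al_zero hl hK, al]
    exact sum_congr rfl fun P _ => by rw [pow_zero, pow_zero, pow_zero, mul_one]
  have m1 : ∑ P ∈ pts K, ex l a b c d e P ^ 1 = 0 := h.one
  have m2 : ∑ P ∈ pts K, ex l a b c d e P ^ 2 = 0 := h.two
  have m3 : ∑ P ∈ pts K, ex l a b c d e P ^ 3 = bs l 2 1 * sS 3 a b c d e := h.three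
  have m6 : 4 * ∑ P ∈ pts K, ex l a b c d e P ^ 6 = 15 * (bs l 2 1 ^ 2 * sG a b c d e) := h.six
  rw [six, m0, m1, m2, m3, kD]
  linear_combination m6

theorem gen_ne (hb : bs l 2 1 ≠ 0) {a b c d e : ZMod r} (hD : kD a b c d e ≠ 0) :
    ∑ P ∈ pts K, ∑ Q ∈ pts K, (ex l a b c d e P - ex l a b c d e Q) ^ 6 ≠ 0 := by
  rw [gen_six hr7 hl hK h42]
  have h7 : ((5 : ℕ) : ZMod r) ≠ 0 := natCast_ne fun q _ hq' => by
    have := Nat.le_of_dvd (by omega) hq'
    omega
  have h8 : (5 : ZMod r) ≠ 0 := by exact_mod_cast h7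
  exact mul_ne_zero h8 (mul_ne_zero (pow_ne_zero 2 hb) hD)

end

section

variable {K L : Type} [Field K] [Fintype K] [Field L] [CharZero L] [IsAlgClosed L]
  {r : ℕ} [hr : Fact r.Prime]

theorem kummer_gen (hr7 : 7 < r) {n c k : ℕ} (hk : 0 < k) (hn : n = c * r ^ k) (hn0 : n ≠ 0)
    {τ : MulChar K L} (hτ : orderOf τ = Fintype.card K - 1)
    (hd : r ^ k ∣ Fintype.card K - 1) (v : Fin 5 → ℤ)
    (hD : ((kD (v 0) (v 1) (v 2) (v 3) (v 4) : ℤ) : ZMod r) ≠ 0) {a : Fin 5 → ZMod n}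
    (ha : ∀ i, a i = ((c * v i : ℤ) : ZMod n))
    {l : K → ZMod r} (hl : ∀ x y, x ≠ 0 → y ≠ 0 → l (x * y) = l x + l y)
    (hB : ∑ x, l x ^ 2 * l (1 - x) ≠ 0) :
    quad (ch τ (a 0)) (ch τ (a 1)) (ch τ (a 2)) (ch τ (a 3)) (ch τ (a 4)) *
      quad (ch τ (a 0))⁻¹ (ch τ (a 1))⁻¹ (ch τ (a 2))⁻¹ (ch τ (a 3))⁻¹ (ch τ (a 4))⁻¹ ≠
        4 * (Fintype.card K : L) ^ 2 := by
  classical
  have : NeZero n := ⟨hn0⟩
  have hr2 : r ≠ 2 := by omega
  have hro : Odd (r ^ k) := (hr.out.odd_of_ne_two hr2).pow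
  have : NeZero (r ^ k) := ⟨pow_ne_zero k hr.out.ne_zero⟩
  -- the exponents are allowed
  have hok : ∀ w : ℤ, ((Fintype.card K - 1 : ℕ) : ZMod n) * ((c * w : ℤ) : ZMod n) = 0 := by
    intro w
    have h1 : ((c * r ^ k : ℕ) : ZMod n) = 0 := by
      rw [← hn]
      exact ZMod.natCast_self n
    obtain ⟨m, hm⟩ := hd
    rw [hm]
    push_cast at h1 ⊢
    linear_combination ((m : ZMod n) * w) * h1
  -- reduction to the modulus `r ^ k`
  have hch : ∀ w : ℤ, ch τ ((c * w : ℤ) : ZMod n) = ch τ ((w : ℤ) : ZMod (r ^ k)) := by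
    intro w
    have hc0 : 0 < c := by
      rcases c.eq_zero_or_pos with h0 | h0
      · rw [h0, zero_mul] at hn
        exact absurd hn hn0
      · exact h0
    rw [ch, ch]
    congr 1
    have h3 := val_smul hn hn0 w
    rw [h3]
    conv_lhs => rw [hn]
    rw [mul_left_comm]
    exact Nat.mul_div_mul_left _ _ hc0
  set V : Fin 5 → ZMod (r ^ k) := fun i => ((v i : ℤ) : ZMod (r ^ k)) with hV
  have hdir : ∀ i, ch τ (a i) = ch τ (V i) := by
    intro i
    rw [ha i, hch]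
  have hinv : ∀ i, (ch τ (a i))⁻¹ = ch τ ((-V) i) := by
    intro i
    have h3 := hch (-v i)
    rw [← ch_neg hτ (by rw [ha i]; exact hok (v i)), ha i]
    push_cast at h3 ⊢
    rw [← mul_neg, h3]
    rfl
  rw [hdir 0, hdir 1, hdir 2, hdir 3, hdir 4, ← hdir 0, ← hdir 1, ← hdir 2, ← hdir 3, ← hdir 4,
    hinv 0, hinv 1, hinv 2, hinv 3, hinv 4, hdir 0, hdir 1, hdir 2, hdir 3, hdir 4]
  -- the logarithms
  obtain ⟨z, e, hz, hadd, he, x₀, hx₀, hred⟩ := exists_log hk hτ hd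
  have hL := lg_isLog hk hadd
  have hK : (Fintype.card K : ZMod r) = 1 := by
    have h3 : ((Fintype.card K - 1 : ℕ) : ZMod r) = 0 :=
      (ZMod.natCast_eq_zero_iff _ _).2 ((dvd_pow_self r hk.ne').trans hd)
    rw [Nat.cast_sub Fintype.card_pos, Nat.cast_one] at h3
    linear_combination h3
  have h42 := bs42 hr7 hL hK (jacobi_six hr7 hk hτ hd hz hadd he)
  have hb : bs (lg hk e) 2 1 ≠ 0 := by
    obtain ⟨κ, hκ⟩ := proportional (l := lg hk e) (l' := l) hL.mul hl hx₀ (by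
      rwa [lg_of_ne hk e hx₀])
    intro h0
    apply hB
    have h1' : l 1 = 0 := by
      have h := hl 1 1 one_ne_zero one_ne_zero
      rw [mul_one] at h
      linear_combination -h
    have h3 : ∑ x, l x ^ 2 * l (1 - x) = κ ^ 3 * bs (lg hk e) 2 1 := by
      rw [bs, mul_sum]
      refine sum_congr rfl fun x _ => ?_
      by_cases hx : x = 0
      · rw [hx, sub_zero, h1', hL.zero]
        ring
      by_cases hx1 : x = 1
      · rw [hx1, sub_self, h1', hL.zero]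
        ring
      rw [hκ x hx, hκ _ (sub_ne_zero.2 (Ne.symm hx1))]
      ring
    rw [h3, h0, mul_zero]
  have hD' : kD (red r k hk (V 0)) (red r k hk (V 1)) (red r k hk (V 2)) (red r k hk (V 3))
      (red r k hk (V 4)) ≠ 0 := by
    intro h
    apply hD
    rw [← h]
    simp only [hV, map_intCast]
    exact map_kD (Int.castRingHom (ZMod r)) _ _ _ _ _
  intro heq
  apply gen_ne hr7 hL hK h42 hb hD'
  have hphi : 6 < r ^ k - r ^ (k - 1) := by
    obtain ⟨k', rfl⟩ : ∃ k', k = k' + 1 := ⟨k - 1, by omega⟩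
    rw [Nat.add_sub_cancel, pow_succ]
    have h1 : 1 ≤ r ^ k' := Nat.one_le_pow _ _ hr.out.pos
    have h2 : r ^ k' * 8 ≤ r ^ k' * r := Nat.mul_le_mul_left _ (by omega)
    omega
  have q1 := quad_sum hz.pow_eq_one he V
  have q2 : quad (ch τ ((-V) 0)) (ch τ ((-V) 1)) (ch τ ((-V) 2)) (ch τ ((-V) 3))
      (ch τ ((-V) 4)) = ∑ P ∈ pts K, z ^ (-expo e V P).val := by
    rw [quad_sum hz.pow_eq_one he (-V)]
    refine sum_congr rfl fun P _ => ?_
    congr 2
    simp only [expo, Pi.neg_apply]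
    ring
  have h6 := pair_moment hk hz (pts K) (expo e V) (4 * (Fintype.card K : ℤ) ^ 2)
    (by
      rw [← q1, ← q2, heq]
      push_cast
      ring) (k := 6) (by omega) hphi
  rw [← h6]
  have hval : ∀ P ∈ pts K, red r k hk (expo e V P) =
      ex (lg hk e) (red r k hk (V 0)) (red r k hk (V 1)) (red r k hk (V 2)) (red r k hk (V 3))
        (red r k hk (V 4)) P := by
    intro P hP
    rw [mem_pts] at hP
    obtain ⟨hx0, hx1, hy0, hy1, hxy⟩ := hP
    simp only [expo, ex]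
    rw [lg_of_ne hk e hx0, lg_of_ne hk e (sub_ne_zero.2 hx1.symm), lg_of_ne hk e hy0,
      lg_of_ne hk e (sub_ne_zero.2 hy1.symm), lg_of_ne hk e (sub_ne_zero.2 hxy)]
    simp only [map_add, map_mul]
  refine sum_congr rfl fun P hP => sum_congr rfl fun Q hQ => ?_
  rw [hval P hP, hval Q hQ]

end

end Pool.Agent.Helper79.KM
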