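import Pool.Agent.Helper79.KM.Moment

/-!
# The absolute value of a sum of roots of unity of prime power order
-/

open Polynomial Finset

namespace Pool.Agent.Helper79.KM

section

variable {L : Type*} [Field L] [CharZero L] {r j : ℕ} [hr : Fact r.Prime]

/-- the relation for a sum which is an integer -/
theorem moment_const (hj : 0 < j) {z : L} (hz : IsPrimitiveRoot z (r ^ j)) {ι : Type*}
    (s : Finset ι) (c : ι → ℤ) (m : ι → ℕ) (C : ℤ) (h : ∑ i ∈ s, (c i : L) * z ^ m i = C) {k : ℕ}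
    (hk0 : 0 < k) (hk : k < r ^ j - r ^ (j - 1)) :
    ∑ i ∈ s, (c i : ZMod r) * (m i : ZMod r) ^ k = 0 := by
  have h1 := moment hj hz (insertNone s) (fun o => o.elim (-C) c) (fun o => o.elim 0 m)
    (by
      rw [sum_insertNone]
      simp only [Option.elim_none, Option.elim_some, h]
      push_cast
      ring) hk
  rw [sum_insertNone] at h1
  simp only [Option.elim_none, Option.elim_some, Nat.cast_zero, zero_pow hk0.ne', mul_zero,
    zero_add] at h1
  exact h1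

/-- the exponents modulo `r` -/
def red (r j : ℕ) (hj : 0 < j) : ZMod (r ^ j) →+* ZMod r :=
  ZMod.castHom (dvd_pow_self r hj.ne') (ZMod r)

theorem red_val (hj : 0 < j) (a : ZMod (r ^ j)) : ((a.val : ℕ) : ZMod r) = red r j hj a := by
  have : NeZero (r ^ j) := ⟨pow_ne_zero j hr.out.ne_zero⟩
  conv_rhs => rw [← ZMod.natCast_zmod_val a]
  rw [map_natCast]

omit [CharZero L] in
theorem pow_val_add {z : L} (hz : z ^ (r ^ j) = 1) (a b : ZMod (r ^ j)) :
    z ^ (a + b).val = z ^ a.val * z ^ b.val := by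
  have : NeZero (r ^ j) := ⟨pow_ne_zero j hr.out.ne_zero⟩
  rw [← pow_add, ZMod.val_add, ← pow_mod_orderOf, ← pow_mod_orderOf z (a.val + b.val)]
  congr 1
  exact Nat.mod_mod_of_dvd _ (orderOf_dvd_of_pow_eq_one hz)

theorem pair_moment (hj : 0 < j) {z : L} (hz : IsPrimitiveRoot z (r ^ j)) {ι : Type*}
    (s : Finset ι) (e : ι → ZMod (r ^ j)) (C : ℤ)
    (h : (∑ i ∈ s, z ^ (e i).val) * (∑ i ∈ s, z ^ (-e i).val) = C) {k : ℕ}
    (hk0 : 0 < k) (hk : k < r ^ j - r ^ (j - 1)) :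
    ∑ i ∈ s, ∑ i' ∈ s, (red r j hj (e i) - red r j hj (e i')) ^ k = 0 := by
  have h1 := moment_const hj hz (s ×ˢ s) (fun _ => 1) (fun x => (e x.1 + -e x.2).val) C
    (by
      rw [← h, sum_mul_sum, sum_product]
      refine sum_congr rfl fun i _ => sum_congr rfl fun i' _ => ?_
      rw [Int.cast_one, one_mul, pow_val_add hz.pow_eq_one]) hk0 hk
  rw [sum_product] at h1
  rw [← h1]
  refine sum_congr rfl fun i _ => sum_congr rfl fun i' _ => ?_
  rw [Int.cast_one, one_mul, red_val hj, map_add, map_neg, sub_eq_add_neg]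

end

/-- the sixth moment of the differences -/
theorem six {R : Type*} [CommRing R] {ι : Type*} (s : Finset ι) (f : ι → R) :
    ∑ i ∈ s, ∑ i' ∈ s, (f i - f i') ^ 6 =
      2 * (∑ i ∈ s, f i ^ 0) * (∑ i ∈ s, f i ^ 6) - 12 * (∑ i ∈ s, f i ^ 1) * (∑ i ∈ s, f i ^ 5) +
        30 * (∑ i ∈ s, f i ^ 2) * (∑ i ∈ s, f i ^ 4) - 20 * (∑ i ∈ s, f i ^ 3) ^ 2 := by
  have key : ∀ a b : ℕ, ∑ i ∈ s, ∑ i' ∈ s, f i ^ a * f i' ^ b =
      (∑ i ∈ s, f i ^ a) * (∑ i ∈ s, f i ^ b) := fun a b => (sum_mul_sum _ _ _ _).symm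
  have key' : ∀ (c : R) (a b : ℕ), ∑ i ∈ s, ∑ i' ∈ s, c * (f i ^ a * f i' ^ b) =
      c * ((∑ i ∈ s, f i ^ a) * (∑ i ∈ s, f i ^ b)) := by
    intro c a b
    rw [← key, mul_sum]
    exact sum_congr rfl fun i _ => (mul_sum _ _ _).symm
  have h : ∀ i i', (f i - f i') ^ 6 = f i ^ 6 * f i' ^ 0 - 6 * (f i ^ 5 * f i' ^ 1) +
      15 * (f i ^ 4 * f i' ^ 2) - 20 * (f i ^ 3 * f i' ^ 3) + 15 * (f i ^ 2 * f i' ^ 4) -
        6 * (f i ^ 1 * f i' ^ 5) + f i ^ 0 * f i' ^ 6 := by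
    intro i i'
    ring
  simp only [h, sum_add_distrib, sum_sub_distrib, key', key]
  ring

end Pool.Agent.Helper79.KM
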