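import Pool.Agent.Helper79.KM.Eight

/-!
# The plane vectors modulo a prime greater than nine
-/

open Finset

namespace Pool.Agent.Helper79.KM

open Pool.Agent.Helper73.LF Pool.Agent.Helper73.QC

/-- the product of two conjugate sums for the exponents in a plane modulo a prime `r > 9` -/
theorem eight_ne {K L : Type} [Field K] [Fintype K] [Field L] [CharZero L] [IsAlgClosed L]
    {r : ℕ} [hr : Fact r.Prime] (hr9 : 9 < r) {τ : MulChar K L}
    (hτ : orderOf τ = Fintype.card K - 1) (hd : r ∣ Fintype.card K - 1)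
    {a : Fin 5 → ZMod r} {s t : ZMod r} (hs : s ≠ 0) (ht : t ≠ 0)
    (hP : Permuted (planeVec s t) a) {l : K → ZMod r}
    (hl : ∀ x y, x ≠ 0 → y ≠ 0 → l (x * y) = l x + l y)
    (hB : ∑ x, l x ^ 2 * l (1 - x) ≠ 0) (hC : ∑ x, l x ^ 4 * l (1 - x) ≠ 0) :
    quad (ch τ (a 0)) (ch τ (a 1)) (ch τ (a 2)) (ch τ (a 3)) (ch τ (a 4)) *
      quad (ch τ (a 0))⁻¹ (ch τ (a 1))⁻¹ (ch τ (a 2))⁻¹ (ch τ (a 3))⁻¹ (ch τ (a 4))⁻¹ ≠
        4 * (Fintype.card K : L) ^ 2 := by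
  have : NeZero r := ⟨hr.out.ne_zero⟩
  have h1 : (((s.val : ℤ) : ℤ) : ZMod r) = s := by simp
  have h2 : (((t.val : ℤ) : ℤ) : ZMod r) = t := by simp
  refine kummer_plane (r := r) (n := r) (c := 1) (k := 1) hr9 one_pos (by rw [pow_one, one_mul])
    hr.out.ne_zero hτ (by rw [pow_one]; exact hd) (s.val : ℤ) (t.val : ℤ) ?_ ?_ ?_ hl hB hC
  · rwa [h1]
  · rwa [h2]
  · rw [Nat.cast_one, one_mul, one_mul, h1, h2]
    exact hP

end Pool.Agent.Helper79.KM
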