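import Pool.Agent.Helper79.KM.Gen7

/-!
# The criterion with the sum of `ind x ^ 2 * ind (1 - x)` for all primes greater than five
-/

open Finset

namespace Pool.Agent.Helper79.KM

open Pool.Agent.Helper73.LF Pool.Agent.Helper73.QC

theorem sS6_seven {v : Fin 5 → ℤ} (h : ∀ i, ((residues v i : ℤ) : ZMod 7) ≠ 0) :
    sS 6 ((v 0 : ℤ) : ZMod 7) ((v 1 : ℤ) : ZMod 7) ((v 2 : ℤ) : ZMod 7) ((v 3 : ℤ) : ZMod 7)
      ((v 4 : ℤ) : ZMod 7) = 10 := by
  have h7 : Fact (Nat.Prime 7) := ⟨by norm_num⟩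
  have key : ∀ x : ZMod 7, x ≠ 0 → x ^ 6 = 1 := fun x hx => ZMod.pow_card_sub_one_eq_one hx
  have h0 := key _ (h 0)
  have h1 := key _ (h 1)
  have h2 := key _ (h 2)
  have h3 := key _ (h 3)
  have h4 := key _ (h 4)
  have h5 := key _ (h 5)
  have h6 := key _ (h 6)
  have h7 := key _ (h 7)
  have h8 := key _ (h 8)
  have h9 := key _ (h 9)
  simp [residues] at h0 h1 h2 h3 h4 h5 h6 h7 h8 h9
  rw [sS]
  linear_combination h0 + h1 + h2 + h3 + h4 + h5 + h6 + h7 + h8 + h9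

section

variable {K L : Type} [Field K] [Fintype K] [Field L] [CharZero L] [IsAlgClosed L]
  {r : ℕ} [hr : Fact r.Prime]

theorem kummer_seven (hr5 : 5 < r) {n c k : ℕ} (hk : 0 < k) (hn : n = c * r ^ k) (hn0 : n ≠ 0)
    {τ : MulChar K L} (hτ : orderOf τ = Fintype.card K - 1)
    (hd : r ^ k ∣ Fintype.card K - 1) (v : Fin 5 → ℤ)
    (hD : ((kD (v 0) (v 1) (v 2) (v 3) (v 4) : ℤ) : ZMod r) ≠ 0) {a : Fin 5 → ZMod n}
    (ha : ∀ i, a i = ((c * v i : ℤ) : ZMod n)) (hdeg : ∀ i, residues a i ≠ 0)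
    {l : K → ZMod r} (hl : ∀ x y, x ≠ 0 → y ≠ 0 → l (x * y) = l x + l y)
    (hB : ∑ x, l x ^ 2 * l (1 - x) ≠ 0) :
    quad (ch τ (a 0)) (ch τ (a 1)) (ch τ (a 2)) (ch τ (a 3)) (ch τ (a 4)) *
      quad (ch τ (a 0))⁻¹ (ch τ (a 1))⁻¹ (ch τ (a 2))⁻¹ (ch τ (a 3))⁻¹ (ch τ (a 4))⁻¹ ≠
        4 * (Fintype.card K : L) ^ 2 := by
  classical
  have : NeZero n := ⟨hn0⟩
  have : NeZero (r ^ k) := ⟨pow_ne_zero k hr.out.ne_zero⟩
  -- the exponents are allowed
  have hok : ∀ w : ℤ, ((Fintype.card K - 1 : ℕ) : ZMod n) * ((c * w : ℤ) : ZMod n) = 0 := by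
    intro w
    have h1 : ((c * r ^ k : ℕ) : ZMod n) = 0 := by
      rw [← hn]
      exact ZMod.natCast_self n
    obtain ⟨m, hm⟩ := hd
    rw [hm]
    push_cast at h1 ⊢
    linear_combination ((m : ZMod n) * w) * h1
  -- reduction to the modulus `r ^ k`
  have hch : ∀ w : ℤ, ch τ ((c * w : ℤ) : ZMod n) = ch τ ((w : ℤ) : ZMod (r ^ k)) := by
    intro w
    have hc0 : 0 < c := by
      rcases c.eq_zero_or_pos with h0 | h0
      · rw [h0, zero_mul] at hn
        exact absurd hn hn0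
      · exact h0
    rw [ch, ch]
    congr 1
    have h3 := val_smul hn hn0 w
    rw [h3]
    conv_lhs => rw [hn]
    rw [mul_left_comm]
    exact Nat.mul_div_mul_left _ _ hc0
  set V : Fin 5 → ZMod (r ^ k) := fun i => ((v i : ℤ) : ZMod (r ^ k)) with hV
  have hdir : ∀ i, ch τ (a i) = ch τ (V i) := by
    intro i
    rw [ha i, hch]
  have hinv : ∀ i, (ch τ (a i))⁻¹ = ch τ ((-V) i) := by
    intro i
    have h3 := hch (-v i)
    rw [← ch_neg hτ (by rw [ha i]; exact hok (v i)), ha i]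
    push_cast at h3 ⊢
    rw [← mul_neg, h3]
    rfl
  rw [hdir 0, hdir 1, hdir 2, hdir 3, hdir 4, ← hdir 0, ← hdir 1, ← hdir 2, ← hdir 3, ← hdir 4,
    hinv 0, hinv 1, hinv 2, hinv 3, hinv 4, hdir 0, hdir 1, hdir 2, hdir 3, hdir 4]
  -- the logarithms
  obtain ⟨z, e, hz, hadd, he, x₀, hx₀, hred⟩ := exists_log hk hτ hd
  have hL := lg_isLog hk hadd
  have hK := card_one (r := r) hk hd
  intro heq
  have q1 := quad_sum hz.pow_eq_one he V
  have q2 : quad (ch τ ((-V) 0)) (ch τ ((-V) 1)) (ch τ ((-V) 2)) (ch τ ((-V) 3))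
      (ch τ ((-V) 4)) = ∑ P ∈ pts K, z ^ (-expo e V P).val := by
    rw [quad_sum hz.pow_eq_one he (-V)]
    refine sum_congr rfl fun P _ => ?_
    congr 2
    simp only [expo, Pi.neg_apply]
    ring
  obtain ⟨h7, hρ, hcases⟩ := two_cases hr5 hk hτ hd hz hadd he ⟨x₀, hx₀, hred⟩ (expo e V)
    (by rw [← q1, ← q2, heq])
  have h42 := bs42' hr5 hL hK h7 hρ
  have hb : bs (lg hk e) 2 1 ≠ 0 := by
    obtain ⟨κ, hκ⟩ := proportional (l := lg hk e) (l' := l) hL.mul hl hx₀ (by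
      rwa [lg_of_ne hk e hx₀])
    intro h0
    apply hB
    have h1' : l 1 = 0 := by
      have h := hl 1 1 one_ne_zero one_ne_zero
      rw [mul_one] at h
      linear_combination -h
    have h3 : ∑ x, l x ^ 2 * l (1 - x) = κ ^ 3 * bs (lg hk e) 2 1 := by
      rw [bs, mul_sum]
      refine sum_congr rfl fun x _ => ?_
      by_cases hx : x = 0
      · rw [hx, sub_zero, h1', hL.zero]
        ring
      by_cases hx1 : x = 1
      · rw [hx1, sub_self, h1', hL.zero]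
        ring
      rw [hκ x hx, hκ _ (sub_ne_zero.2 (Ne.symm hx1))]
      ring
    rw [h3, h0, mul_zero]
  have hVv : ∀ i, red r k hk (V i) = ((v i : ℤ) : ZMod r) := fun i => by
    rw [hV, map_intCast]
  have hD' : kD (red r k hk (V 0)) (red r k hk (V 1)) (red r k hk (V 2)) (red r k hk (V 3))
      (red r k hk (V 4)) ≠ 0 := by
    intro h
    apply hD
    rw [← h]
    simp only [hVv]
    exact map_kD (Int.castRingHom (ZMod r)) _ _ _ _ _
  apply gen_ne' hr5 hL hK h7 h42 hb hD'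
  have hval : ∀ P ∈ pts K, red r k hk (expo e V P) =
      ex (lg hk e) (red r k hk (V 0)) (red r k hk (V 1)) (red r k hk (V 2)) (red r k hk (V 3))
        (red r k hk (V 4)) P := by
    intro P hP
    rw [mem_pts] at hP
    obtain ⟨hx0, hx1, hy0, hy1, hxy⟩ := hP
    simp only [expo, ex]
    rw [lg_of_ne hk e hx0, lg_of_ne hk e (sub_ne_zero.2 hx1.symm), lg_of_ne hk e hy0,
      lg_of_ne hk e (sub_ne_zero.2 hy1.symm), lg_of_ne hk e (sub_ne_zero.2 hxy)]
    simp only [map_add, map_mul]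
  have hsum : ∑ P ∈ pts K, ∑ Q ∈ pts K,
      (red r k hk (expo e V P) - red r k hk (expo e V Q)) ^ 6 = ∑ P ∈ pts K, ∑ Q ∈ pts K,
      (ex (lg hk e) (red r k hk (V 0)) (red r k hk (V 1)) (red r k hk (V 2)) (red r k hk (V 3))
        (red r k hk (V 4)) P - ex (lg hk e) (red r k hk (V 0)) (red r k hk (V 1))
          (red r k hk (V 2)) (red r k hk (V 3)) (red r k hk (V 4)) Q) ^ 6 :=
    sum_congr rfl fun P hP => sum_congr rfl fun Q hQ => by rw [hval P hP, hval Q hQ]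
  rw [← hsum]
  rcases hcases with ⟨hs, h0⟩ | ⟨hr7, hk1, h0⟩
  · rw [h0, hs, zero_mul, mul_zero]
  · rw [h0]
    subst hr7
    subst hk1
    have hres : ∀ i, ((residues v i : ℤ) : ZMod 7) ≠ 0 := by
      intro i h1
      apply hdeg i
      have h2 : residues a i = ((c * residues v i : ℤ) : ZMod n) := by
        fin_cases i <;> simp [residues, ha] <;> ring
      obtain ⟨w, hw⟩ := (ZMod.intCast_zmod_eq_zero_iff_dvd _ _).1 h1
      have h3 : ((c * 7 ^ 1 : ℕ) : ZMod n) = 0 := by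
        rw [← hn]
        exact ZMod.natCast_self n
      rw [h2, hw]
      push_cast at h3 ⊢
      linear_combination (w : ZMod n) * h3
    simp only [hVv]
    rw [sS6_seven hres]
    have h70 : (7 : ZMod 7) = 0 := rfl
    linear_combination (-17 * s6 (lg hk e)) * h70

end

end Pool.Agent.Helper79.KM
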