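import Pool.Agent.Helper79.KM.Lo
import Pool.Agent.Helper79.KM.Plane

/-!
# The number of points with two nonzero logarithms modulo five
-/

open Finset

namespace Pool.Agent.Helper79.KM

/-- the exponent modulo four -/
def rd (k : ℕ) : ℕ := if k = 0 then 0 else (k - 1) % 4 + 1

/-- the sums of products of powers modulo five -/
def Tt (w B C : ZMod 5) (a b : ℕ) : ZMod 5 :=
  match rd a, rd b with
  | 0, 0 => -1
  | 0, 4 => -w
  | 4, 0 => -w
  | 1, 2 => B
  | 2, 1 => B
  | 1, 3 => 2 * w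
  | 3, 1 => 2 * w
  | 1, 4 => C
  | 4, 1 => C
  | 2, 2 => 2 * w
  | 2, 3 => C
  | 3, 2 => C
  | 2, 4 => -B ^ 2
  | 4, 2 => -B ^ 2
  | 3, 3 => B ^ 2
  | 3, 4 => B
  | 4, 3 => B
  | 4, 4 => 2 * w - w ^ 2 + 2 * (B * C)
  | _, _ => 0

theorem list_value : ∀ w B C : ZMod 5,
    (pH.map fun t => (t.1 : ZMod 5) * (Tt w B C t.2.1 t.2.2.1 * Tt w B C t.2.2.2.1 t.2.2.2.2 -
      Tt w B C (t.2.1 + t.2.2.2.1) (t.2.2.1 + t.2.2.2.2))).sum = 2 * w ^ 2 := by
  decide +kernel

section

variable {K : Type*} [Field K] [Fintype K] [DecidableEq K] {l : K → ZMod 5} (hl : IsLog l)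

include hl

theorem al44_of_table {w B C : ZMod 5} (ht : ∀ a b, bz l a b = Tt w B C a b) :
    al l 4 4 = 2 * w ^ 2 := by
  have : Fact (Nat.Prime 5) := ⟨by norm_num⟩
  have h2 : (5 : ℕ) ≠ 2 := by norm_num
  have h0 : al l 4 4 = lo l (fun a b c d e => (a - b - c + d) ^ 4 * e ^ 4) := by
    rw [al, lo]
    refine sum_congr rfl fun P _ => ?_
    simp only [lam, dif]
    congr 2
    ring
  have key : lo l (fun a b c d e => (a - b - c + d) ^ 4 * e ^ 4) =
      lo l pN4 + lo l pN1 + lo l pN0 + lo l pN3 + lo l pN2 -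
      2 * (lo l (fun a b c d e => b ^ 3 * c * d ^ 3 * e) -
        lo l (fun a b c d e => (b - a) ^ 3 * (-c) * (d - c) ^ 3 * (e - a - c))) +
      (lo l (fun a b c d e => a * b * c ^ 3 * d * e ^ 2) -
        lo l (fun a b c d e => (-a) * (b - a) * (-c) ^ 3 * (d - c) * (e - a - c) ^ 2)) -
      (lo l (fun a b c d e => a * b * c * d * e ^ 4) -
        lo l (fun a b c d e => (a - c) * (e - c) * (-c) * (d - c) * (b - c) ^ 4)) -
      (lo l (fun a b c d e => a * b * c * d ^ 4 * e) -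
        lo l (fun a b c d e => c * d * a * b ^ 4 * e)) +
      (lo l (fun a b c d e => a * b * c * d ^ 4 * e) -
        lo l (fun a b c d e => b * a * d * c ^ 4 * e)) -
      (lo l (fun a b c d e => a * b ^ 2 * c * d ^ 3 * e) -
        lo l (fun a b c d e => b * a ^ 2 * d * c ^ 3 * e)) -
      2 * (lo l (fun a b c d e => a * b ^ 2 * c ^ 2 * d ^ 2 * e) -
        lo l (fun a b c d e => b * a ^ 2 * d ^ 2 * c ^ 2 * e)) -
      2 * (lo l (fun a b c d e => a * b ^ 2 * c ^ 3 * d * e) -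
        lo l (fun a b c d e => b * a ^ 2 * d ^ 3 * c * e)) +
      (lo l (fun a b c d e => a * b ^ 3 * c ^ 2 * d * e) -
        lo l (fun a b c d e => c * d ^ 3 * a ^ 2 * b * e)) := by
    simp only [lo, first_id, sum_add_distrib, sum_sub_distrib, ← mul_sum]
  have r0 : lo l (fun a b c d e => b ^ 3 * c * d ^ 3 * e) =
      lo l (fun a b c d e => (b - a) ^ 3 * (-c) * (d - c) ^ 3 * (e - a - c)) :=
    lo_zeroInf h2 hl _
  have r1 : lo l (fun a b c d e => a * b * c ^ 3 * d * e ^ 2) =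
      lo l (fun a b c d e => (-a) * (b - a) * (-c) ^ 3 * (d - c) * (e - a - c) ^ 2) :=
    lo_zeroInf h2 hl _
  have r2 : lo l (fun a b c d e => a * b * c * d * e ^ 4) =
      lo l (fun a b c d e => (a - c) * (e - c) * (-c) * (d - c) * (b - c) ^ 4) :=
    lo_oneY h2 hl _
  have r3 : lo l (fun a b c d e => a * b * c * d ^ 4 * e) =
      lo l (fun a b c d e => c * d * a * b ^ 4 * e) :=
    lo_swap h2 hl _
  have r4 : lo l (fun a b c d e => a * b * c * d ^ 4 * e) =
      lo l (fun a b c d e => b * a * d * c ^ 4 * e) :=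
    lo_zeroOne h2 hl _
  have r5 : lo l (fun a b c d e => a * b ^ 2 * c * d ^ 3 * e) =
      lo l (fun a b c d e => b * a ^ 2 * d * c ^ 3 * e) :=
    lo_zeroOne h2 hl _
  have r6 : lo l (fun a b c d e => a * b ^ 2 * c ^ 2 * d ^ 2 * e) =
      lo l (fun a b c d e => b * a ^ 2 * d ^ 2 * c ^ 2 * e) :=
    lo_zeroOne h2 hl _
  have r7 : lo l (fun a b c d e => a * b ^ 2 * c ^ 3 * d * e) =
      lo l (fun a b c d e => b * a ^ 2 * d ^ 3 * c * e) :=
    lo_zeroOne h2 hl _
  have r8 : lo l (fun a b c d e => a * b ^ 3 * c ^ 2 * d * e) =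
      lo l (fun a b c d e => c * d ^ 3 * a ^ 2 * b * e) :=
    lo_swap h2 hl _
  have s1 : lo l pN1 = lo l (fun a b c d e => pN1 (a - c) (e - c) (-c) (d - c) (b - c)) :=
    lo_oneY h2 hl _
  have s0 : lo l pN0 = lo l (fun a b c d e => pN0 (e - c) (a - c) (d - c) (-c) (b - c)) := by
    rw [lo_zeroOne h2 hl, lo_oneY h2 hl]
  have s3 : lo l pN3 = lo l (fun a b c d e => pN3 (-c) (d - c) (a - c) (e - c) (b - c)) := by
    rw [lo_swap h2 hl, lo_oneY h2 hl]
  have s2 : lo l pN2 = lo l (fun a b c d e => pN2 (d - c) (-c) (e - c) (a - c) (b - c)) := by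
    rw [lo_swap h2 hl, lo_zeroOne h2 hl, lo_oneY h2 hl]
  have e2 : lo l pN4 + lo l (fun a b c d e => pN1 (a - c) (e - c) (-c) (d - c) (b - c)) +
      lo l (fun a b c d e => pN0 (e - c) (a - c) (d - c) (-c) (b - c)) +
      lo l (fun a b c d e => pN3 (-c) (d - c) (a - c) (e - c) (b - c)) +
      lo l (fun a b c d e => pN2 (d - c) (-c) (e - c) (a - c) (b - c)) =
        lo l (fun a b c d _ => ev pH a b c d) := by
    simp only [lo, ← sum_add_distrib]
    exact sum_congr rfl fun P _ => second_id _ _ _ _ _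
  have hlist : lo l (fun a b c d _ => ev pH a b c d) = 2 * w ^ 2 := by
    rw [lo_ev]
    simp only [ht]
    exact list_value w B C
  rw [h0, key]
  linear_combination s1 + s0 + s3 + s2 + e2 + hlist - 2 * r0 + r1 - r2 - r3 + r4 - r5 -
    2 * r6 - 2 * r7 + r8

omit [Field K] [Fintype K] [DecidableEq K] hl in
theorem pow_rd (z : ZMod 5) (k : ℕ) : z ^ k = z ^ rd k := by
  have : Fact (Nat.Prime 5) := ⟨by norm_num⟩
  unfold rd
  split_ifs with h
  · rw [h]
  · obtain ⟨m, rfl⟩ : ∃ m, k = m + 1 := ⟨k - 1, by omega⟩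
    have h1 : m + 1 - 1 = m := rfl
    rw [h1]
    conv_lhs => rw [← Nat.div_add_mod m 4]
    induction m / 4 with
    | zero => simp
    | succ n ih =>
      have h2 : 4 * (n + 1) + m % 4 + 1 = 4 * n + m % 4 + 5 := by ring
      have h3 : z ^ 5 = z := ZMod.pow_card z
      rw [h2, pow_add, h3, ← pow_succ, ih]

omit hl in
theorem bz_rd (a b : ℕ) : bz l a b = bz l (rd a) (rd b) := by
  rw [bz, bz]
  exact sum_congr rfl fun x _ => by rw [pow_rd (l x) a, pow_rd (l (1 - x)) b]

theorem bz_pos {a b : ℕ} (ha : a ≠ 0) (hb : b ≠ 0) : bz l a b = bs l a b := by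
  rw [bz, bs]
  refine sum_subset (subset_univ _) fun x _ hx => ?_
  simp only [mem_erase, mem_univ, and_true, not_and_or, not_not] at hx
  rcases hx with rfl | rfl
  · rw [sub_self, hl.zero, zero_pow hb, mul_zero]
  · rw [hl.zero, zero_pow ha, zero_mul]

theorem bz_left {a : ℕ} (ha : a ≠ 0) : bz l a 0 = ∑ x, l x ^ a := by
  rw [bz]
  simp only [pow_zero, mul_one]
  refine sum_subset (subset_univ _) fun x _ hx => ?_
  simp only [mem_erase, mem_univ, and_true, not_and_or, not_not] at hx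
  rcases hx with rfl | rfl
  · rw [hl.one, zero_pow ha]
  · rw [hl.zero, zero_pow ha]

theorem bz_right {a : ℕ} (ha : a ≠ 0) : bz l 0 a = ∑ x, l x ^ a := by
  rw [← sum_one_sub (fun x => l x ^ a), bz]
  simp only [pow_zero, one_mul]
  refine sum_subset (subset_univ _) fun x _ hx => ?_
  simp only [mem_erase, mem_univ, and_true, not_and_or, not_not] at hx
  rcases hx with rfl | rfl
  · rw [sub_self, hl.zero, zero_pow ha]
  · rw [sub_zero, hl.one, zero_pow ha]

omit hl in
theorem bz_zero {w : ℕ} (hw : Fintype.card K = 5 * w + 1) : bz l 0 0 = -1 := by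
  rw [bz]
  simp only [pow_zero, mul_one, sum_const, nsmul_eq_mul]
  have h1 : ((univ.erase (0 : K)).erase 1).card + 2 = 5 * w + 1 := by
    rw [card_erase_of_mem (by simp), card_erase_of_mem (mem_univ _), card_univ, hw]
    have h2 := Fintype.one_lt_card (α := K)
    omega
  have h3 : ((((univ.erase (0 : K)).erase 1).card + 2 : ℕ) : ZMod 5) = ((5 * w + 1 : ℕ) : ZMod 5) := by
    rw [h1]
  have h5 : (5 : ZMod 5) = 0 := rfl
  push_cast at h3
  linear_combination h3 + (w : ZMod 5) * h5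

theorem al44 {w : ℕ} (hw : Fintype.card K = 5 * w + 1)
    (h42 : bs l 4 2 = -bs l 2 1 ^ 2) (h33 : bs l 3 3 = bs l 2 1 ^ 2) (h32 : bs l 3 2 = bs l 4 1)
    (h43 : bs l 4 3 = bs l 2 1) (h31 : bs l 3 1 = 2 * (w : ZMod 5))
    (h22 : bs l 2 2 = 2 * (w : ZMod 5)) (h11 : bs l 1 1 = 0)
    (h4 : ∑ x, l x ^ 4 = -(w : ZMod 5))
    (h44 : bs l 4 4 = 2 * (w : ZMod 5) - (w : ZMod 5) ^ 2 + 2 * bs l 2 1 * bs l 4 1) :
    al l 4 4 = 2 * (w : ZMod 5) ^ 2 := by
  have : Fact (Nat.Prime 5) := ⟨by norm_num⟩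
  refine al44_of_table hl (B := bs l 2 1) (C := bs l 4 1) fun a b => ?_
  rw [bz_rd]
  have s1 : ∑ x, l x ^ 1 = 0 := sum_pow_log hl 1 (by norm_num) (by norm_num)
  have s2 : ∑ x, l x ^ 2 = 0 := sum_pow_log hl 2 (by norm_num) (by norm_num)
  have s3 : ∑ x, l x ^ 3 = 0 := sum_pow_log hl 3 (by norm_num) (by norm_num)
  have key : ∀ i j, i < 5 → j < 5 → bz l i j = Tt (w : ZMod 5) (bs l 2 1) (bs l 4 1) i j := by
    intro i j hi hj
    interval_cases i <;> interval_cases j
    · exact bz_zero hw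
    · exact (bz_right hl one_ne_zero).trans s1
    · exact (bz_right hl two_ne_zero).trans s2
    · exact (bz_right hl three_ne_zero).trans s3
    · exact (bz_right hl four_ne_zero).trans h4
    · exact (bz_left hl one_ne_zero).trans s1
    · exact (bz_pos hl one_ne_zero one_ne_zero).trans h11
    · exact (bz_pos hl one_ne_zero two_ne_zero).trans (bs_comm _ _)
    · exact (bz_pos hl one_ne_zero three_ne_zero).trans ((bs_comm _ _).trans h31)
    · exact (bz_pos hl one_ne_zero four_ne_zero).trans (bs_comm _ _)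
    · exact (bz_left hl two_ne_zero).trans s2
    · exact bz_pos hl two_ne_zero one_ne_zero
    · exact (bz_pos hl two_ne_zero two_ne_zero).trans h22
    · exact (bz_pos hl two_ne_zero three_ne_zero).trans ((bs_comm _ _).trans h32)
    · exact (bz_pos hl two_ne_zero four_ne_zero).trans ((bs_comm _ _).trans h42)
    · exact (bz_left hl three_ne_zero).trans s3
    · exact (bz_pos hl three_ne_zero one_ne_zero).trans h31
    · exact (bz_pos hl three_ne_zero two_ne_zero).trans h32
    · exact (bz_pos hl three_ne_zero three_ne_zero).trans h33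
    · exact (bz_pos hl three_ne_zero four_ne_zero).trans ((bs_comm _ _).trans h43)
    · exact (bz_left hl four_ne_zero).trans h4
    · exact bz_pos hl four_ne_zero one_ne_zero
    · exact (bz_pos hl four_ne_zero two_ne_zero).trans h42
    · exact (bz_pos hl four_ne_zero three_ne_zero).trans h43
    · refine (bz_pos hl four_ne_zero four_ne_zero).trans (h44.trans ?_)
      rw [mul_assoc]
      rfl
  have hrd : ∀ k, rd k < 5 := by
    intro k
    unfold rd
    split_ifs <;> omega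
  rw [key _ _ (hrd a) (hrd b)]
  have hrr : ∀ k, rd (rd k) = rd k := by
    intro k
    unfold rd
    split_ifs <;> omega
  simp only [Tt, hrr]

end

end Pool.Agent.Helper79.KM
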