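import Pool.Agent.Helper79.KM.Base

/-!
# The alternating sum over the coordinates put equal to zero
-/

namespace Pool.Agent.Helper79.KM

section

variable {R : Type*} [CommRing R]

/-- the part of a polynomial containing all variables -/
def alt (F : R → R → R → R → R → R) (a b c d e : R) : R :=
  (F a b c d e) -
  (F 0 b c d e + F a 0 c d e + F a b 0 d e + F a b c 0 e + F a b c d 0) +
  (F 0 0 c d e + F 0 b 0 d e + F 0 b c 0 e + F 0 b c d 0 + F a 0 0 d e + F a 0 c 0 e +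
    F a 0 c d 0 + F a b 0 0 e + F a b 0 d 0 + F a b c 0 0) -
  (F 0 0 0 d e + F 0 0 c 0 e + F 0 0 c d 0 + F 0 b 0 0 e + F 0 b 0 d 0 + F 0 b c 0 0 +
    F a 0 0 0 e + F a 0 0 d 0 + F a 0 c 0 0 + F a b 0 0 0) +
  (F 0 0 0 0 e + F 0 0 0 d 0 + F 0 0 c 0 0 + F 0 b 0 0 0 + F a 0 0 0 0) -
  (F 0 0 0 0 0)

theorem alt_of_zero {F : R → R → R → R → R → R} (h0 : ∀ b c d e, F 0 b c d e = 0)
    (h1 : ∀ a c d e, F a 0 c d e = 0) (h2 : ∀ a b d e, F a b 0 d e = 0)
    (h3 : ∀ a b c e, F a b c 0 e = 0) (h4 : ∀ a b c d, F a b c d 0 = 0) (a b c d e : R) :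
    alt F a b c d e = F a b c d e := by
  simp only [alt, h0, h1, h2, h3, h4]
  ring

theorem alt_sG (a b c d e : R) :
    alt (fun a b c d e => sG a b c d e) a b c d e =
      816 * (a * b * c * d * e * (a + b + c + d + e)) := by
  simp only [alt, sG, sS, sV]
  ring

theorem alt_sS3 (a b c d e : R) : alt (fun a b c d e => sS 3 a b c d e) a b c d e = 0 := by
  simp only [alt, sS]
  ring

end

end Pool.Agent.Helper79.KM
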