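import Mathlib

/-!
# The polynomials in the residues
-/

namespace Pool.Agent.Helper79.KM

section

variable {R : Type*} [CommRing R]

/-- the sum of the `k`-th powers of the ten residues -/
def sS (k : ℕ) (a b c d e : R) : R :=
  a ^ k + b ^ k + c ^ k + d ^ k + e ^ k + (-(a + b + e)) ^ k + (-(c + d + e)) ^ k +
    (a + c + e) ^ k + (b + d + e) ^ k + (-(a + b + c + d + e)) ^ k

/-- the sum of the cubes of the sums of squares along the five fibrations -/
def sV (a b c d e : R) : R :=
  (a ^ 2 + b ^ 2 + e ^ 2 + (a + b + e) ^ 2) ^ 3 + (c ^ 2 + d ^ 2 + e ^ 2 + (c + d + e) ^ 2) ^ 3 +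
    (a ^ 2 + c ^ 2 + (b + d + e) ^ 2 + (a + b + c + d + e) ^ 2) ^ 3 +
      (b ^ 2 + d ^ 2 + (a + c + e) ^ 2 + (a + b + c + d + e) ^ 2) ^ 3 +
        ((a + b + e) ^ 2 + (c + d + e) ^ 2 + (a + c + e) ^ 2 + (b + d + e) ^ 2) ^ 3

/-- the polynomial giving the sixth moment -/
def sG (a b c d e : R) : R :=
  sS 2 a b c d e ^ 3 - 2 * sS 2 a b c d e * sS 4 a b c d e + 8 * sS 6 a b c d e -
    2 * sV a b c d e

theorem sS3_zero (a b c d : R) : sS 3 a b c d 0 =
    -3 * (a * b * (a + b) + c * d * (c + d) + (a + c) * (b + d) * (a + b + c + d)) := by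
  simp only [sS]
  ring

theorem sG_zero (a b c d : R) : sG a b c d 0 =
    24 * ((a * b * (a + b) + c * d * (c + d)) ^ 2 +
      ((a + c) * (b + d) * (a + b + c + d)) ^ 2) := by
  simp only [sG, sS, sV]
  ring

theorem sS3_swap (a b c d e : R) : sS 3 a b c d e = sS 3 c d a b e := by
  simp only [sS]
  ring

theorem sS3_zeroOne (a b c d e : R) : sS 3 a b c d e = sS 3 b a d c e := by
  simp only [sS]
  ring

theorem sS3_zeroInf (a b c d e : R) :
    sS 3 a b c d e = sS 3 (-(a + b + e)) b (-(c + d + e)) d e := by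
  simp only [sS]
  ring

theorem sS3_oneY (a b c d e : R) : sS 3 a b c d e = sS 3 a e (-(a + b + c + d + e)) d b := by
  simp only [sS]
  ring

theorem sG_swap (a b c d e : R) : sG a b c d e = sG c d a b e := by
  simp only [sG, sS, sV]
  ring

theorem sG_zeroOne (a b c d e : R) : sG a b c d e = sG b a d c e := by
  simp only [sG, sS, sV]
  ring

theorem sG_zeroInf (a b c d e : R) :
    sG a b c d e = sG (-(a + b + e)) b (-(c + d + e)) d e := by
  simp only [sG, sS, sV]
  ring

theorem sG_oneY (a b c d e : R) : sG a b c d e = sG a e (-(a + b + c + d + e)) d b := by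
  simp only [sG, sS, sV]
  ring

end

end Pool.Agent.Helper79.KM
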