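import Pool.Agent.Helper79.KM.Moves
import Pool.Agent.Helper79.KM.Res

/-!
# The moments on the coordinate hyperplane
-/

open Finset

namespace Pool.Agent.Helper79.KM

section

variable {K : Type*} [Field K] [Fintype K] [DecidableEq K] {r : ℕ} {l : K → ZMod r}

theorem pts_eq : pts K = ((univ.erase (0 : K)).erase 1).offDiag := by
  ext P
  rw [mem_pts, mem_offDiag, mem_erase, mem_erase, mem_erase, mem_erase]
  simp only [mem_univ, and_true]
  tauto

theorem pts_split {M : Type*} [AddCommGroup M] (F : K → K → M) :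
    ∑ P ∈ pts K, F P.1 P.2 =
      ∑ x ∈ (univ.erase (0 : K)).erase 1, ∑ y ∈ (univ.erase (0 : K)).erase 1, F x y -
        ∑ x ∈ (univ.erase (0 : K)).erase 1, F x x := by
  set s := (univ.erase (0 : K)).erase 1 with hs
  have h := sum_union (disjoint_diag_offDiag s) (f := fun P : K × K => F P.1 P.2)
  rw [diag_union_offDiag, sum_product, sum_diag] at h
  rw [pts_eq, ← hs, h, add_sub_cancel_left]

theorem sum_add_pow {R ι κ : Type*} [CommRing R] (s : Finset ι) (t : Finset κ) (p : ι → R)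
    (q : κ → R) (k : ℕ) : ∑ x ∈ s, ∑ y ∈ t, (p x + q y) ^ k =
      ∑ i ∈ range (k + 1), (k.choose i : R) * ((∑ x ∈ s, p x ^ i) * ∑ y ∈ t, q y ^ (k - i)) := by
  have h : ∀ x y, (p x + q y) ^ k =
      ∑ i ∈ range (k + 1), (k.choose i : R) * (p x ^ i * q y ^ (k - i)) := by
    intro x y
    rw [add_pow]
    exact sum_congr rfl fun i _ => by ring
  simp only [h]
  rw [← sum_product', sum_comm]
  refine sum_congr rfl fun i _ => ?_
  rw [sum_product, sum_mul_sum, mul_sum]
  exact sum_congr rfl fun x _ => (mul_sum _ _ _).symm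

/-- the moments of one variable -/
def om (l : K → ZMod r) (a b : ZMod r) (k : ℕ) : ZMod r :=
  ∑ x ∈ (univ.erase (0 : K)).erase 1, (a * l x + b * l (1 - x)) ^ k

theorem one_mem' : (1 : K) ∈ univ.erase (0 : K) := by
  rw [mem_erase]
  exact ⟨one_ne_zero, mem_univ _⟩

theorem om_zero (hK : (Fintype.card K : ZMod r) = 1) (a b : ZMod r) : om l a b 0 = -1 := by
  have h1 := add_sum_erase _ (fun _ : K => (1 : ZMod r)) (one_mem' (K := K))
  have h2 := add_sum_erase univ (fun _ : K => (1 : ZMod r)) (mem_univ 0)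
  have h3 : ∑ _x : K, (1 : ZMod r) = 1 := by
    rw [sum_const, card_univ, nsmul_eq_mul, hK, one_mul]
  rw [om]
  simp only [pow_zero]
  rw [← h1, h3] at h2
  linear_combination h2

/-- the moments in terms of the moments of one variable -/
theorem mo_zero_last (a b c d : ZMod r) (k : ℕ) : mo l a b c d 0 k =
    ∑ i ∈ range (k + 1), (k.choose i : ZMod r) * (om l a b i * om l c d (k - i)) -
      om l (a + c) (b + d) k := by
  have h1 : mo l a b c d 0 k = ∑ P ∈ pts K,
      (fun x y => ((a * l x + b * l (1 - x)) + (c * l y + d * l (1 - y))) ^ k) P.1 P.2 := by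
    rw [mo]
    refine sum_congr rfl fun P _ => ?_
    simp only [ex]
    congr 1
    ring
  rw [h1, pts_split (fun x y => ((a * l x + b * l (1 - x)) + (c * l y + d * l (1 - y))) ^ k)]
  congr 1
  · exact sum_add_pow _ _ (fun x => a * l x + b * l (1 - x)) (fun y => c * l y + d * l (1 - y)) k
  · rw [om]
    exact sum_congr rfl fun x _ => by congr 1; ring

variable [hr : Fact r.Prime] (hl : IsLog l)

include hl

theorem om_pos (a b : ZMod r) {k : ℕ} (hk : 0 < k) :
    om l a b k = ∑ x, (a * l x + b * l (1 - x)) ^ k := by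
  have h1 := add_sum_erase _ (fun x : K => (a * l x + b * l (1 - x)) ^ k) (one_mem' (K := K))
  have h2 := add_sum_erase univ (fun x : K => (a * l x + b * l (1 - x)) ^ k) (mem_univ 0)
  rw [om, ← h2, ← h1]
  simp only [sub_zero, sub_self, hl.zero, hl.one, mul_zero, add_zero, zero_pow hk.ne', zero_add]

theorem om_one (hr7 : 7 < r) (a b : ZMod r) : om l a b 1 = 0 := by
  rw [om_pos hl a b one_pos]
  have h1 : ∑ x, (a * l x + b * l (1 - x)) ^ 1 = a * ∑ x, l x ^ 1 + b * ∑ x, l (1 - x) ^ 1 := by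
    simp only [mul_sum, ← sum_add_distrib]
    exact sum_congr rfl fun x _ => by ring
  rw [h1, sum_pow_log hl 1 (by omega) (by omega), sum_pow_log' hl (by omega) (by omega)]
  ring

theorem om_two (hr7 : 7 < r) (a b : ZMod r) : om l a b 2 = 0 := by
  rw [om_pos hl a b two_pos]
  have h1 : ∑ x, (a * l x + b * l (1 - x)) ^ 2 = a ^ 2 * ∑ x, l x ^ 2 +
      b ^ 2 * ∑ x, l (1 - x) ^ 2 + 2 * a * b * bs l 1 1 := by
    simp only [bs, mul_sum, ← sum_add_distrib]
    exact sum_congr rfl fun x _ => by ring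
  rw [h1, sum_pow_log hl 2 (by omega) (by omega), sum_pow_log' hl (by omega) (by omega),
    bs11 (by omega) hl (by omega)]
  ring

theorem om_three (hr7 : 7 < r) (a b : ZMod r) :
    om l a b 3 = 3 * (a * b * (a + b)) * bs l 2 1 := by
  rw [om_pos hl a b (by omega)]
  have h1 : ∑ x, (a * l x + b * l (1 - x)) ^ 3 = a ^ 3 * ∑ x, l x ^ 3 +
      b ^ 3 * ∑ x, l (1 - x) ^ 3 + 3 * a ^ 2 * b * bs l 2 1 + 3 * a * b ^ 2 * bs l 1 2 := by
    simp only [bs, mul_sum, ← sum_add_distrib]
    exact sum_congr rfl fun x _ => by ring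
  rw [h1, sum_pow_log hl 3 (by omega) (by omega), sum_pow_log' hl (by omega) (by omega),
    bs_comm 1 2]
  ring

theorem om_four (hr7 : 7 < r) (a b : ZMod r) : om l a b 4 = 0 := by
  rw [om_pos hl a b (by omega)]
  have h1 : ∑ x, (a * l x + b * l (1 - x)) ^ 4 = a ^ 4 * ∑ x, l x ^ 4 +
      b ^ 4 * ∑ x, l (1 - x) ^ 4 + 4 * a ^ 3 * b * bs l 3 1 + 6 * a ^ 2 * b ^ 2 * bs l 2 2 +
        4 * a * b ^ 3 * bs l 1 3 := by
    simp only [bs, mul_sum, ← sum_add_distrib]
    exact sum_congr rfl fun x _ => by ring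
  rw [h1, sum_pow_log hl 4 (by omega) (by omega), sum_pow_log' hl (by omega) (by omega),
    bs_comm 1 3, bs31 (by omega) hl (by omega), bs22 (by omega) hl (by omega)]
  ring

theorem om_six (hr7 : 7 < r) (h42 : bs l 4 2 = -6 * bs l 2 1 ^ 2) (a b : ZMod r) :
    om l a b 6 = -90 * (a * b * (a + b)) ^ 2 * bs l 2 1 ^ 2 := by
  rw [om_pos hl a b (by omega)]
  have h1 : ∑ x, (a * l x + b * l (1 - x)) ^ 6 = a ^ 6 * ∑ x, l x ^ 6 +
      b ^ 6 * ∑ x, l (1 - x) ^ 6 + 6 * a ^ 5 * b * bs l 5 1 + 15 * a ^ 4 * b ^ 2 * bs l 4 2 +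
        20 * a ^ 3 * b ^ 3 * bs l 3 3 + 15 * a ^ 2 * b ^ 4 * bs l 2 4 +
          6 * a * b ^ 5 * bs l 1 5 := by
    simp only [bs, mul_sum, ← sum_add_distrib]
    exact sum_congr rfl fun x _ => by ring
  have h2 := bs33 (by omega) hl hr7
  rw [h1, sum_pow_log hl 6 (by omega) (by omega), sum_pow_log' hl (by omega) (by omega),
    bs_comm 1 5, bs_comm 2 4, bs51 (by omega) hl hr7]
  rw [h42] at h2 ⊢
  linear_combination 10 * a ^ 3 * b ^ 3 * h2

variable (hK : (Fintype.card K : ZMod r) = 1)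

/-- the values of the moments for the exponents -/
structure Good (l : K → ZMod r) (a b c d e : ZMod r) : Prop where
  one : mo l a b c d e 1 = 0
  two : mo l a b c d e 2 = 0
  three : mo l a b c d e 3 = bs l 2 1 * sS 3 a b c d e
  six : 4 * mo l a b c d e 6 = 15 * (bs l 2 1 ^ 2 * sG a b c d e)

include hK

theorem good_zero (hr7 : 7 < r) (h42 : bs l 4 2 = -6 * bs l 2 1 ^ 2) (a b c d : ZMod r) :
    Good l a b c d 0 := by
  refine ⟨?_, ?_, ?_, ?_⟩
  · rw [mo_zero_last]
    simp only [sum_range_succ, range_zero, sum_empty, om_zero hK, om_one hl hr7]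
    ring
  · rw [mo_zero_last]
    simp only [sum_range_succ, range_zero, sum_empty, om_zero hK, om_one hl hr7, om_two hl hr7]
    ring
  · rw [mo_zero_last, sS3_zero]
    simp only [sum_range_succ, range_zero, sum_empty, Nat.sub_zero, Nat.sub_self,
      show 3 - 1 = 2 from rfl, show 3 - 2 = 1 from rfl, om_zero hK, om_one hl hr7, om_two hl hr7,
      om_three hl hr7, mul_zero, add_zero, zero_add, Nat.choose_self,
      Nat.choose_zero_right, Nat.cast_one]
    ring
  · rw [mo_zero_last, sG_zero]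
    simp only [sum_range_succ, range_zero, sum_empty, Nat.sub_zero, Nat.sub_self,
      show 6 - 1 = 5 from rfl, show 6 - 2 = 4 from rfl, show 6 - 3 = 3 from rfl,
      show 6 - 4 = 2 from rfl, show 6 - 5 = 1 from rfl,
      om_zero hK, om_one hl hr7, om_two hl hr7, om_three hl hr7, om_four hl hr7,
      om_six hl hr7 h42, zero_mul, mul_zero, add_zero, zero_add, Nat.choose_self,
      Nat.choose_zero_right, Nat.cast_one, show (Nat.choose 6 3 : ℕ) = 20 from rfl,
      Nat.cast_ofNat]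
    ring

end

end Pool.Agent.Helper79.KM
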