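import Pool.Agent.Helper79.KM.Final
import Pool.Agent.Helper73.QC.Fun
import Pool.Agent.Helper73.QC.Add

/-!
# Characters of prime power order and logarithms
-/

open Finset

namespace Pool.Agent.Helper79.KM

open Pool.Agent.Helper73.LF Pool.Agent.Helper73.QC

section

variable {K L : Type} [Field K] [Fintype K] [Field L] [CharZero L] [IsAlgClosed L]
  {r j : ℕ} [hr : Fact r.Prime]

omit [Fintype K] [CharZero L] [IsAlgClosed L] hr in
theorem pow_val_mul {N : ℕ} [NeZero N] {z : L} (hz : z ^ N = 1) (a b : ZMod N) :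
    z ^ (a * b).val = (z ^ b.val) ^ a.val := by
  rw [← pow_mul, ZMod.val_mul, mul_comm b.val, ← pow_mod_orderOf, ← pow_mod_orderOf z (_ * _)]
  congr 1
  exact Nat.mod_mod_of_dvd _ (orderOf_dvd_of_pow_eq_one hz)

/-- the logarithm belonging to a character -/
theorem exists_log (hj : 0 < j) {τ : MulChar K L} (hτ : orderOf τ = Fintype.card K - 1)
    (hd : r ^ j ∣ Fintype.card K - 1) : ∃ (z : L) (e : K → ZMod (r ^ j)),
      IsPrimitiveRoot z (r ^ j) ∧ (∀ x y, x ≠ 0 → y ≠ 0 → e (x * y) = e x + e y) ∧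
        (∀ x ≠ 0, ∀ a : ZMod (r ^ j), ch τ a x = z ^ (a * e x).val) ∧
          ∃ x ≠ 0, red r j hj (e x) ≠ 0 := by
  have hN : 0 < r ^ j := pow_pos hr.out.pos j
  have : NeZero (r ^ j) := ⟨hN.ne'⟩
  obtain ⟨z, hz⟩ := HasEnoughRootsOfUnity.exists_primitiveRoot L (r ^ j)
  obtain ⟨m, hm⟩ := hd
  have hm0 : 0 < m := by
    rcases m.eq_zero_or_pos with h | h
    · rw [h, mul_zero] at hm
      have := card_pos' (K := K)
      omega
    · exact h
  have hm' : (Fintype.card K - 1) / r ^ j = m := by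
    rw [hm, Nat.mul_div_cancel_left _ hN]
  set θ : MulChar K L := τ ^ m with hθ
  have hord : θ ^ (r ^ j) = 1 := by
    rw [hθ, ← pow_mul, mul_comm, ← hm, ← hτ, pow_orderOf_eq_one]
  have hval : ∀ x : K, x ≠ 0 → (θ x) ^ (r ^ j) = 1 := by
    intro x hx
    rw [← MulChar.pow_apply' θ hN.ne', hord, MulChar.one_apply (isUnit_iff_ne_zero.2 hx)]
  have hex : ∀ x : K, ∃ e : ZMod (r ^ j), x ≠ 0 → θ x = z ^ e.val := by
    intro x
    by_cases hx : x = 0
    · exact ⟨0, fun h => absurd hx h⟩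
    · obtain ⟨i, hi, h⟩ := hz.eq_pow_of_pow_eq_one (hval x hx)
      refine ⟨(i : ZMod (r ^ j)), fun _ => ?_⟩
      rw [ZMod.val_natCast, Nat.mod_eq_of_lt hi, h]
  choose e he using hex
  have hinj : ∀ a b : ZMod (r ^ j), z ^ a.val = z ^ b.val → a = b := by
    intro a b h
    have := hz.pow_inj (ZMod.val_lt a) (ZMod.val_lt b) h
    exact ZMod.val_injective _ this
  refine ⟨z, e, hz, ?_, ?_, ?_⟩
  · intro x y hx hy
    apply hinj
    rw [← he _ (mul_ne_zero hx hy), map_mul, he x hx, he y hy, pow_val_add hz.pow_eq_one]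
  · intro x hx a
    have h1 : ch τ a = θ ^ a.val := by
      rw [ch, hθ, ← pow_mul, hm, mul_assoc, Nat.mul_div_cancel_left _ hN]
    rw [h1, pow_val_mul hz.pow_eq_one, ← he x hx]
    rcases Nat.eq_zero_or_pos a.val with h0 | h0
    · rw [h0, pow_zero, pow_zero, MulChar.one_apply (isUnit_iff_ne_zero.2 hx)]
    · rw [MulChar.pow_apply' θ h0.ne']
  · by_contra hcon
    push Not at hcon
    have h1 : θ ^ (r ^ (j - 1)) = 1 := by
      apply MulChar.ext
      intro u
      rw [MulChar.pow_apply_coe, MulChar.one_apply_coe, he _ u.ne_zero]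
      have h2 := hcon (u : K) u.ne_zero
      rw [← red_val hj, ZMod.natCast_eq_zero_iff] at h2
      obtain ⟨i, hi⟩ := h2
      rw [hi, ← pow_mul]
      have h3 : r * i * r ^ (j - 1) = r ^ j * i := by
        obtain ⟨j', rfl⟩ : ∃ j', j = j' + 1 := ⟨j - 1, by omega⟩
        rw [Nat.add_sub_cancel, pow_succ]
        ring
      rw [h3, pow_mul, hz.pow_eq_one, one_pow]
    rw [hθ, ← pow_mul, ← orderOf_dvd_iff_pow_eq_one, hτ, hm] at h1
    have h4 := Nat.le_of_dvd (Nat.mul_pos hm0 (pow_pos hr.out.pos _)) h1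
    have h5 : r ^ (j - 1) < r ^ j := Nat.pow_lt_pow_right hr.out.one_lt (by omega)
    rw [mul_comm] at h4
    exact absurd (Nat.le_of_mul_le_mul_left h4 hm0) (by omega)

end

end Pool.Agent.Helper79.KM
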