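import Pool.Agent.Helper79.KM.Log

/-!
# The power sum of exponent `r - 1` of a logarithm modulo `r`
-/

open Finset

namespace Pool.Agent.Helper79.KM

section

variable {K : Type*} [Field K] [Fintype K] {r : ℕ} {l : K → ZMod r} [hr : Fact r.Prime]

omit [Fintype K] in
theorem IsLog.pow (hl : IsLog l) {x : K} (hx : x ≠ 0) (m : ℕ) : l (x ^ m) = m * l x := by
  induction m with
  | zero => rw [pow_zero, hl.one, Nat.cast_zero, zero_mul]
  | succ m ih =>
    rw [pow_succ, hl.mul _ _ (pow_ne_zero m hx) hx, ih]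
    push_cast
    ring

theorem sum_pow_top (hl : IsLog l) (hne : ∃ x, l x ≠ 0) :
    ∃ κ : ℕ, r * κ = Fintype.card K - 1 ∧ ∑ x, l x ^ (r - 1) = -(κ : ZMod r) := by
  classical
  have : NeZero r := ⟨hr.out.ne_zero⟩
  obtain ⟨x₀, hx₀⟩ := hne
  have hx0 : x₀ ≠ 0 := by
    rintro rfl
    exact hx₀ hl.zero
  obtain ⟨g, hg0, hg⟩ : ∃ g : K, g ≠ 0 ∧ l g = 1 := by
    refine ⟨x₀ ^ ((l x₀)⁻¹).val, pow_ne_zero _ hx0, ?_⟩
    rw [hl.pow hx0, ZMod.natCast_zmod_val, inv_mul_cancel₀ hx₀]
  set s : Finset K := univ.erase 0 with hs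
  set κ := (s.filter fun x => l x = 0).card with hκ
  have hstep : ∀ a : ZMod r, (s.filter fun x => l x = a + 1).card =
      (s.filter fun x => l x = a).card := by
    intro a
    refine (card_bij (fun x _ => g * x) ?_ ?_ ?_).symm
    · intro x hx
      rw [mem_filter, hs, mem_erase] at hx ⊢
      refine ⟨⟨mul_ne_zero hg0 hx.1.1, mem_univ _⟩, ?_⟩
      rw [hl.mul _ _ hg0 hx.1.1, hg, hx.2, add_comm]
    · intro x _ y _ h
      exact mul_left_cancel₀ hg0 h
    · intro y hy
      rw [mem_filter, hs, mem_erase] at hy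
      refine ⟨g⁻¹ * y, ?_, by rw [← mul_assoc, mul_inv_cancel₀ hg0, one_mul]⟩
      rw [mem_filter, hs, mem_erase]
      refine ⟨⟨mul_ne_zero (inv_ne_zero hg0) hy.1.1, mem_univ _⟩, ?_⟩
      rw [hl.mul _ _ (inv_ne_zero hg0) hy.1.1, hl.inv, hg, hy.2]
      ring
  have hall : ∀ m : ℕ, (s.filter fun x => l x = (m : ZMod r)).card = κ := by
    intro m
    induction m with
    | zero => rw [Nat.cast_zero]
    | succ m ih =>
      rw [Nat.cast_succ, hstep, ih]
  have hall' : ∀ a : ZMod r, (s.filter fun x => l x = a).card = κ := by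
    intro a
    rw [← ZMod.natCast_zmod_val a]
    exact hall _
  refine ⟨κ, ?_, ?_⟩
  · have h1 : s.card = ∑ a : ZMod r, (s.filter fun x => l x = a).card :=
      card_eq_sum_card_fiberwise fun x _ => mem_univ _
    rw [sum_congr rfl fun a _ => hall' a, sum_const, card_univ, ZMod.card, smul_eq_mul, hs,
      card_erase_of_mem (mem_univ _), card_univ] at h1
    exact h1.symm
  · rw [← add_sum_erase univ (fun x => l x ^ (r - 1)) (mem_univ (0 : K)), hl.zero,
      zero_pow (Nat.sub_ne_zero_of_lt hr.out.one_lt), zero_add, ← hs, ← sum_fiberwise s l]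
    have h2 : ∀ a : ZMod r, ∑ x ∈ s.filter (fun x => l x = a), l x ^ (r - 1) =
        κ - if a = 0 then (κ : ZMod r) else 0 := by
      intro a
      rw [sum_congr rfl (g := fun _ => a ^ (r - 1)) fun i hi => by
        rw [(mem_filter.1 hi).2], sum_const, nsmul_eq_mul, hall' a]
      by_cases ha : a = 0
      · rw [if_pos ha, ha, zero_pow (Nat.sub_ne_zero_of_lt hr.out.one_lt)]
        ring
      · rw [if_neg ha, ZMod.pow_card_sub_one_eq_one ha]
        ring
    rw [sum_congr rfl fun a _ => h2 a, sum_sub_distrib, sum_const, card_univ, ZMod.card,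
      nsmul_eq_mul, CharP.cast_eq_zero, zero_mul, sum_ite_eq', if_pos (mem_univ _), zero_sub]

end

end Pool.Agent.Helper79.KM
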