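import Pool.Agent.Helper79.KM.Al44
import Pool.Agent.Helper79.KM.Fib

/-!
# The numbers of points with given logarithms
-/

open Finset

namespace Pool.Agent.Helper79.KM

section

variable {K : Type*} [Field K] [Fintype K] [DecidableEq K] {r : ℕ} {l : K → ZMod r}

/-- the number of points with given logarithms of the cross ratio and of the difference -/
def nn (l : K → ZMod r) (i j : ZMod r) : ℤ :=
  ((pts K).filter fun P => lam l P = i ∧ dif l P = j).card

theorem sum_nn [NeZero r] {M : Type*} [CommRing M] (G : ZMod r → ZMod r → M) :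
    ∑ P ∈ pts K, G (lam l P) (dif l P) = ∑ i, ∑ j, (nn l i j : M) * G i j := by
  rw [← sum_fiberwise' (pts K) (fun P => (lam l P, dif l P)) (fun y => G y.1 y.2),
    Fintype.sum_prod_type]
  refine sum_congr rfl fun i _ => sum_congr rfl fun j _ => ?_
  rw [sum_const, nsmul_eq_mul, nn, Int.cast_natCast]
  congr 2
  refine congrArg _ (filter_congr fun x _ => ?_)
  rw [Prod.mk.injEq]

omit [Fintype K] [DecidableEq K] in
theorem flip_mem {x y : K} (hx0 : x ≠ 0) (hx1 : x ≠ 1) (hy0 : y ≠ 0) (hy1 : y ≠ 1) (hxy : x ≠ y) :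
    x / (x - y) ≠ 0 ∧ x / (x - y) ≠ 1 ∧ (x - 1) / (x - y) ≠ 0 ∧ (x - 1) / (x - y) ≠ 1 ∧
      x / (x - y) ≠ (x - 1) / (x - y) := by
  have h : x - y ≠ 0 := sub_ne_zero.2 hxy
  refine ⟨div_ne_zero hx0 h, ?_, div_ne_zero (sub_ne_zero.2 hx1) h, ?_, ?_⟩
  · rw [Ne, div_eq_one_iff_eq h]
    intro h1
    exact hy0 (by linear_combination h1)
  · rw [Ne, div_eq_one_iff_eq h]
    intro h1
    exact hy1 (by linear_combination h1)
  · rw [Ne, div_left_inj' h]
    intro h1
    exact one_ne_zero (α := K) (by linear_combination h1)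

theorem sum_flip {M : Type*} [AddCommMonoid M] (F : K × K → M) :
    ∑ P ∈ pts K, F (P.1 / (P.1 - P.2), (P.1 - 1) / (P.1 - P.2)) = ∑ P ∈ pts K, F P := by
  have key : ∀ P ∈ pts K, (P.1 / (P.1 - P.2), (P.1 - 1) / (P.1 - P.2)) ∈ pts K := by
    rintro ⟨x, y⟩ h
    rw [mem_pts] at h ⊢
    obtain ⟨hx0, hx1, hy0, hy1, hxy⟩ := h
    exact flip_mem hx0 hx1 hy0 hy1 hxy
  have inv : ∀ P ∈ pts K, ((P.1 / (P.1 - P.2)) / ((P.1 / (P.1 - P.2)) - (P.1 - 1) / (P.1 - P.2)),
      ((P.1 / (P.1 - P.2)) - 1) / ((P.1 / (P.1 - P.2)) - (P.1 - 1) / (P.1 - P.2))) = P := by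
    rintro ⟨x, y⟩ h
    rw [mem_pts] at h
    obtain ⟨hx0, hx1, hy0, hy1, hxy⟩ := h
    simp only at hx0 hx1 hy0 hy1 hxy ⊢
    have h1 : x - y ≠ 0 := sub_ne_zero.2 hxy
    have h2 : x / (x - y) - (x - 1) / (x - y) = 1 / (x - y) := by
      field_simp
      ring
    rw [h2]
    refine Prod.ext ?_ ?_
    · simp only
      field_simp
    · simp only
      field_simp
      ring
  refine sum_bij' (fun P _ => (P.1 / (P.1 - P.2), (P.1 - 1) / (P.1 - P.2)))
    (fun P _ => (P.1 / (P.1 - P.2), (P.1 - 1) / (P.1 - P.2))) key key inv inv fun P _ => rfl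

variable [hr : Fact r.Prime] (hr2 : r ≠ 2) (hl : IsLog l)

omit [Fintype K] [DecidableEq K] in
include hr2 hl in
theorem lam_swap (P : K × K) : lam l P.swap = -lam l P ∧ dif l P.swap = dif l P := by
  constructor
  · simp only [lam, Prod.fst_swap, Prod.snd_swap]
    ring
  · simp only [dif, Prod.fst_swap, Prod.snd_swap]
    exact hl.sub_comm hr2 _ _

include hr2 hl in
theorem lam_flip {P : K × K} (hP : P ∈ pts K) :
    lam l (P.1 / (P.1 - P.2), (P.1 - 1) / (P.1 - P.2)) = lam l P ∧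
      dif l (P.1 / (P.1 - P.2), (P.1 - 1) / (P.1 - P.2)) = -dif l P := by
  obtain ⟨x, y⟩ := P
  rw [mem_pts] at hP
  obtain ⟨hx0, hx1, hy0, hy1, hxy⟩ := hP
  simp only at hx0 hx1 hy0 hy1 hxy
  have h : x - y ≠ 0 := sub_ne_zero.2 hxy
  simp only [lam, dif]
  have h1 : 1 - (x - 1) / (x - y) = (1 - y) / (x - y) := by
    field_simp
    ring
  have h2 : 1 - x / (x - y) = (0 - y) / (x - y) := by
    field_simp
    ring
  have h3 : x / (x - y) - (x - 1) / (x - y) = (x - y)⁻¹ := by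
    field_simp
    ring
  have h4 : (0 : K) - y ≠ 0 := by
    rw [zero_sub]
    exact neg_ne_zero.2 hy0
  rw [h1, h2, h3, hl.inv, hl.div hx0 h, hl.div (sub_ne_zero.2 hy1.symm) h, hl.div h4 h,
    hl.div (sub_ne_zero.2 hx1) h, hl.sub_comm hr2 0 y, hl.sub_comm hr2 x 1, sub_zero]
  exact ⟨by ring, rfl⟩

include hr2 hl in
theorem nn_neg_left (i j : ZMod r) : nn l (-i) j = nn l i j := by
  rw [nn, nn, card_filter, card_filter, ← swap_pts]
  congr 1
  refine sum_congr rfl fun P _ => ?_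
  obtain ⟨h1, h2⟩ := lam_swap hr2 hl P
  simp only [h1, h2, neg_inj]

include hr2 hl in
theorem nn_neg_right (i j : ZMod r) : nn l i (-j) = nn l i j := by
  rw [nn, nn, card_filter, card_filter, ← sum_flip]
  congr 1
  refine sum_congr rfl fun P hP => ?_
  obtain ⟨h1, h2⟩ := lam_flip hr2 hl hP
  simp only [h1, h2, neg_inj]

/-- the number of elements with a given logarithm -/
theorem fiber_card (hl : IsLog l) (h0 : ∃ x, l x ≠ 0) {w : ℕ}
    (hw : Fintype.card K = r * w + 1) (i : ZMod r) :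
    ((univ.erase (0 : K)).filter fun x => l x = i).card = w := by
  obtain ⟨g, hg⟩ := h0
  have hg0 : g ≠ 0 := by
    rintro rfl
    exact hg hl.zero
  have step : ∀ i : ZMod r, ((univ.erase (0 : K)).filter fun x => l x = i + l g).card =
      ((univ.erase (0 : K)).filter fun x => l x = i).card := by
    intro i
    refine card_bij' (fun x _ => g⁻¹ * x) (fun x _ => g * x) ?_ ?_ ?_ ?_
    · intro x hx
      rw [mem_filter, mem_erase] at hx ⊢
      refine ⟨⟨mul_ne_zero (inv_ne_zero hg0) hx.1.1, mem_univ _⟩, ?_⟩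
      rw [hl.mul _ _ (inv_ne_zero hg0) hx.1.1, hl.inv, hx.2]
      ring
    · intro x hx
      rw [mem_filter, mem_erase] at hx ⊢
      refine ⟨⟨mul_ne_zero hg0 hx.1.1, mem_univ _⟩, ?_⟩
      rw [hl.mul _ _ hg0 hx.1.1, hx.2]
      ring
    · intro x _
      rw [← mul_assoc, mul_inv_cancel₀ hg0, one_mul]
    · intro x _
      rw [← mul_assoc, inv_mul_cancel₀ hg0, one_mul]
  have hall : ∀ n : ℕ, ((univ.erase (0 : K)).filter fun x => l x = (n : ZMod r) * l g).card =
      ((univ.erase (0 : K)).filter fun x => l x = 0).card := by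
    intro n
    induction n with
    | zero => rw [Nat.cast_zero, zero_mul]
    | succ n ih =>
      have h1 : ((n + 1 : ℕ) : ZMod r) * l g = (n : ZMod r) * l g + l g := by
        push_cast
        ring
      rw [h1, step, ih]
  have heq : ∀ i : ZMod r, ((univ.erase (0 : K)).filter fun x => l x = i).card =
      ((univ.erase (0 : K)).filter fun x => l x = 0).card := by
    intro i
    rw [← hall (i * (l g)⁻¹).val, ZMod.natCast_zmod_val, mul_assoc, inv_mul_cancel₀ hg, mul_one]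
  have htot : (univ.erase (0 : K)).card =
      ∑ i : ZMod r, ((univ.erase (0 : K)).filter fun x => l x = i).card :=
    card_eq_sum_card_fiberwise fun x _ => mem_univ (l x)
  rw [sum_congr rfl fun i _ => heq i, sum_const, card_univ, ZMod.card, smul_eq_mul,
    card_erase_of_mem (mem_univ _), card_univ, hw, Nat.add_sub_cancel] at htot
  rw [heq i]
  exact (Nat.eq_of_mul_eq_mul_left hr.out.pos htot).symm

theorem sum_lam (hl : IsLog l) (h0 : ∃ x, l x ≠ 0) {w : ℕ} (hw : Fintype.card K = r * w + 1)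
    (i : ZMod r) : ∑ j, nn l i j = ((r : ℤ) * w - 2) * (w - if i = 0 then 1 else 0) := by
  have h1 : ∑ j, nn l i j = ∑ P ∈ pts K, if lam l P = i then (1 : ℤ) else 0 := by
    rw [sum_nn (l := l) (fun i' _ => if i' = i then (1 : ℤ) else 0)]
    simp
  have h2 : ∑ P ∈ pts K, (if lam l P = i then (1 : ℤ) else 0) =
      ∑ P ∈ pts K, if l (P.1 * (1 - P.2) / ((1 - P.1) * P.2)) = i then (1 : ℤ) else 0 := by
    refine sum_congr rfl ?_
    rintro ⟨x, y⟩ h
    rw [mem_pts] at h
    obtain ⟨hx0, hx1, hy0, hy1, hxy⟩ := h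
    simp only at hx0 hx1 hy0 hy1 hxy
    have a1 : 1 - x ≠ 0 := sub_ne_zero.2 hx1.symm
    have a2 : 1 - y ≠ 0 := sub_ne_zero.2 hy1.symm
    have h3 : l (x * (1 - y) / ((1 - x) * y)) = l x + l (1 - y) - l (1 - x) - l y := by
      rw [hl.div (mul_ne_zero hx0 a2) (mul_ne_zero a1 hy0), hl.mul _ _ hx0 a2, hl.mul _ _ a1 hy0]
      ring
    exact if_congr (by simp only [lam, h3]) rfl rfl
  rw [h1, h2, fib_cross (fun c _ => if l c = i then (1 : ℤ) else 0)]
  have h3 : ∀ c ∈ (univ.erase (0 : K)).erase 1,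
      ∑ Y ∈ univ.filter (fun Y : K => Y ≠ 0 ∧ 1 + Y ≠ 0 ∧ 1 + c * Y ≠ 0),
        (if l c = i then (1 : ℤ) else 0) = ((r : ℤ) * w - 2) * if l c = i then (1 : ℤ) else 0 := by
    intro c hc
    rw [mem_erase, mem_erase] at hc
    rw [sum_three (fun _ => if l c = i then (1 : ℤ) else 0) hc.2.1 hc.1, sum_const, card_univ,
      nsmul_eq_mul, hw]
    push_cast
    ring
  rw [sum_congr rfl h3, ← mul_sum]
  congr 1
  have h1mem : (1 : K) ∈ univ.erase (0 : K) := by
    rw [mem_erase]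
    exact ⟨one_ne_zero, mem_univ _⟩
  have h4 := add_sum_erase _ (fun c : K => if l c = i then (1 : ℤ) else 0) h1mem
  have h5 : ∑ c ∈ univ.erase (0 : K), (if l c = i then (1 : ℤ) else 0) = w := by
    rw [← fiber_card hl h0 hw i, card_filter]
    push_cast
    rfl
  rw [h5, hl.one] at h4
  rw [← h4]
  by_cases hi : i = 0
  · rw [if_pos hi, if_pos hi.symm]
    ring
  · rw [if_neg hi, if_neg (Ne.symm hi)]
    ring

include hr2 in
theorem sum_dif (hl : IsLog l) (h0 : ∃ x, l x ≠ 0) {w : ℕ} (hw : Fintype.card K = r * w + 1)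
    (j : ZMod r) : ∑ i, nn l i j = ((r : ℤ) * w - 3) * w + if j = 0 then 2 else 0 := by
  set g : K → ℤ := fun x => if l x = j then 1 else 0 with hg
  have g0 : g 0 = if j = 0 then 1 else 0 := by
    rw [hg]
    simp only [hl.zero, eq_comm]
  have g1 : g 1 = g 0 := by
    rw [hg]
    simp only [hl.zero, hl.one]
  have gc : ∀ x y : K, g (x - y) = g (y - x) := by
    intro x y
    rw [hg]
    simp only [hl.sub_comm hr2 x y]
  have h1 : ∑ i, nn l i j = ∑ P ∈ pts K, g (P.1 - P.2) := by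
    have h2 := sum_nn (K := K) (l := l) (fun _ j' => if j' = j then (1 : ℤ) else 0)
    simp only [mul_ite, mul_one, mul_zero, sum_ite_eq', mem_univ, if_true] at h2
    exact h2.symm.trans rfl
  have h1mem : (1 : K) ∈ univ.erase (0 : K) := by
    rw [mem_erase]
    exact ⟨one_ne_zero, mem_univ _⟩
  have hsplit : ∀ h : K → ℤ, ∑ x ∈ (univ.erase (0 : K)).erase 1, h x = ∑ x, h x - h 0 - h 1 := by
    intro h
    rw [← add_sum_erase univ h (mem_univ 0), ← add_sum_erase _ h h1mem]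
    ring
  have hS : ∑ x, g x = w + g 0 := by
    rw [← add_sum_erase univ g (mem_univ 0)]
    have h5 : ∑ c ∈ univ.erase (0 : K), g c = w := by
      rw [← fiber_card hl h0 hw j, card_filter]
      push_cast
      rfl
    rw [h5]
    ring
  have hcard : ∑ _x : K, (1 : ℤ) = r * w + 1 := by
    rw [sum_const, card_univ, nsmul_eq_mul, hw]
    push_cast
    ring
  have hrow : ∀ x : K, ∑ y, g (x - y) = ∑ y, g y := fun x =>
    Fintype.sum_equiv (Equiv.subLeft x) _ _ fun _ => rfl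
  have h6 : ∀ x : K, ∑ y ∈ (univ.erase (0 : K)).erase 1, g (x - y) =
      (w + g 0) * 1 - g x - g (1 - x) := by
    intro x
    rw [hsplit (fun y => g (x - y)), hrow, hS, sub_zero, gc x 1, mul_one]
  rw [h1, pts_split (fun x y => g (x - y))]
  rw [sum_congr rfl fun x _ => h6 x]
  simp only [sub_self]
  rw [hsplit, hsplit, sum_sub_distrib, sum_sub_distrib, ← mul_sum, hcard,
    sum_one_sub g, hS]
  have h7 : ∑ _x : K, g 0 = (r * w + 1) * g 0 := by
    rw [← hcard, sum_mul]
    exact sum_congr rfl fun _ _ => by rw [one_mul]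
  rw [h7, sub_zero, sub_self, g1]
  have h8 : (if j = 0 then (2 : ℤ) else 0) = 2 * g 0 := by
    rw [g0]
    split_ifs <;> rfl
  rw [h8]
  ring

end

end Pool.Agent.Helper79.KM
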