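import Pool.Agent.Helper77.MT.Zar

/-!
Compatible systems of Galois representations with a large residual representation: definitions.

`Γ` is the Galois group of a number field, `X` is a finite set of characters (embeddings of the coefficient field), and
`ρ x` is the `ℓ`-adic representation on the eigenspace for `x`, of dimension `2 g`, over an algebraically closed field.
-/

set_option autoImplicit false

open Matrix H77MT

namespace Pool.Agent.Helper79.KM

/-- The index set of a basis of each eigenspace. -/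
abbrev Ix (g : ℕ) : Type := Fin g ⊕ Fin g

/-- A family of representations of dimension `2 g`. -/
abbrev Rep (Γ X : Type) [Group Γ] (g : ℕ) (K : Type) [Field K] : Type := X → Γ →* GL (Ix g) K

/-- The matrix of `γ` on the sum of the eigenspaces. -/
def mat {Γ X : Type} [Group Γ] [DecidableEq X] {g : ℕ} {K : Type} [Field K] (ρ : Rep Γ X g K) (γ : Γ) :
    Matrix (Ix g × X) (Ix g × X) K :=
  blockDiagonal fun x => (ρ x γ : Matrix (Ix g) (Ix g) K)

/-- The image of a subgroup. -/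
def img {Γ X : Type} [Group Γ] [DecidableEq X] {g : ℕ} {K : Type} [Field K] (ρ : Rep Γ X g K) (Δ : Subgroup Γ) :
    Set (Matrix (Ix g × X) (Ix g × X) K) := {M | ∃ γ ∈ Δ, M = mat ρ γ}

/-- `R x p` are the projections to the parts of weight `p` for a cocharacter of the Zariski closures of all the subgroups of
finite index, with the numbers `h x p`. -/
structure IsHT {Γ X : Type} [Group Γ] [DecidableEq X] [Fintype X] {g : ℕ} {K : Type} [Field K] (ρ : Rep Γ X g K)
    (h : X → ℤ → ℕ) (S : Finset ℤ) (R : X → ℤ → Matrix (Ix g) (Ix g) K) : Prop where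
  mul : ∀ x p q, R x p * R x q = if p = q then R x p else 0
  supp : ∀ x p, p ∉ S → R x p = 0
  sum : ∀ x, ∑ p ∈ S, R x p = 1
  rank : ∀ x p, (R x p).rank = h x p
  mem : ∀ Δ : Subgroup Γ, Δ.FiniteIndex → ∀ z : K, z ≠ 0 →
    blockDiagonal (fun x => ∑ p ∈ S, z ^ p • R x p) ∈ zcl (img ρ Δ)

/-- Hodge-Tate decompositions with the numbers `h t`, for all `t`. -/
def HasHT {Γ X T : Type} [Group Γ] [DecidableEq X] [Fintype X] {g : ℕ} {K : Type} [Field K] (ρ : Rep Γ X g K)
    (h : T → X → ℤ → ℕ) : Prop := ∀ t, ∃ S R, IsHT ρ (h t) S R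

/-- `A` is the reduction of `M`. -/
def Red {n K : Type} [Field K] (O : ValuationSubring K) {r : ℕ} [Fact r.Prime]
    (j : ZMod r →+* IsLocalRing.ResidueField O) (M : Matrix n n K) (A : Matrix n n (ZMod r)) : Prop :=
  ∃ M₀ : Matrix n n O, M = M₀.map (algebraMap O K) ∧ M₀.map (IsLocalRing.residue O) = A.map j

/-- The representations are integral, and the residual representations contain the symplectic group of the field with `r`
elements. -/
structure IsBig {Γ X : Type} [Group Γ] {g : ℕ} {K : Type} [Field K] (ρ : Rep Γ X g K) (O : ValuationSubring K) (r : ℕ)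
    [Fact r.Prime] (j : ZMod r →+* IsLocalRing.ResidueField O) : Prop where
  int : ∀ x γ a b, (ρ x γ : Matrix (Ix g) (Ix g) K) a b ∈ O
  big : ∀ x, ∀ A ∈ symplecticGroup (Fin g) (ZMod r), ∃ γ, Red O j (ρ x γ : Matrix (Ix g) (Ix g) K) A

/-- The representations `ρ` and `ρ₀` are members of a compatible system: class field theory for the determinants of the
subspaces stable under subgroups of finite index, and Serre's theorem on the eigenvalues of a Frobenius element. -/
structure IsCompat {Γ X : Type} [Group Γ] {g : ℕ} {K₀ K : Type} [Field K₀] [Field K] (ρ₀ : Rep Γ X g K₀)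
    (ρ : Rep Γ X g K) : Prop where
  det : ∀ (x : X) (Δ : Subgroup Γ), Δ.FiniteIndex → ∀ W : Submodule K (Ix g → K),
    (∀ γ ∈ Δ, ∀ w ∈ W, (ρ x γ : Matrix (Ix g) (Ix g) K) *ᵥ w ∈ W) →
    ∃ (Δ' : Subgroup Γ) (ψ : Δ' →* K₀ˣ), Δ' ≤ Δ ∧ Δ'.FiniteIndex ∧ ∀ γ : Δ', ∃ y : Fin (Module.finrank K W) → K₀,
      (∀ i, (ρ₀ x γ : Matrix (Ix g) (Ix g) K₀).charpoly.IsRoot (y i)) ∧ (ψ γ : K₀) = ∏ i, y i
  frob : ∀ Δ : Subgroup Γ, Δ.FiniteIndex → ∃ γ ∈ Δ, ∃ (u : X → Ix g → K) (v : X → Ix g → K₀),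
    (∀ x, (ρ x γ : Matrix (Ix g) (Ix g) K).charpoly = ∏ i, (Polynomial.X - Polynomial.C (u x i))) ∧
    (∀ x, (ρ₀ x γ : Matrix (Ix g) (Ix g) K₀).charpoly = ∏ i, (Polynomial.X - Polynomial.C (v x i))) ∧
    ∀ (x : X) (m : Ix g → ℤ), ∏ i, u x i ^ m i = 1 → ∏ i, v x i ^ m i = 1 ∧
      ∃ Δ' : Subgroup Γ, Δ' ≤ Δ ∧ Δ'.FiniteIndex ∧ ∀ γ' ∈ Δ', ∃ v' : Ix g → K₀,
        (ρ₀ x γ' : Matrix (Ix g) (Ix g) K₀).charpoly = ∏ i, (Polynomial.X - Polynomial.C (v' i)) ∧ ∏ i, v' i ^ m i = 1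

/-- No eigenspace is self-dual up to a twist, and the adjoint representations of different eigenspaces have different
numbers. -/
structure IsSep {X T : Type} (h : T → X → ℤ → ℕ) (S : Finset ℤ) : Prop where
  supp : ∀ t x p, p ∉ S → h t x p = 0
  asym : ∀ x, ∃ t, ∀ w : ℤ, ∃ p, h t x p ≠ h t x (w - p)
  sep : ∀ x x', x ≠ x' → ∃ (t : T) (k : ℤ), ∑ p ∈ S, h t x p * h t x (p + k) ≠ ∑ p ∈ S, h t x' p * h t x' (p + k)

/-- The Zariski closure contains the product of the special linear groups. -/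
def IsFull {Γ X : Type} [Group Γ] [DecidableEq X] [Fintype X] {g : ℕ} {K : Type} [Field K] (ρ : Rep Γ X g K) : Prop :=
  ∀ Δ : Subgroup Γ, Δ.FiniteIndex → ∀ M : X → Matrix (Ix g) (Ix g) K, (∀ x, (M x).det = 1) →
    blockDiagonal M ∈ zcl (img ρ Δ)

/-- **The statement.** -/
def Main : Prop :=
  ∀ (Γ X T K₀ K : Type) [Group Γ] [Fintype X] [DecidableEq X] [Field K₀] [IsAlgClosed K₀] [CharZero K₀]
    [Field K] [IsAlgClosed K] [CharZero K] (g r : ℕ) [Fact r.Prime] (O : ValuationSubring K₀)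
    (j : ZMod r →+* IsLocalRing.ResidueField O) (h : T → X → ℤ → ℕ) (S : Finset ℤ)
    (ρ₀ : Rep Γ X g K₀), 2 * g < r → IsSep h S → IsBig ρ₀ O r j → HasHT ρ₀ h →
    IsFull ρ₀ ∧ ∀ ρ : Rep Γ X g K, HasHT ρ h → IsCompat ρ₀ ρ → IsFull ρ

end Pool.Agent.Helper79.KM
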