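import Pool.Agent.Helper79.KM.Pair

/-!
# The power sums of exponent `r - 1` for sums of roots of unity of prime order `r`
-/

open Polynomial Finset

namespace Pool.Agent.Helper79.KM

section

variable {L : Type*} [Field L] [CharZero L] {r : ℕ} [hr : Fact r.Prime]

/-- a sum of powers of a primitive root of unity of prime order which is an integer -/
theorem top_of_sum {z : L} (hz : IsPrimitiveRoot z r) {ι : Type*} (s : Finset ι) (e : ι → ZMod r)
    (C : ℤ) (h : ∑ i ∈ s, z ^ (e i).val = C) :
    ∃ N : ℤ, r * N = s.card - C ∧ ∑ i ∈ s, (e i) ^ (r - 1) = ((r : ZMod r) - 1) * N := by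
  classical
  have hpos : 0 < r := hr.out.pos
  have : NeZero r := ⟨hpos.ne'⟩
  set G : ℤ[X] := (∑ i ∈ s, X ^ (e i).val) - Polynomial.C C with hG
  have h1 : aeval z G = 0 := by
    rw [hG, map_sub, map_sum, aeval_C, ← sub_eq_zero.2 h]
    simp
  have h2 : cyclotomic r ℤ ∣ G := by
    rw [cyclotomic_eq_minpoly hz hpos]
    exact minpoly.isIntegrallyClosed_dvd (hz.isIntegral hpos) h1
  obtain ⟨H, hH⟩ := h2
  have hdeg : G.natDegree ≤ r - 1 := by
    rw [hG]
    refine (natDegree_sub_le _ _).trans (max_le ?_ (by rw [natDegree_C]; exact Nat.zero_le _))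
    refine natDegree_sum_le_of_forall_le _ _ fun i _ => ?_
    rw [natDegree_X_pow]
    have := ZMod.val_lt (e i)
    omega
  have hcd : (cyclotomic r ℤ).natDegree = r - 1 := by
    rw [natDegree_cyclotomic, Nat.totient_prime hr.out]
  obtain ⟨c, hc⟩ : ∃ c : ℤ, H = Polynomial.C c := by
    rcases eq_or_ne H 0 with h0 | h0
    · exact ⟨0, by rw [h0, map_zero]⟩
    · have h3 : G.natDegree = r - 1 + H.natDegree := by
        rw [hH, natDegree_mul (cyclotomic_ne_zero r ℤ) h0, hcd]
      exact ⟨_, eq_C_of_natDegree_eq_zero (by omega)⟩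
  rw [hc] at hH
  refine ⟨c, ?_, ?_⟩
  · have h3 := congrArg (eval 1) hH
    rw [hG, eval_mul, eval_C, eval_one_cyclotomic_prime, eval_sub, eval_C, eval_finsetSum] at h3
    simp only [eval_pow, eval_X, one_pow, sum_const, nsmul_eq_mul, mul_one] at h3
    exact h3.symm
  · have hcoef : ∀ j : ZMod r, j ≠ 0 → ((s.filter fun i => e i = j).card : ℤ) = c := by
      intro j hj
      have h3 : G.coeff j.val = (cyclotomic r ℤ * Polynomial.C c).coeff j.val := by rw [hH]
      have hjv : j.val ≠ 0 := fun h => hj ((ZMod.val_eq_zero j).1 h)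
      rw [coeff_mul_C, cyclotomic_prime, finsetSum_coeff, hG, coeff_sub, finsetSum_coeff,
        coeff_C, if_neg hjv, sub_zero] at h3
      simp only [coeff_X_pow] at h3
      rw [sum_ite_eq, if_pos (mem_range.2 (ZMod.val_lt j)), one_mul] at h3
      rw [← h3, card_filter]
      push_cast
      refine sum_congr rfl fun i _ => ?_
      by_cases h4 : e i = j
      · rw [if_pos h4, if_pos (by rw [h4])]
      · rw [if_neg h4, if_neg fun h5 => h4 (ZMod.val_injective r h5).symm]
    have h4 : ∑ i ∈ s, (e i) ^ (r - 1) =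
        ∑ j : ZMod r, ((s.filter fun i => e i = j).card : ZMod r) * j ^ (r - 1) := by
      rw [← sum_fiberwise s e]
      refine sum_congr rfl fun j _ => ?_
      rw [sum_congr rfl (g := fun _ => j ^ (r - 1)) fun i hi => by
        rw [(mem_filter.1 hi).2], sum_const, nsmul_eq_mul]
    have h5 : ∀ j : ZMod r, ((s.filter fun i => e i = j).card : ZMod r) * j ^ (r - 1) =
        if j = 0 then 0 else (c : ZMod r) := by
      intro j
      by_cases hj : j = 0
      · rw [hj, zero_pow (Nat.sub_ne_zero_of_lt hr.out.one_lt), mul_zero, if_pos rfl]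
      · rw [ZMod.pow_card_sub_one_eq_one hj, mul_one, if_neg hj, ← hcoef j hj]
        push_cast
        rfl
    rw [h4, sum_congr rfl fun j _ => h5 j]
    have h6 : ∀ j : ZMod r, (if j = 0 then (0 : ZMod r) else (c : ZMod r)) =
        c - if j = 0 then (c : ZMod r) else 0 := by
      intro j
      split_ifs <;> ring
    simp only [h6, sum_sub_distrib, sum_const, card_univ, ZMod.card, nsmul_eq_mul, sum_ite_eq',
      mem_univ, if_true]
    ring

omit [CharZero L] in
theorem pow_val_add' {z : L} (hz : z ^ r = 1) (a b : ZMod r) :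
    z ^ (a + b).val = z ^ a.val * z ^ b.val := by
  have : NeZero r := ⟨hr.out.ne_zero⟩
  rw [← pow_add, ZMod.val_add, ← pow_mod_orderOf, ← pow_mod_orderOf z (a.val + b.val)]
  congr 1
  exact Nat.mod_mod_of_dvd _ (orderOf_dvd_of_pow_eq_one hz)

/-- the relation for the absolute value -/
theorem pair_top {z : L} (hz : IsPrimitiveRoot z r) {ι : Type*} (s : Finset ι) (e : ι → ZMod r)
    (C : ℤ) (h : (∑ i ∈ s, z ^ (e i).val) * (∑ i ∈ s, z ^ (-e i).val) = C) :
    ∃ N : ℤ, r * N = (s.card : ℤ) ^ 2 - C ∧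
      ∑ i ∈ s, ∑ i' ∈ s, (e i - e i') ^ (r - 1) = ((r : ZMod r) - 1) * N := by
  obtain ⟨N, h1, h2⟩ := top_of_sum hz (s ×ˢ s) (fun x => e x.1 + -e x.2) C (by
    rw [← h, sum_mul_sum, sum_product]
    refine sum_congr rfl fun i _ => sum_congr rfl fun i' _ => ?_
    exact pow_val_add' hz.pow_eq_one _ _)
  refine ⟨N, ?_, ?_⟩
  · rw [h1, card_product]
    push_cast
    ring
  · rw [← h2, sum_product]
    exact sum_congr rfl fun i _ => sum_congr rfl fun i' _ => by rw [sub_eq_add_neg]

end

end Pool.Agent.Helper79.KM
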