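import Pool.Agent.Helper79.KM.Good6
import Pool.Agent.Helper79.KM.Gen
import Pool.Agent.Helper79.KM.Top
import Pool.Agent.Helper79.KM.Fib

/-!
# The criterion with the sum of `ind x ^ 2 * ind (1 - x)` for all primes greater than five
-/

open Finset

namespace Pool.Agent.Helper79.KM

open Pool.Agent.Helper73.LF Pool.Agent.Helper73.QC

section

variable {K : Type*} [Field K] [Fintype K] [DecidableEq K] {r : ℕ} {l : K → ZMod r}
  [hr : Fact r.Prime] (hr5 : 5 < r) (hl : IsLog l) (hK : (Fintype.card K : ZMod r) = 1)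
  (h7 : 7 * s6 l = 0)

include hr5 hl hK h7

/-- the value of the sixth moment of one variable given by the absolute value of a Jacobi sum -/
theorem bs42' (h : ∑ x ∈ (univ.erase (0 : K)).erase 1, ∑ y ∈ (univ.erase (0 : K)).erase 1,
    ((l x + l (1 - x)) - (l y + l (1 - y))) ^ 6 = -3 * s6 l) :
    bs l 4 2 = -6 * bs l 2 1 ^ 2 - 3 * s6 l := by
  have hs : ∀ k : ℕ, ∑ x ∈ (univ.erase (0 : K)).erase 1, (l x + l (1 - x)) ^ k = om l 1 1 k := by
    intro k
    rw [om]
    exact sum_congr rfl fun x _ => by rw [one_mul, one_mul]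
  have h6 : om l 1 1 6 = 60 * bs l 4 2 + 3 * s6 l := by
    rw [om_pos hl 1 1 (by omega), ← (one_moments' hr5 hl).2.2.2.2]
    exact sum_congr rfl fun x _ => by rw [one_mul, one_mul]
  rw [six, hs, hs, hs, hs, hs, hs, hs, om_zero hK, om1 hr5 hl, om2 hr5 hl, om3 hr5 hl,
    om4 hr5 hl, h6] at h
  have h5 : ((120 : ℕ) : ZMod r) * (bs l 4 2 - (-6 * bs l 2 1 ^ 2 - 3 * s6 l)) = 0 := by
    push_cast
    linear_combination -h + 51 * h7
  have h7' : ((120 : ℕ) : ZMod r) ≠ 0 := natCast_ne fun q hq hq' => by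
    have h8 : q ∣ 2 ^ 3 * 3 * 5 := by
      have : 2 ^ 3 * 3 * 5 = 120 := by norm_num
      rwa [this]
    rcases (Nat.Prime.dvd_mul hq).1 h8 with h9 | h9
    · rcases (Nat.Prime.dvd_mul hq).1 h9 with h10 | h10
      · have := (Nat.prime_dvd_prime_iff_eq hq Nat.prime_two).1 (hq.dvd_of_dvd_pow h10)
        omega
      · have := (Nat.prime_dvd_prime_iff_eq hq Nat.prime_three).1 h10
        omega
    · have := (Nat.prime_dvd_prime_iff_eq hq Nat.prime_five).1 h9
      omega
  exact sub_eq_zero.1 ((mul_eq_zero.1 h5).resolve_left h7')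

theorem gen_six' (h42 : bs l 4 2 = -6 * bs l 2 1 ^ 2 - 3 * s6 l) (a b c d e : ZMod r) :
    ∑ P ∈ pts K, ∑ Q ∈ pts K, (ex l a b c d e P - ex l a b c d e Q) ^ 6 =
      5 * (bs l 2 1 ^ 2 * kD a b c d e) + 12 * (s6 l * sS 6 a b c d e) := by
  have h := good6 hr5 hl hK h7 h42 a b c d e
  have m0 : ∑ P ∈ pts K, ex l a b c d e P ^ 0 = 2 := by
    rw [← al_zero hl hK, al]
    exact sum_congr rfl fun P _ => by rw [pow_zero, pow_zero, pow_zero, mul_one]
  have m1 : ∑ P ∈ pts K, ex l a b c d e P ^ 1 = 0 := h.one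
  have m2 : ∑ P ∈ pts K, ex l a b c d e P ^ 2 = 0 := h.two
  have m3 : ∑ P ∈ pts K, ex l a b c d e P ^ 3 = bs l 2 1 * sS 3 a b c d e := h.three
  have m6 : 4 * ∑ P ∈ pts K, ex l a b c d e P ^ 6 = 15 * (bs l 2 1 ^ 2 * sG a b c d e) +
      12 * (s6 l * sS 6 a b c d e) := h.six
  rw [six, m0, m1, m2, m3, kD]
  linear_combination m6

theorem gen_ne' (h42 : bs l 4 2 = -6 * bs l 2 1 ^ 2 - 3 * s6 l) (hb : bs l 2 1 ≠ 0)
    {a b c d e : ZMod r} (hD : kD a b c d e ≠ 0) :
    ∑ P ∈ pts K, ∑ Q ∈ pts K, (ex l a b c d e P - ex l a b c d e Q) ^ 6 ≠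
      12 * (s6 l * sS 6 a b c d e) := by
  rw [gen_six' hr5 hl hK h7 h42]
  intro h
  have h7 : ((5 : ℕ) : ZMod r) ≠ 0 := natCast_ne fun q _ hq' => by
    have := Nat.le_of_dvd (by omega) hq'
    omega
  have h8 : (5 : ZMod r) ≠ 0 := by exact_mod_cast h7
  exact mul_ne_zero h8 (mul_ne_zero (pow_ne_zero 2 hb) hD) (by linear_combination h)

end

section

variable {K L : Type} [Field K] [Fintype K] [DecidableEq K] [Field L] [CharZero L] [IsAlgClosed L]
  {r j : ℕ} [hr : Fact r.Prime]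

/-- the absolute value of a Jacobi sum -/
theorem jac_abs (hr2 : 2 < r) (hj : 0 < j) {τ : MulChar K L}
    (hτ : orderOf τ = Fintype.card K - 1)
    (hd : r ^ j ∣ Fintype.card K - 1) {z : L} (hz : IsPrimitiveRoot z (r ^ j))
    {e : K → ZMod (r ^ j)}
    (he : ∀ x ≠ 0, ∀ a : ZMod (r ^ j), ch τ a x = z ^ (a * e x).val) :
    (∑ x ∈ (univ.erase (0 : K)).erase 1, z ^ (e x + e (1 - x)).val) *
        (∑ x ∈ (univ.erase (0 : K)).erase 1, z ^ (-(e x + e (1 - x))).val) =
          ((Fintype.card K : ℤ) : L) := by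
  have hN : 1 < r ^ j := Nat.one_lt_pow hj.ne' hr.out.one_lt
  have : NeZero (r ^ j) := ⟨by omega⟩
  have : Fact (1 < r ^ j) := ⟨hN⟩
  have hK0 : ((Fintype.card K - 1 : ℕ) : ZMod (r ^ j)) = 0 := (ZMod.natCast_eq_zero_iff _ _).2 hd
  have hz1 := hz.pow_eq_one
  have h1mem : (1 : K) ∈ univ.erase (0 : K) := by
    rw [mem_erase]
    exact ⟨one_ne_zero, mem_univ _⟩
  have hsplit : ∀ {M : Type} [AddCommMonoid M] (g : K → M), ∑ x, g x =
      g 0 + (g 1 + ∑ x ∈ (univ.erase (0 : K)).erase 1, g x) := by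
    intro M _ g
    rw [add_sum_erase _ g h1mem, add_sum_erase univ g (mem_univ 0)]
  have hring : ringChar L ≠ ringChar K := by
    rw [ringChar.eq_zero]
    intro h
    have : CharP K 0 := by
      rw [h]
      exact ringChar.charP K
    have : CharZero K := CharP.charP_to_charZero K
    exact not_injective_infinite_finite (Nat.cast : ℕ → K) Nat.cast_injective
  have hne : ch τ (1 : ZMod (r ^ j)) ≠ 1 := ch_ne_one hτ (by rw [hK0, zero_mul]) one_ne_zero
  have hne2 : ch τ (1 : ZMod (r ^ j)) * ch τ (1 : ZMod (r ^ j)) ≠ 1 := by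
    rw [← ch_add hτ (by rw [hK0, zero_mul]) (by rw [hK0, zero_mul])]
    refine ch_ne_one hτ (by rw [hK0, zero_mul]) ?_
    intro h
    have h2 : ((2 : ℕ) : ZMod (r ^ j)) = 0 := by
      push_cast
      linear_combination h
    rw [ZMod.natCast_eq_zero_iff] at h2
    have h3 := (dvd_pow_self r hj.ne').trans h2
    have := Nat.le_of_dvd (by omega) h3
    omega
  have hJ := jacobiSum_mul_jacobiSum_inv hring hne hne hne2
  have hinv : (ch τ (1 : ZMod (r ^ j)))⁻¹ = ch τ (-1 : ZMod (r ^ j)) :=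
    (ch_neg hτ (by rw [hK0, zero_mul])).symm
  rw [hinv, jacobiSum, jacobiSum] at hJ
  have e0 : (1 - 0 : K) = 1 := sub_zero 1
  have e1 : (1 - 1 : K) = 0 := sub_self 1
  rw [hsplit, hsplit (fun x => ch τ (-1 : ZMod (r ^ j)) x * ch τ (-1 : ZMod (r ^ j)) (1 - x)),
    map_zero'', map_zero'', zero_mul, zero_mul, zero_add, zero_add, e1, map_zero'',
    map_zero'', mul_zero, mul_zero, zero_add, zero_add] at hJ
  rw [Int.cast_natCast, ← hJ]
  congr 1
  · refine sum_congr rfl fun x hx => ?_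
    rw [mem_erase, mem_erase] at hx
    rw [he x hx.2.1, he _ (sub_ne_zero.2 hx.1.symm), ← pow_val_add hz1, one_mul, one_mul]
  · refine sum_congr rfl fun x hx => ?_
    rw [mem_erase, mem_erase] at hx
    rw [he x hx.2.1, he _ (sub_ne_zero.2 hx.1.symm), ← pow_val_add hz1, neg_one_mul,
      neg_one_mul, ← neg_add]

omit [DecidableEq K] in
theorem card_one (hj : 0 < j) (hd : r ^ j ∣ Fintype.card K - 1) :
    (Fintype.card K : ZMod r) = 1 := by
  have h3 : ((Fintype.card K - 1 : ℕ) : ZMod r) = 0 :=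
    (ZMod.natCast_eq_zero_iff _ _).2 ((dvd_pow_self r hj.ne').trans hd)
  rw [Nat.cast_sub Fintype.card_pos, Nat.cast_one] at h3
  linear_combination h3

/-- the sums of the sixth powers of the differences in the two cases -/
theorem two_cases (hr5 : 5 < r) (hj : 0 < j) {τ : MulChar K L}
    (hτ : orderOf τ = Fintype.card K - 1)
    (hd : r ^ j ∣ Fintype.card K - 1) {z : L} (hz : IsPrimitiveRoot z (r ^ j))
    {e : K → ZMod (r ^ j)} (hadd : ∀ x y, x ≠ 0 → y ≠ 0 → e (x * y) = e x + e y)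
    (he : ∀ x ≠ 0, ∀ a : ZMod (r ^ j), ch τ a x = z ^ (a * e x).val)
    (hx : ∃ x ≠ 0, red r j hj (e x) ≠ 0) (f : K × K → ZMod (r ^ j))
    (hf : (∑ P ∈ pts K, z ^ (f P).val) * (∑ P ∈ pts K, z ^ (-f P).val) =
      4 * (Fintype.card K : L) ^ 2) :
    7 * s6 (lg hj e) = 0 ∧
      ∑ x ∈ (univ.erase (0 : K)).erase 1, ∑ y ∈ (univ.erase (0 : K)).erase 1,
        ((lg hj e x + lg hj e (1 - x)) - (lg hj e y + lg hj e (1 - y))) ^ 6 =
          -3 * s6 (lg hj e) ∧
      ((s6 (lg hj e) = 0 ∧ ∑ P ∈ pts K, ∑ Q ∈ pts K,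
          (red r j hj (f P) - red r j hj (f Q)) ^ 6 = 0) ∨
        (r = 7 ∧ j = 1 ∧ ∑ P ∈ pts K, ∑ Q ∈ pts K,
          (red r j hj (f P) - red r j hj (f Q)) ^ 6 = s6 (lg hj e))) := by
  have hl := lg_isLog hj hadd
  have hK := card_one (r := r) hj hd
  have hJ := jac_abs (by omega) hj hτ hd hz he
  have hf' : (∑ P ∈ pts K, z ^ (f P).val) * (∑ P ∈ pts K, z ^ (-f P).val) =
      ((4 * (Fintype.card K : ℤ) ^ 2 : ℤ) : L) := by
    rw [hf]
    push_cast
    ring
  have hm : ∀ x ∈ (univ.erase (0 : K)).erase 1, lg hj e x + lg hj e (1 - x) =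
      red r j hj (e x + e (1 - x)) := by
    intro x hx
    rw [mem_erase, mem_erase] at hx
    rw [lg_of_ne hj e hx.2.1, lg_of_ne hj e (sub_ne_zero.2 hx.1.symm), map_add]
  have hne : ∃ x, lg hj e x ≠ 0 := by
    obtain ⟨x, h0, h1⟩ := hx
    exact ⟨x, by rwa [lg_of_ne hj e h0]⟩
  by_cases h71 : r = 7 ∧ j = 1
  · obtain ⟨rfl, rfl⟩ := h71
    obtain ⟨κ, hκ, hs⟩ := sum_pow_top hl hne
    have hs' : s6 (lg hj e) = -(κ : ZMod 7) := hs
    have hq : (Fintype.card K : ℤ) = 1 + 7 * κ := by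
      have := Fintype.card_pos (α := K)
      omega
    have h70 : (7 : ZMod 7) = 0 := rfl
    have hz' : IsPrimitiveRoot z 7 := by rwa [pow_one] at hz
    have hred : ∀ a : ZMod (7 ^ 1), ((red 7 1 hj a).val : ℕ) = a.val := by
      intro a
      have h1 := red_val hj a
      rw [← h1, ZMod.val_natCast, Nat.mod_eq_of_lt]
      exact ZMod.val_lt a
    have hcard2 : (((univ.erase (0 : K)).erase 1).card : ℤ) = (Fintype.card K : ℤ) - 2 := by
      rw [card_erase_of_mem one_mem', card_erase_of_mem (mem_univ _), card_univ]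
      have := Fintype.one_lt_card (α := K)
      omega
    have hcardp : ((pts K).card : ℤ) = ((Fintype.card K : ℤ) - 2) * ((Fintype.card K : ℤ) - 3) := by
      rw [pts_eq, offDiag_card, Nat.cast_sub (Nat.le_mul_self _)]
      push_cast
      rw [hcard2]
      ring
    refine ⟨by rw [h70, zero_mul], ?_, Or.inr ⟨rfl, rfl, ?_⟩⟩
    · obtain ⟨N, h1, h2⟩ := pair_top hz' ((univ.erase (0 : K)).erase 1)
        (fun x => red 7 1 hj (e x + e (1 - x))) (Fintype.card K : ℤ) (by
          rw [← hJ]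
          congr 1
          · exact sum_congr rfl fun x _ => by rw [hred]
          · exact sum_congr rfl fun x _ => by rw [← hred (-(e x + e (1 - x))), map_neg])
      rw [hcard2, hq] at h1
      have hN : N = κ * (7 * κ - 3) := by
        have : (7 : ℤ) * (N - κ * (7 * κ - 3)) = 0 := by
          push_cast at h1
          linear_combination h1
        linarith [(mul_eq_zero.1 this).resolve_left (by norm_num)]
      have h3 : ∑ x ∈ (univ.erase (0 : K)).erase 1, ∑ y ∈ (univ.erase (0 : K)).erase 1,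
          ((lg hj e x + lg hj e (1 - x)) - (lg hj e y + lg hj e (1 - y))) ^ 6 =
          ((7 : ℕ) - 1 : ZMod 7) * N := by
        rw [← h2]
        exact sum_congr rfl fun x hx => sum_congr rfl fun y hy => by rw [hm x hx, hm y hy]
      rw [h3, hs', hN]
      push_cast
      linear_combination (6 * κ * κ - 3 * κ : ZMod 7) * h70
    · obtain ⟨N, h1, h2⟩ := pair_top hz' (pts K)
        (fun P => red 7 1 hj (f P)) (4 * (Fintype.card K : ℤ) ^ 2) (by
          rw [← hf']
          congr 1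
          · exact sum_congr rfl fun x _ => by rw [hred]
          · exact sum_congr rfl fun x _ => by rw [← hred (-(f x)), map_neg])
      rw [hcardp, hq] at h1
      have hN : N = κ * (7 * κ - 5) * (49 * κ ^ 2 - 7 * κ + 4) := by
        have : (7 : ℤ) * (N - κ * (7 * κ - 5) * (49 * κ ^ 2 - 7 * κ + 4)) = 0 := by
          push_cast at h1
          linear_combination h1
        linarith [(mul_eq_zero.1 this).resolve_left (by norm_num)]
      have h3 : ∑ P ∈ pts K, ∑ Q ∈ pts K, (red 7 1 hj (f P) - red 7 1 hj (f Q)) ^ 6 =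
          ((7 : ℕ) - 1 : ZMod 7) * N := h2
      have h49 : (49 : ZMod 7) = 0 := rfl
      have e1 : (N : ZMod 7) = κ * (-5) * 4 := by
        rw [hN]
        push_cast
        rw [h49, h70]
        ring
      rw [h3, hs', e1]
      push_cast
      linear_combination (-17 * κ : ZMod 7) * h70
  · -- the degree is large
    have hphi : 6 < r ^ j - r ^ (j - 1) := by
      obtain ⟨j', rfl⟩ : ∃ j', j = j' + 1 := ⟨j - 1, by omega⟩
      rw [Nat.add_sub_cancel, pow_succ]
      have h1 : 1 ≤ r ^ j' := Nat.one_le_pow _ _ hr.out.pos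
      by_cases h8 : 8 ≤ r
      · have h2 : r ^ j' * 8 ≤ r ^ j' * r := Nat.mul_le_mul_left _ h8
        omega
      · have h9 : r = 7 := by
          have : r ≠ 6 := by
            rintro rfl
            exact absurd hr.out (by norm_num)
          omega
        have h10 : j' ≠ 0 := by
          rintro rfl
          exact h71 ⟨h9, rfl⟩
        have h11 : r ≤ r ^ j' := Nat.le_self_pow h10 r
        have h2 : r ^ j' * 7 ≤ r ^ j' * r := Nat.mul_le_mul_left _ h9.ge
        omega
    have hs : s6 (lg hj e) = 0 := by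
      by_cases h8 : 7 < r
      · exact sum_pow_log hl 6 (by omega) (by omega)
      · have h9 : r = 7 := by
          have : r ≠ 6 := by
            rintro rfl
            exact absurd hr.out (by norm_num)
          omega
        subst h9
        have h10 : j ≠ 1 := fun h => h71 ⟨rfl, h⟩
        obtain ⟨κ, hκ, hs⟩ := sum_pow_top hl hne
        have h11 : 7 ∣ κ := by
          have h12 : 7 * 7 ∣ 7 * κ := by
            rw [hκ]
            have : 7 ^ 2 ∣ Fintype.card K - 1 := (pow_dvd_pow 7 (by omega)).trans hd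
            exact this
          exact Nat.dvd_of_mul_dvd_mul_left (by norm_num) h12
        have hs' : s6 (lg hj e) = -(κ : ZMod 7) := hs
        rw [hs', neg_eq_zero]
        exact (ZMod.natCast_eq_zero_iff _ _).2 h11
    refine ⟨by rw [hs, mul_zero], ?_, Or.inl ⟨hs, ?_⟩⟩
    · rw [hs, mul_zero, ← pair_moment hj hz _ _ _ hJ (k := 6) (by omega) hphi]
      exact sum_congr rfl fun x hx => sum_congr rfl fun y hy => by rw [hm x hx, hm y hy]
    · exact pair_moment hj hz _ _ _ hf' (k := 6) (by omega) hphi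

end

end Pool.Agent.Helper79.KM
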