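import Pool.Agent.Helper79.KM.Kummer
import Pool.Agent.Helper79.KM.Gen7
import Pool.Agent.Helper44.KM.AlEight

/-!
# The eighth moment on the plane of the vectors `(s, -s, -s, s, -t)`
-/

open Finset

namespace Pool.Agent.Helper79.KM

open Pool.Agent.Helper73.LF Pool.Agent.Helper73.QC

/-- the eighth moment of the differences -/
theorem eight {R : Type*} [CommRing R] {ι : Type*} (s : Finset ι) (f : ι → R) :
    ∑ i ∈ s, ∑ i' ∈ s, (f i - f i') ^ 8 =
      2 * (∑ i ∈ s, f i ^ 0) * (∑ i ∈ s, f i ^ 8) - 16 * (∑ i ∈ s, f i ^ 1) * (∑ i ∈ s, f i ^ 7) +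
        56 * (∑ i ∈ s, f i ^ 2) * (∑ i ∈ s, f i ^ 6) -
          112 * (∑ i ∈ s, f i ^ 3) * (∑ i ∈ s, f i ^ 5) + 70 * (∑ i ∈ s, f i ^ 4) ^ 2 := by
  have key : ∀ a b : ℕ, ∑ i ∈ s, ∑ i' ∈ s, f i ^ a * f i' ^ b =
      (∑ i ∈ s, f i ^ a) * (∑ i ∈ s, f i ^ b) := fun a b => (sum_mul_sum _ _ _ _).symm
  have key' : ∀ (c : R) (a b : ℕ), ∑ i ∈ s, ∑ i' ∈ s, c * (f i ^ a * f i' ^ b) =
      c * ((∑ i ∈ s, f i ^ a) * (∑ i ∈ s, f i ^ b)) := by
    intro c a b
    rw [← key, mul_sum]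
    exact sum_congr rfl fun i _ => (mul_sum _ _ _).symm
  have h : ∀ i i', (f i - f i') ^ 8 = f i ^ 8 * f i' ^ 0 - 8 * (f i ^ 7 * f i' ^ 1) +
      28 * (f i ^ 6 * f i' ^ 2) - 56 * (f i ^ 5 * f i' ^ 3) + 70 * (f i ^ 4 * f i' ^ 4) -
        56 * (f i ^ 3 * f i' ^ 5) + 28 * (f i ^ 2 * f i' ^ 6) - 8 * (f i ^ 1 * f i' ^ 7) +
          f i ^ 0 * f i' ^ 8 := by
    intro i i'
    ring
  simp only [h, sum_add_distrib, sum_sub_distrib, key, key']
  ring

section

variable {K : Type*} [Field K] [Fintype K] {r : ℕ} {l : K → ZMod r} [hr : Fact r.Prime]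
  (hr2 : r ≠ 2) (hl : IsLog l) (h : 9 < r)

include hr2 hl h

theorem bs71 : bs l 7 1 = 0 := by
  have h1 := bs_inv hr2 hl (show 0 < 7 by omega) 1
  have h2 := sum_pow_log hl 8 (by omega) (by omega)
  have h3 : ∑ x, (-l x) ^ 7 * (l (1 - x) - l x) ^ 1 = -bs l 7 1 + ∑ x, l x ^ 8 := by
    rw [bs, ← sum_neg_distrib, ← sum_add_distrib]
    exact sum_congr rfl fun x _ => by ring
  rw [h3, h2] at h1
  have h4 : (2 : ZMod r) * bs l 7 1 = 0 := by linear_combination h1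
  exact (mul_eq_zero.1 h4).resolve_left (two_ne hr2)

theorem bs32 : bs l 3 2 = bs l 4 1 := by
  have h1 := bs_inv hr2 hl (show 0 < 3 by omega) 2
  have h2 := sum_pow_log hl 5 (by omega) (by omega)
  have h3 : ∑ x, (-l x) ^ 3 * (l (1 - x) - l x) ^ 2 =
      -bs l 3 2 + 2 * bs l 4 1 - ∑ x, l x ^ 5 := by
    simp only [bs, mul_sum, ← sum_neg_distrib, ← sum_add_distrib, ← sum_sub_distrib]
    exact sum_congr rfl fun x _ => by ring
  rw [h3, h2] at h1
  have h4 : (2 : ZMod r) * (bs l 3 2 - bs l 4 1) = 0 := by linear_combination h1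
  exact sub_eq_zero.1 ((mul_eq_zero.1 h4).resolve_left (two_ne hr2))

theorem bs53 : 2 * bs l 5 3 = 3 * bs l 6 2 := by
  have h1 := bs_inv hr2 hl (show 0 < 5 by omega) 3
  have h2 := sum_pow_log hl 8 (by omega) (by omega)
  have h3 : ∑ x, (-l x) ^ 5 * (l (1 - x) - l x) ^ 3 =
      -bs l 5 3 + 3 * bs l 6 2 - 3 * bs l 7 1 + ∑ x, l x ^ 8 := by
    simp only [bs, mul_sum, ← sum_neg_distrib, ← sum_add_distrib, ← sum_sub_distrib]
    exact sum_congr rfl fun x _ => by ring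
  rw [h3, h2, bs71 hr2 hl h] at h1
  linear_combination h1

theorem three_bs44 : 3 * (5 * bs l 4 4) = 3 * (8 * bs l 6 2) := by
  have h1 := bs_inv hr2 hl (show 0 < 2 by omega) 6
  have h2 := sum_pow_log hl 8 (by omega) (by omega)
  have h3 : ∑ x, (-l x) ^ 2 * (l (1 - x) - l x) ^ 6 =
      bs l 2 6 - 6 * bs l 3 5 + 15 * bs l 4 4 - 20 * bs l 5 3 + 15 * bs l 6 2 - 6 * bs l 7 1 +
        ∑ x, l x ^ 8 := by
    simp only [bs, mul_sum, ← sum_add_distrib, ← sum_sub_distrib]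
    exact sum_congr rfl fun x _ => by ring
  rw [h3, h2, bs71 hr2 hl h, bs_comm 3 5] at h1
  linear_combination -h1 + 13 * bs53 hr2 hl h

omit hr2 hl in
theorem small_ne {m : ℕ} (hm : m ≠ 0) (hm9 : m < 10) : ((m : ℕ) : ZMod r) ≠ 0 := by
  refine natCast_ne fun q _ hq' => ?_
  have := Nat.le_of_dvd (by omega) hq'
  omega

theorem bs44 : 5 * bs l 4 4 = 8 * bs l 6 2 := by
  have h3 : ((3 : ℕ) : ZMod r) ≠ 0 := small_ne h (by omega) (by omega)
  push_cast at h3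
  exact mul_left_cancel₀ h3 (three_bs44 hr2 hl h)

/-- the fifth and the eighth moment of `l x + l (1 - x)` -/
theorem one_five : ∑ x, (l x + l (1 - x)) ^ 5 = 30 * bs l 4 1 := by
  have h1 : ∑ x, (l x + l (1 - x)) ^ 5 = ∑ x, l x ^ 5 + ∑ x, l (1 - x) ^ 5 +
      5 * bs l 4 1 + 10 * bs l 3 2 + 10 * bs l 2 3 + 5 * bs l 1 4 := by
    simp only [bs, mul_sum, ← sum_add_distrib]
    exact sum_congr rfl fun x _ => by ring
  rw [h1, sum_pow_log hl 5 (by omega) (by omega), sum_pow_log' hl (by omega) (by omega),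
    bs_comm 1 4, bs_comm 2 3, bs32 hr2 hl h]
  ring

theorem one_eight : ∑ x, (l x + l (1 - x)) ^ 8 = 336 * bs l 6 2 := by
  have h1 : ∑ x, (l x + l (1 - x)) ^ 8 = ∑ x, l x ^ 8 + ∑ x, l (1 - x) ^ 8 +
      8 * bs l 7 1 + 28 * bs l 6 2 + 56 * bs l 5 3 + 70 * bs l 4 4 + 56 * bs l 3 5 +
        28 * bs l 2 6 + 8 * bs l 1 7 := by
    simp only [bs, mul_sum, ← sum_add_distrib]
    exact sum_congr rfl fun x _ => by ring
  rw [h1, sum_pow_log hl 8 (by omega) (by omega), sum_pow_log' hl (by omega) (by omega),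
    bs_comm 1 7, bs_comm 2 6, bs_comm 3 5, bs71 hr2 hl h]
  linear_combination 56 * bs53 hr2 hl h + 14 * bs44 hr2 hl h

end

section

variable {K : Type*} [Field K] [Fintype K] [DecidableEq K] {r : ℕ} {l : K → ZMod r}
  [hr : Fact r.Prime] (h9 : 9 < r) (hl : IsLog l) (hK : (Fintype.card K : ZMod r) = 1)

include h9 hl hK

/-- the value of the eighth moment given by the absolute value of a Jacobi sum -/
theorem bs62 (h : ∑ x ∈ (univ.erase (0 : K)).erase 1, ∑ y ∈ (univ.erase (0 : K)).erase 1,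
    ((l x + l (1 - x)) - (l y + l (1 - y))) ^ 8 = 0) :
    bs l 6 2 = -30 * (bs l 2 1 * bs l 4 1) := by
  have hr2 : r ≠ 2 := by omega
  have h1mem : (1 : K) ∈ univ.erase (0 : K) := by
    rw [mem_erase]
    exact ⟨one_ne_zero, mem_univ _⟩
  have hsplit : ∀ g : K → ZMod r, ∑ x, g x =
      g 0 + (g 1 + ∑ x ∈ (univ.erase (0 : K)).erase 1, g x) := by
    intro g
    rw [add_sum_erase _ g h1mem, add_sum_erase univ g (mem_univ 0)]
  have hs : ∀ k : ℕ, k ≠ 0 → ∑ x ∈ (univ.erase (0 : K)).erase 1, (l x + l (1 - x)) ^ k =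
      ∑ x, (l x + l (1 - x)) ^ k := by
    intro k hk
    rw [hsplit (fun x => (l x + l (1 - x)) ^ k)]
    simp only [sub_zero, sub_self]
    rw [hl.zero, hl.one, add_zero, zero_pow hk, zero_add, zero_add]
  have hs0 : ∑ x ∈ (univ.erase (0 : K)).erase 1, (l x + l (1 - x)) ^ 0 = -1 := by
    have h1 := hsplit (fun x => (l x + l (1 - x)) ^ 0)
    simp only [pow_zero, sum_const, card_univ, nsmul_eq_mul, mul_one, hK] at h1 ⊢
    linear_combination -h1
  obtain ⟨m1, m2, m3, m4, -⟩ := one_moments hr2 hl (by omega)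
  have m5 := one_five hr2 hl h9
  have m8 := one_eight hr2 hl h9
  rw [eight, hs0, hs 1 (by omega), hs 2 (by omega), hs 3 (by omega), hs 4 (by omega),
    hs 5 (by omega), hs 8 (by omega), m1, m2, m3, m4, m5, m8] at h
  have h5 : ((672 : ℕ) : ZMod r) * (bs l 6 2 - -30 * (bs l 2 1 * bs l 4 1)) = 0 := by
    push_cast
    linear_combination -h
  have h7 : ((672 : ℕ) : ZMod r) ≠ 0 := by
    have e : ((672 : ℕ) : ZMod r) = ((8 : ℕ) : ZMod r) * ((7 : ℕ) : ZMod r) *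
        ((4 : ℕ) : ZMod r) * ((3 : ℕ) : ZMod r) := by
      push_cast
      ring
    rw [e]
    exact mul_ne_zero (mul_ne_zero (mul_ne_zero (small_ne h9 (by omega) (by omega))
      (small_ne h9 (by omega) (by omega))) (small_ne h9 (by omega) (by omega)))
      (small_ne h9 (by omega) (by omega))
  exact sub_eq_zero.1 ((mul_eq_zero.1 h5).resolve_left h7)

/-- the eighth moment of the differences on the plane -/
theorem plane_eight (h62 : bs l 6 2 = -30 * (bs l 2 1 * bs l 4 1)) {s t : ZMod r}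
    (hst : s ^ 2 + 4 * t ^ 2 = 0) :
    ∑ P ∈ pts K, ∑ Q ∈ pts K,
      ((s * lam l P - t * dif l P) - (s * lam l Q - t * dif l Q)) ^ 8 =
        -268800 * (bs l 2 1 * bs l 4 1 * t ^ 8) := by
  have hr2 : r ≠ 2 := by omega
  have a00 := al_zero hl hK
  have a20 := al_cross_zero hl hK (i := 2) (by omega) (by omega)
  have a40 := al_cross_zero hl hK (i := 4) (by omega) (by omega)
  have a80 := al_cross_zero hl hK (i := 8) (by omega) (by omega)
  have a01 := al_diff_zero hr2 hl hK (j := 1) (by omega) (by omega)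
  have a02 := al_diff_zero hr2 hl hK (j := 2) (by omega) (by omega)
  have a03 := al_diff_zero hr2 hl hK (j := 3) (by omega) (by omega)
  have a04 := al_diff_zero hr2 hl hK (j := 4) (by omega) (by omega)
  have a08 := al_diff_zero hr2 hl hK (j := 8) (by omega) (by omega)
  have a10 := al_odd hr2 hl (i := 1) ⟨0, rfl⟩ 0
  have a11 := al_odd hr2 hl (i := 1) ⟨0, rfl⟩ 1
  have a12 := al_odd hr2 hl (i := 1) ⟨0, rfl⟩ 2
  have a13 := al_odd hr2 hl (i := 1) ⟨0, rfl⟩ 3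
  have a17 := al_odd hr2 hl (i := 1) ⟨0, rfl⟩ 7
  have a30 := al_odd hr2 hl (i := 3) ⟨1, rfl⟩ 0
  have a31 := al_odd hr2 hl (i := 3) ⟨1, rfl⟩ 1
  have a35 := al_odd hr2 hl (i := 3) ⟨1, rfl⟩ 5
  have a53 := al_odd hr2 hl (i := 5) ⟨2, rfl⟩ 3
  have a71 := al_odd hr2 hl (i := 7) ⟨3, rfl⟩ 1
  have h71 := bs71 hr2 hl h9
  have h5 : ((5 : ℕ) : ZMod r) ≠ 0 := small_ne h9 (by omega) (by omega)
  have h53 : bs l 5 3 = -45 * (bs l 2 1 * bs l 4 1) := by
    have h1 := bs53 hr2 hl h9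
    have h2 : (2 : ZMod r) * (bs l 5 3 - -45 * (bs l 2 1 * bs l 4 1)) = 0 := by
      linear_combination h1 + 3 * h62
    exact sub_eq_zero.1 ((mul_eq_zero.1 h2).resolve_left (two_ne hr2))
  have h44 : bs l 4 4 = -48 * (bs l 2 1 * bs l 4 1) := by
    have h1 := bs44 hr2 hl h9
    have h2 : ((5 : ℕ) : ZMod r) * (bs l 4 4 - -48 * (bs l 2 1 * bs l 4 1)) = 0 := by
      push_cast
      linear_combination h1 + 8 * h62
    exact sub_eq_zero.1 ((mul_eq_zero.1 h2).resolve_left h5)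
  have a21 : al l 2 1 = 0 := by
    rw [al_two hr2 hl hK one_pos (by omega), bs_comm 1 2]
    ring
  have a22 : al l 2 2 = 0 := by
    rw [al_two hr2 hl hK two_pos (by omega), bs31 hr2 hl (by omega), bs22 hr2 hl (by omega)]
    ring
  have a26 : al l 2 6 = 240 * (bs l 2 1 * bs l 4 1) := by
    rw [al_two hr2 hl hK (by omega) (by omega), h71, h62]
    ring
  have a62 : al l 6 2 = 60 * (bs l 2 1 * bs l 4 1) := by
    rw [al_four hr2 hl hK (by omega) (by omega), h71, h62]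
    ring
  have a44 := Helper44.KM.al44_eight hr2 hl h9 hK h62 h53 h44 h71 (bs32 hr2 hl h9)
  have m0 : ∑ P ∈ pts K, (s * lam l P - t * dif l P) ^ 0 = 2 := by
    rw [← a00, al]
    exact sum_congr rfl fun P _ => by ring
  have m1 : ∑ P ∈ pts K, (s * lam l P - t * dif l P) ^ 1 = 0 := by
    have e : ∑ P ∈ pts K, (s * lam l P - t * dif l P) ^ 1 =
        s * al l 1 0 - t * al l 0 1 := by
      simp only [al, mul_sum, ← sum_sub_distrib]
      exact sum_congr rfl fun P _ => by ring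
    rw [e, a10, a01]
    ring
  have m2 : ∑ P ∈ pts K, (s * lam l P - t * dif l P) ^ 2 = 0 := by
    have e : ∑ P ∈ pts K, (s * lam l P - t * dif l P) ^ 2 =
        s ^ 2 * al l 2 0 - 2 * s * t * al l 1 1 + t ^ 2 * al l 0 2 := by
      simp only [al, mul_sum, ← sum_add_distrib, ← sum_sub_distrib]
      exact sum_congr rfl fun P _ => by ring
    rw [e, a20, a11, a02]
    ring
  have m3 : ∑ P ∈ pts K, (s * lam l P - t * dif l P) ^ 3 = 0 := by
    have e : ∑ P ∈ pts K, (s * lam l P - t * dif l P) ^ 3 =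
        s ^ 3 * al l 3 0 - 3 * s ^ 2 * t * al l 2 1 + 3 * s * t ^ 2 * al l 1 2 -
          t ^ 3 * al l 0 3 := by
      simp only [al, mul_sum, ← sum_add_distrib, ← sum_sub_distrib]
      exact sum_congr rfl fun P _ => by ring
    rw [e, a30, a21, a12, a03]
    ring
  have m4 : ∑ P ∈ pts K, (s * lam l P - t * dif l P) ^ 4 = 0 := by
    have e : ∑ P ∈ pts K, (s * lam l P - t * dif l P) ^ 4 =
        s ^ 4 * al l 4 0 - 4 * s ^ 3 * t * al l 3 1 + 6 * s ^ 2 * t ^ 2 * al l 2 2 -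
          4 * s * t ^ 3 * al l 1 3 + t ^ 4 * al l 0 4 := by
      simp only [al, mul_sum, ← sum_add_distrib, ← sum_sub_distrib]
      exact sum_congr rfl fun P _ => by ring
    rw [e, a40, a31, a22, a13, a04]
    ring
  have m8 : ∑ P ∈ pts K, (s * lam l P - t * dif l P) ^ 8 =
      -67200 * (bs l 2 1 * bs l 4 1 * t ^ 8) := by
    have e : ∑ P ∈ pts K, (s * lam l P - t * dif l P) ^ 8 =
        s ^ 8 * al l 8 0 - 8 * s ^ 7 * t * al l 7 1 + 28 * s ^ 6 * t ^ 2 * al l 6 2 -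
          56 * s ^ 5 * t ^ 3 * al l 5 3 + 70 * s ^ 4 * t ^ 4 * al l 4 4 -
            56 * s ^ 3 * t ^ 5 * al l 3 5 + 28 * s ^ 2 * t ^ 6 * al l 2 6 -
              8 * s * t ^ 7 * al l 1 7 + t ^ 8 * al l 0 8 := by
      simp only [al, mul_sum, ← sum_add_distrib, ← sum_sub_distrib]
      exact sum_congr rfl fun P _ => by ring
    rw [e, a80, a71, a62, a53, a44, a35, a26, a17, a08]
    linear_combination (bs l 2 1 * bs l 4 1 * (1680 * t ^ 2 * s ^ 4 - 2520 * s ^ 2 * t ^ 4 +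
      16800 * t ^ 6)) * hst
  rw [eight, m0, m1, m2, m3, m4, m8]
  ring

theorem plane_eight_ne (h62 : bs l 6 2 = -30 * (bs l 2 1 * bs l 4 1)) (hb : bs l 2 1 ≠ 0)
    (hc : bs l 4 1 ≠ 0) {s t : ZMod r} (ht : t ≠ 0) (hst : s ^ 2 + 4 * t ^ 2 = 0) :
    ∑ P ∈ pts K, ∑ Q ∈ pts K,
      ((s * lam l P - t * dif l P) - (s * lam l Q - t * dif l Q)) ^ 8 ≠ 0 := by
  rw [plane_eight h9 hl hK h62 hst]
  have e : (-268800 : ZMod r) = -(((8 : ℕ) : ZMod r) * ((8 : ℕ) : ZMod r) * ((8 : ℕ) : ZMod r) *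
      ((3 : ℕ) : ZMod r) * ((5 : ℕ) : ZMod r) * ((5 : ℕ) : ZMod r) * ((7 : ℕ) : ZMod r)) := by
    push_cast
    ring
  rw [e]
  have n3 : ((3 : ℕ) : ZMod r) ≠ 0 := small_ne h9 (by omega) (by omega)
  have n5 : ((5 : ℕ) : ZMod r) ≠ 0 := small_ne h9 (by omega) (by omega)
  have n7 : ((7 : ℕ) : ZMod r) ≠ 0 := small_ne h9 (by omega) (by omega)
  have n8 : ((8 : ℕ) : ZMod r) ≠ 0 := small_ne h9 (by omega) (by omega)
  exact mul_ne_zero (neg_ne_zero.2 (mul_ne_zero (mul_ne_zero (mul_ne_zero (mul_ne_zero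
    (mul_ne_zero (mul_ne_zero n8 n8) n8) n3) n5) n5) n7))
    (mul_ne_zero (mul_ne_zero hb hc) (pow_ne_zero 8 ht))

end

section

variable {K L : Type} [Field K] [Fintype K] [Field L] [CharZero L] [IsAlgClosed L]
  {r : ℕ} [hr : Fact r.Prime]

theorem kummer_plane (hr9 : 9 < r) {n c k : ℕ} (hk : 0 < k) (hn : n = c * r ^ k) (hn0 : n ≠ 0)
    {τ : MulChar K L} (hτ : orderOf τ = Fintype.card K - 1)
    (hd : r ^ k ∣ Fintype.card K - 1) (s t : ℤ)
    (hs : (s : ZMod r) ≠ 0) (ht : (t : ZMod r) ≠ 0) {a : Fin 5 → ZMod n}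
    (ha : Permuted (planeVec ((c * s : ℤ) : ZMod n) ((c * t : ℤ) : ZMod n)) a)
    {l : K → ZMod r} (hl : ∀ x y, x ≠ 0 → y ≠ 0 → l (x * y) = l x + l y)
    (hB : ∑ x, l x ^ 2 * l (1 - x) ≠ 0) (hC : ∑ x, l x ^ 4 * l (1 - x) ≠ 0) :
    quad (ch τ (a 0)) (ch τ (a 1)) (ch τ (a 2)) (ch τ (a 3)) (ch τ (a 4)) *
      quad (ch τ (a 0))⁻¹ (ch τ (a 1))⁻¹ (ch τ (a 2))⁻¹ (ch τ (a 3))⁻¹ (ch τ (a 4))⁻¹ ≠
        4 * (Fintype.card K : L) ^ 2 := by
  by_cases hst0 : ((s ^ 2 + 4 * t ^ 2 : ℤ) : ZMod r) = 0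
  swap
  · refine kummer_ne (by omega) hk hn hn0 hτ hd s t ?_ ha hl hB
    rw [Int.cast_mul, Int.cast_mul]
    exact mul_ne_zero (mul_ne_zero hs ht) hst0
  classical
  have : NeZero n := ⟨hn0⟩
  have hr2 : r ≠ 2 := by omega
  have hro : Odd (r ^ k) := (hr.out.odd_of_ne_two hr2).pow
  have : NeZero (r ^ k) := ⟨pow_ne_zero k hr.out.ne_zero⟩
  -- the exponents are allowed
  have hok : ∀ w : ℤ, Ok τ ((c * w : ℤ) : ZMod n) := by
    intro w
    have h1 : ((c * r ^ k : ℕ) : ZMod n) = 0 := by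
      rw [← hn]
      exact ZMod.natCast_self n
    obtain ⟨m, hm⟩ := hd
    have h2 : ((Fintype.card K - 1 : ℕ) : ZMod n) * ((c * w : ℤ) : ZMod n) = 0 := by
      rw [hm]
      push_cast at h1 ⊢
      linear_combination ((m : ZMod n) * w) * h1
    have h3 : ((r ^ k : ℕ) : ZMod n) * ((c * w : ℤ) : ZMod n) = 0 := by
      push_cast at h1 ⊢
      linear_combination (w : ZMod n) * h1
    refine ⟨h2, ?_⟩
    have h4 : (ch τ ((c * w : ℤ) : ZMod n) (-1)) ^ (r ^ k) = 1 := by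
      rw [← MulChar.pow_apply' _ (NeZero.ne (r ^ k)), ch_pow hτ h2 h3,
        MulChar.one_apply (isUnit_iff_ne_zero.2 (neg_ne_zero.2 one_ne_zero))]
    have h5 : (ch τ ((c * w : ℤ) : ZMod n) (-1)) ^ 2 = 1 := by
      rw [← map_pow, neg_one_sq, map_one]
    obtain ⟨i, hi⟩ := hro
    rw [hi, pow_succ, pow_mul, h5, one_pow, one_mul] at h4
    exact h4
  have hok0 : ∀ i, Ok τ (planeVec ((c * s : ℤ) : ZMod n) ((c * t : ℤ) : ZMod n) i) := by
    intro i
    fin_cases i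
    exacts [hok s, (hok s).neg hτ, (hok s).neg hτ, hok s, (hok t).neg hτ]
  obtain ⟨hoka, h1, h2⟩ := qs_permuted hτ ha hok0
  have hinv : quad (ch τ (a 0))⁻¹ (ch τ (a 1))⁻¹ (ch τ (a 2))⁻¹ (ch τ (a 3))⁻¹ (ch τ (a 4))⁻¹ =
      qs τ (-a) := by
    rw [qs]
    simp only [Pi.neg_apply]
    rw [ch_neg hτ (hoka 0).1, ch_neg hτ (hoka 1).1, ch_neg hτ (hoka 2).1, ch_neg hτ (hoka 3).1,
      ch_neg hτ (hoka 4).1]
  have hdir : quad (ch τ (a 0)) (ch τ (a 1)) (ch τ (a 2)) (ch τ (a 3)) (ch τ (a 4)) =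
      qs τ a := rfl
  rw [hinv, hdir, h1, h2]
  -- reduction to the modulus `r ^ k`
  have hch : ∀ w : ℤ, ch τ ((c * w : ℤ) : ZMod n) = ch τ ((w : ℤ) : ZMod (r ^ k)) := by
    intro w
    have hc0 : 0 < c := by
      rcases c.eq_zero_or_pos with h0 | h0
      · rw [h0, zero_mul] at hn
        exact absurd hn hn0
      · exact h0
    rw [ch, ch]
    congr 1
    have h3 := val_smul hn hn0 w
    rw [h3]
    conv_lhs => rw [hn]
    rw [mul_left_comm]
    exact Nat.mul_div_mul_left _ _ hc0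
  have hneg : ∀ w : ℤ, ch τ (-((c * w : ℤ) : ZMod n)) = ch τ (-((w : ℤ) : ZMod (r ^ k))) := by
    intro w
    have h3 := hch (-w)
    push_cast at h3 ⊢
    rw [mul_neg] at h3
    exact h3
  set S : ZMod (r ^ k) := (s : ZMod (r ^ k)) with hS
  set T : ZMod (r ^ k) := (t : ZMod (r ^ k)) with hT
  have e1 : qs τ (planeVec ((c * s : ℤ) : ZMod n) ((c * t : ℤ) : ZMod n)) =
      qs τ (planeVec S T) := by
    rw [qs, qs]
    simp only [planeVec, Matrix.cons_val]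
    rw [hch, hneg, hneg]
  have e2 : qs τ (-planeVec ((c * s : ℤ) : ZMod n) ((c * t : ℤ) : ZMod n)) =
      qs τ (-planeVec S T) := by
    rw [qs, qs]
    simp only [planeVec, Pi.neg_apply, Matrix.cons_val, neg_neg]
    rw [hch, hneg, hch]
  rw [e1, e2]
  -- the logarithms
  obtain ⟨z, e, hz, hadd, he, x₀, hx₀, hred⟩ := exists_log hk hτ hd
  have hL := lg_isLog hk hadd
  have hK := card_one (r := r) hk hd
  have hphi : 8 < r ^ k - r ^ (k - 1) := by
    obtain ⟨k', rfl⟩ : ∃ k', k = k' + 1 := ⟨k - 1, by omega⟩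
    rw [Nat.add_sub_cancel, pow_succ]
    have h1 : 1 ≤ r ^ k' := Nat.one_le_pow _ _ hr.out.pos
    have h2 : r ^ k' * 10 ≤ r ^ k' * r := Nat.mul_le_mul_left _ (by omega)
    omega
  have hJ := pair_moment hk hz _ _ _ (jac_abs (by omega) hk hτ hd hz he) (k := 8) (by omega) hphi
  have h62 : bs (lg hk e) 6 2 = -30 * (bs (lg hk e) 2 1 * bs (lg hk e) 4 1) := by
    refine bs62 hr9 hL hK ?_
    rw [← hJ]
    refine sum_congr rfl fun x hx => sum_congr rfl fun y hy => ?_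
    rw [mem_erase, mem_erase] at hx hy
    rw [lg_of_ne hk e hx.2.1, lg_of_ne hk e (sub_ne_zero.2 hx.1.symm), lg_of_ne hk e hy.2.1,
      lg_of_ne hk e (sub_ne_zero.2 hy.1.symm), map_add, map_add]
  have hbs : ∀ i : ℕ, i ≠ 0 → ∑ x, l x ^ i * l (1 - x) ≠ 0 → bs (lg hk e) i 1 ≠ 0 := by
    intro i hi hne
    obtain ⟨κ, hκ⟩ := proportional (l := lg hk e) (l' := l) hL.mul hl hx₀ (by
      rwa [lg_of_ne hk e hx₀])
    intro h0
    apply hne
    have h1' : l 1 = 0 := by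
      have h := hl 1 1 one_ne_zero one_ne_zero
      rw [mul_one] at h
      linear_combination -h
    have h3 : ∑ x, l x ^ i * l (1 - x) = κ ^ (i + 1) * bs (lg hk e) i 1 := by
      rw [bs, mul_sum]
      refine sum_congr rfl fun x _ => ?_
      by_cases hx : x = 0
      · rw [hx, sub_zero, h1', hL.zero, zero_pow hi]
        ring
      by_cases hx1 : x = 1
      · rw [hx1, sub_self, h1', hL.zero, hL.one, zero_pow hi]
        ring
      rw [hκ x hx, hκ _ (sub_ne_zero.2 (Ne.symm hx1))]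
      ring
    rw [h3, h0, mul_zero]
  have hst' : red r k hk S ^ 2 + 4 * red r k hk T ^ 2 = 0 := by
    rw [hS, hT, map_intCast, map_intCast]
    push_cast at hst0
    exact hst0
  have ht' : red r k hk T ≠ 0 := by
    rw [hT, map_intCast]
    exact ht
  intro heq
  apply plane_eight_ne hr9 hL hK h62 (hbs 2 two_ne_zero hB) (hbs 4 four_ne_zero hC) ht' hst'
  have q1 : qs τ (planeVec S T) = ∑ P ∈ pts K, z ^ (expo e (planeVec S T) P).val :=
    quad_sum hz.pow_eq_one he (planeVec S T)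
  have q2 : qs τ (-planeVec S T) = ∑ P ∈ pts K, z ^ (-expo e (planeVec S T) P).val := by
    have h3 : qs τ (-planeVec S T) = ∑ P ∈ pts K, z ^ (expo e (-planeVec S T) P).val :=
      quad_sum hz.pow_eq_one he (-planeVec S T)
    rw [h3]
    refine sum_congr rfl fun P _ => ?_
    congr 2
    simp only [expo, Pi.neg_apply]
    ring
  have h8 := pair_moment hk hz (pts K) (expo e (planeVec S T)) (4 * (Fintype.card K : ℤ) ^ 2)
    (by
      rw [← q1, ← q2, heq]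
      push_cast
      ring) (k := 8) (by omega) hphi
  rw [← h8]
  have hval : ∀ P ∈ pts K, red r k hk (expo e (planeVec S T) P) =
      red r k hk S * lam (lg hk e) P - red r k hk T * dif (lg hk e) P := by
    intro P hP
    rw [mem_pts] at hP
    obtain ⟨hx0, hx1, hy0, hy1, hxy⟩ := hP
    simp only [expo, planeVec, Matrix.cons_val, lam, dif]
    rw [lg_of_ne hk e hx0, lg_of_ne hk e (sub_ne_zero.2 hx1.symm), lg_of_ne hk e hy0,
      lg_of_ne hk e (sub_ne_zero.2 hy1.symm), lg_of_ne hk e (sub_ne_zero.2 hxy)]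
    simp only [map_add, map_mul, map_neg]
    ring
  refine sum_congr rfl fun P hP => sum_congr rfl fun Q hQ => ?_
  rw [hval P hP, hval Q hQ]

end

end Pool.Agent.Helper79.KM
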