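import Pool.Agent.Helper79.KM.Plane
import Pool.Agent.Helper79.KM.Pair

/-!
# The sixth moment on the plane of the vectors `(s, -s, -s, s, -t)`
-/

open Finset

namespace Pool.Agent.Helper79.KM

section

variable {K : Type*} [Field K] [Fintype K] [DecidableEq K] {r : ℕ} {l : K → ZMod r}
  [hr : Fact r.Prime] (hr7 : 7 < r) (hl : IsLog l) (hK : (Fintype.card K : ZMod r) = 1)

include hr7 hl hK

/-- the value of the sixth moment of one variable given by the absolute value of a Jacobi sum -/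
theorem bs42 (h : ∑ x, ∑ y, ((l x + l (1 - x)) - (l y + l (1 - y))) ^ 6 =
    4 * ∑ y, (l y + l (1 - y)) ^ 6) : bs l 4 2 = -6 * bs l 2 1 ^ 2 := by
  obtain ⟨h1, h2, h3, h4, h6⟩ := one_moments (by omega : r ≠ 2) hl hr7
  rw [six, h1, h2, h3, h4, h6] at h
  simp only [pow_zero, sum_const, card_univ, nsmul_eq_mul, mul_one, hK] at h
  have h5 : ((120 : ℕ) : ZMod r) * (bs l 4 2 + 6 * bs l 2 1 ^ 2) = 0 := by
    push_cast
    linear_combination -h
  have h7 : ((120 : ℕ) : ZMod r) ≠ 0 := natCast_ne fun q hq hq' => by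
    have h8 : q ∣ 2 ^ 3 * 3 * 5 := by
      have : 2 ^ 3 * 3 * 5 = 120 := by norm_num
      rwa [this]
    rcases (Nat.Prime.dvd_mul hq).1 h8 with h9 | h9
    · rcases (Nat.Prime.dvd_mul hq).1 h9 with h10 | h10
      · have := (Nat.prime_dvd_prime_iff_eq hq Nat.prime_two).1 (hq.dvd_of_dvd_pow h10)
        omega
      · have := (Nat.prime_dvd_prime_iff_eq hq Nat.prime_three).1 h10
        omega
    · have := (Nat.prime_dvd_prime_iff_eq hq Nat.prime_five).1 h9
      omega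
  linear_combination (mul_eq_zero.1 h5).resolve_left h7

/-- the sixth moment of the differences on the plane -/
theorem plane_six (h42 : bs l 4 2 = -6 * bs l 2 1 ^ 2) (s t : ZMod r) :
    ∑ P ∈ pts K, ∑ Q ∈ pts K,
      ((s * lam l P - t * dif l P) - (s * lam l Q - t * dif l Q)) ^ 6 =
        720 * (bs l 2 1 ^ 2 * (s ^ 2 * t ^ 2 * (s ^ 2 + 4 * t ^ 2))) := by
  have hr2 : r ≠ 2 := by omega
  have a00 := al_zero hl hK
  have a20 := al_cross_zero hl hK (i := 2) (by omega) (by omega)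
  have a40 := al_cross_zero hl hK (i := 4) (by omega) (by omega)
  have a60 := al_cross_zero hl hK (i := 6) (by omega) (by omega)
  have a01 := al_diff_zero hr2 hl hK (j := 1) (by omega) (by omega)
  have a02 := al_diff_zero hr2 hl hK (j := 2) (by omega) (by omega)
  have a03 := al_diff_zero hr2 hl hK (j := 3) (by omega) (by omega)
  have a04 := al_diff_zero hr2 hl hK (j := 4) (by omega) (by omega)
  have a06 := al_diff_zero hr2 hl hK (j := 6) (by omega) (by omega)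
  have a10 := al_odd hr2 hl (i := 1) ⟨0, rfl⟩ 0
  have a11 := al_odd hr2 hl (i := 1) ⟨0, rfl⟩ 1
  have a12 := al_odd hr2 hl (i := 1) ⟨0, rfl⟩ 2
  have a13 := al_odd hr2 hl (i := 1) ⟨0, rfl⟩ 3
  have a15 := al_odd hr2 hl (i := 1) ⟨0, rfl⟩ 5
  have a30 := al_odd hr2 hl (i := 3) ⟨1, rfl⟩ 0
  have a31 := al_odd hr2 hl (i := 3) ⟨1, rfl⟩ 1
  have a33 := al_odd hr2 hl (i := 3) ⟨1, rfl⟩ 3
  have a51 := al_odd hr2 hl (i := 5) ⟨2, rfl⟩ 1
  have a21 : al l 2 1 = 0 := by
    rw [al_two hr2 hl hK one_pos (by omega), bs_comm 1 2]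
    ring
  have a22 : al l 2 2 = 0 := by
    rw [al_two hr2 hl hK two_pos (by omega), bs31 hr2 hl (by omega), bs22 hr2 hl (by omega)]
    ring
  have a24 : al l 2 4 = 48 * bs l 2 1 ^ 2 := by
    rw [al_two hr2 hl hK (by omega) (by omega), bs51 hr2 hl hr7, h42]
    ring
  have a42 : al l 4 2 = 12 * bs l 2 1 ^ 2 := by
    rw [al_four hr2 hl hK (by omega) (by omega), bs51 hr2 hl hr7, h42]
    ring
  have m0 : ∑ P ∈ pts K, (s * lam l P - t * dif l P) ^ 0 = 2 := by
    rw [← a00, al]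
    exact sum_congr rfl fun P _ => by ring
  have m1 : ∑ P ∈ pts K, (s * lam l P - t * dif l P) ^ 1 = 0 := by
    have e : ∑ P ∈ pts K, (s * lam l P - t * dif l P) ^ 1 =
        s * al l 1 0 - t * al l 0 1 := by
      simp only [al, mul_sum, ← sum_add_distrib, ← sum_sub_distrib]
      exact sum_congr rfl fun P _ => by ring
    rw [e, a10, a01]
    ring
  have m2 : ∑ P ∈ pts K, (s * lam l P - t * dif l P) ^ 2 = 0 := by
    have e : ∑ P ∈ pts K, (s * lam l P - t * dif l P) ^ 2 =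
        s ^ 2 * al l 2 0 - 2 * s * t * al l 1 1 + t ^ 2 * al l 0 2 := by
      simp only [al, mul_sum, ← sum_add_distrib, ← sum_sub_distrib]
      exact sum_congr rfl fun P _ => by ring
    rw [e, a20, a11, a02]
    ring
  have m3 : ∑ P ∈ pts K, (s * lam l P - t * dif l P) ^ 3 = 0 := by
    have e : ∑ P ∈ pts K, (s * lam l P - t * dif l P) ^ 3 =
        s ^ 3 * al l 3 0 - 3 * s ^ 2 * t * al l 2 1 + 3 * s * t ^ 2 * al l 1 2 -
          t ^ 3 * al l 0 3 := by
      simp only [al, mul_sum, ← sum_add_distrib, ← sum_sub_distrib]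
      exact sum_congr rfl fun P _ => by ring
    rw [e, a30, a21, a12, a03]
    ring
  have m6 : ∑ P ∈ pts K, (s * lam l P - t * dif l P) ^ 6 =
      180 * (bs l 2 1 ^ 2 * (s ^ 2 * t ^ 2 * (s ^ 2 + 4 * t ^ 2))) := by
    have e : ∑ P ∈ pts K, (s * lam l P - t * dif l P) ^ 6 =
        s ^ 6 * al l 6 0 - 6 * s ^ 5 * t * al l 5 1 + 15 * s ^ 4 * t ^ 2 * al l 4 2 -
          20 * s ^ 3 * t ^ 3 * al l 3 3 + 15 * s ^ 2 * t ^ 4 * al l 2 4 -
            6 * s * t ^ 5 * al l 1 5 + t ^ 6 * al l 0 6 := by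
      simp only [al, mul_sum, ← sum_add_distrib, ← sum_sub_distrib]
      exact sum_congr rfl fun P _ => by ring
    rw [e, a60, a51, a42, a33, a24, a15, a06]
    ring
  rw [six, m0, m1, m2, m3, m6]
  ring

theorem plane_ne (h42 : bs l 4 2 = -6 * bs l 2 1 ^ 2) (hb : bs l 2 1 ≠ 0) {s t : ZMod r}
    (hst : s * t * (s ^ 2 + 4 * t ^ 2) ≠ 0) :
    ∑ P ∈ pts K, ∑ Q ∈ pts K,
      ((s * lam l P - t * dif l P) - (s * lam l Q - t * dif l Q)) ^ 6 ≠ 0 := by
  rw [plane_six hr7 hl hK h42]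
  have h7 : ((720 : ℕ) : ZMod r) ≠ 0 := natCast_ne fun q hq hq' => by
    have h8 : q ∣ 2 ^ 4 * 3 ^ 2 * 5 := by
      have : 2 ^ 4 * 3 ^ 2 * 5 = 720 := by norm_num
      rwa [this]
    rcases (Nat.Prime.dvd_mul hq).1 h8 with h9 | h9
    · rcases (Nat.Prime.dvd_mul hq).1 h9 with h10 | h10
      · have := (Nat.prime_dvd_prime_iff_eq hq Nat.prime_two).1 (hq.dvd_of_dvd_pow h10)
        omega
      · have := (Nat.prime_dvd_prime_iff_eq hq Nat.prime_three).1 (hq.dvd_of_dvd_pow h10)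
        omega
    · have := (Nat.prime_dvd_prime_iff_eq hq Nat.prime_five).1 h9
      omega
  have h8 : (720 : ZMod r) ≠ 0 := by exact_mod_cast h7
  have h9 : s ≠ 0 := fun h => hst (by rw [h]; ring)
  have h10 : t ≠ 0 := fun h => hst (by rw [h]; ring)
  have h11 : s ^ 2 + 4 * t ^ 2 ≠ 0 := fun h => hst (by rw [h]; ring)
  exact mul_ne_zero h8 (mul_ne_zero (pow_ne_zero 2 hb)
    (mul_ne_zero (mul_ne_zero (pow_ne_zero 2 h9) (pow_ne_zero 2 h10)) h11))

end

end Pool.Agent.Helper79.KM
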