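import Pool.Agent.Helper79.KM.Alt

/-!
# The third and the sixth moment of the logarithms on the complement of the quadrilateral
-/

open Finset

namespace Pool.Agent.Helper79.KM

section

variable {K : Type*} [Field K] [Fintype K] [DecidableEq K] {r : ℕ} {l : K → ZMod r}

theorem alt_mo (k : ℕ) (a b c d e : ZMod r) :
    alt (fun a b c d e => mo l a b c d e k) a b c d e =
      ∑ P ∈ pts K, alt (fun a b c d e => ex l a b c d e P ^ k) a b c d e := by
  simp only [alt, mo, sum_add_distrib, sum_sub_distrib]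

omit [Fintype K] [DecidableEq K] in
theorem alt_ex_one (P : K × K) (a b c d e : ZMod r) :
    alt (fun a b c d e => ex l a b c d e P ^ 1) a b c d e = 0 := by
  simp only [alt, ex]
  ring

omit [Fintype K] [DecidableEq K] in
theorem alt_ex_two (P : K × K) (a b c d e : ZMod r) :
    alt (fun a b c d e => ex l a b c d e P ^ 2) a b c d e = 0 := by
  simp only [alt, ex]
  ring

omit [Fintype K] [DecidableEq K] in
theorem alt_ex_three (P : K × K) (a b c d e : ZMod r) :
    alt (fun a b c d e => ex l a b c d e P ^ 3) a b c d e = 0 := by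
  simp only [alt, ex]
  ring

/-- the product of the logarithms of the five functions -/
def pr (l : K → ZMod r) (P : K × K) : ZMod r :=
  l P.1 * l (1 - P.1) * l P.2 * l (1 - P.2) * l (P.1 - P.2)

omit [Fintype K] [DecidableEq K] in
theorem alt_ex_six (P : K × K) (a b c d e : ZMod r) :
    alt (fun a b c d e => ex l a b c d e P ^ 6) a b c d e =
      360 * (a * b * c * d * e) * (a * (pr l P * l P.1) + b * (pr l P * l (1 - P.1)) +
        c * (pr l P * l P.2) + d * (pr l P * l (1 - P.2)) + e * (pr l P * l (P.1 - P.2))) := by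
  simp only [alt, ex, pr]
  generalize l P.1 = u
  generalize l (1 - P.1) = v
  generalize l P.2 = w
  generalize l (1 - P.2) = x
  generalize l (P.1 - P.2) = y
  ring

theorem alt_mo_six (a b c d e : ZMod r) :
    alt (fun a b c d e => mo l a b c d e 6) a b c d e =
      360 * (a * b * c * d * e) * (a * (∑ P ∈ pts K, pr l P * l P.1) +
        b * (∑ P ∈ pts K, pr l P * l (1 - P.1)) + c * (∑ P ∈ pts K, pr l P * l P.2) +
          d * (∑ P ∈ pts K, pr l P * l (1 - P.2)) +
            e * (∑ P ∈ pts K, pr l P * l (P.1 - P.2))) := by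
  rw [alt_mo]
  simp only [alt_ex_six]
  rw [← mul_sum]
  simp only [sum_add_distrib, mul_sum]

end

section

variable {K : Type*} [Field K] [Fintype K] [DecidableEq K] {r : ℕ} {l : K → ZMod r}
  [hr : Fact r.Prime] (hr2 : r ≠ 2) (hl : IsLog l)

include hr2 hl

theorem Good.swap {a b c d e : ZMod r} (h : Good l c d a b e) : Good l a b c d e := by
  refine ⟨?_, ?_, ?_, ?_⟩
  · rw [mo_swap hr2 hl, h.one]
  · rw [mo_swap hr2 hl, h.two]
  · rw [mo_swap hr2 hl, h.three, sS3_swap]
  · rw [mo_swap hr2 hl, h.six, sG_swap]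

theorem Good.zeroOne {a b c d e : ZMod r} (h : Good l b a d c e) : Good l a b c d e := by
  refine ⟨?_, ?_, ?_, ?_⟩
  · rw [mo_zeroOne hr2 hl, h.one]
  · rw [mo_zeroOne hr2 hl, h.two]
  · rw [mo_zeroOne hr2 hl, h.three, sS3_zeroOne]
  · rw [mo_zeroOne hr2 hl, h.six, sG_zeroOne]

theorem Good.zeroInf {a b c d e : ZMod r} (h : Good l (-(a + b + e)) b (-(c + d + e)) d e) :
    Good l a b c d e := by
  refine ⟨?_, ?_, ?_, ?_⟩
  · rw [mo_zeroInf hr2 hl, h.one]
  · rw [mo_zeroInf hr2 hl, h.two]
  · rw [mo_zeroInf hr2 hl, h.three, sS3_zeroInf a b c d e]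
  · rw [mo_zeroInf hr2 hl, h.six, sG_zeroInf a b c d e]

theorem Good.oneY {a b c d e : ZMod r} (h : Good l a e (-(a + b + c + d + e)) d b) :
    Good l a b c d e := by
  refine ⟨?_, ?_, ?_, ?_⟩
  · rw [mo_oneY hr2 hl, h.one]
  · rw [mo_oneY hr2 hl, h.two]
  · rw [mo_oneY hr2 hl, h.three, sS3_oneY a b c d e]
  · rw [mo_oneY hr2 hl, h.six, sG_oneY a b c d e]

end

section

variable {K : Type*} [Field K] [Fintype K] [DecidableEq K] {r : ℕ} {l : K → ZMod r}
  [hr : Fact r.Prime] (hr7 : 7 < r) (hl : IsLog l) (hK : (Fintype.card K : ZMod r) = 1)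
  (h42 : bs l 4 2 = -6 * bs l 2 1 ^ 2)

include hr7 hl hK h42

theorem good_b (a c d e : ZMod r) : Good l a 0 c d e := by
  apply Good.oneY (by omega) hl
  exact good_zero hl hK hr7 h42 _ _ _ _

theorem good_a (b c d e : ZMod r) : Good l 0 b c d e := by
  apply Good.zeroOne (by omega) hl
  exact good_b hr7 hl hK h42 _ _ _ _

theorem good_d (a b c e : ZMod r) : Good l a b c 0 e := by
  apply Good.swap (by omega) hl
  exact good_b hr7 hl hK h42 _ _ _ _

theorem good_c (a b d e : ZMod r) : Good l a b 0 d e := by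
  apply Good.swap (by omega) hl
  exact good_a hr7 hl hK h42 _ _ _ _

theorem good_abe {a b c d e : ZMod r} (h : a + b + e = 0) : Good l a b c d e := by
  apply Good.zeroInf (by omega) hl
  rw [h, neg_zero]
  exact good_a hr7 hl hK h42 _ _ _ _

theorem good_cde {a b c d e : ZMod r} (h : c + d + e = 0) : Good l a b c d e := by
  apply Good.swap (by omega) hl
  exact good_abe hr7 hl hK h42 h

/-- the values of the moments -/
theorem good (a b c d e : ZMod r) : Good l a b c d e := by
  have hr2 : r ≠ 2 := by omega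
  have h0 := good_a hr7 hl hK h42
  have h1 := good_b hr7 hl hK h42
  have h2 := good_c hr7 hl hK h42
  have h3 := good_d hr7 hl hK h42
  have h4 := good_zero hl hK hr7 h42
  refine ⟨?_, ?_, ?_, ?_⟩
  · rw [← alt_of_zero (F := fun a b c d e => mo l a b c d e 1) (fun b c d e => (h0 b c d e).one)
      (fun a c d e => (h1 a c d e).one) (fun a b d e => (h2 a b d e).one)
      (fun a b c e => (h3 a b c e).one) (fun a b c d => (h4 a b c d).one), alt_mo]
    exact sum_eq_zero fun P _ => alt_ex_one P a b c d e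
  · rw [← alt_of_zero (F := fun a b c d e => mo l a b c d e 2) (fun b c d e => (h0 b c d e).two)
      (fun a c d e => (h1 a c d e).two) (fun a b d e => (h2 a b d e).two)
      (fun a b c e => (h3 a b c e).two) (fun a b c d => (h4 a b c d).two), alt_mo]
    exact sum_eq_zero fun P _ => alt_ex_two P a b c d e
  · rw [← sub_eq_zero, ← alt_of_zero
      (F := fun a b c d e => mo l a b c d e 3 - bs l 2 1 * sS 3 a b c d e)
      (fun b c d e => sub_eq_zero.2 (h0 b c d e).three)
      (fun a c d e => sub_eq_zero.2 (h1 a c d e).three)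
      (fun a b d e => sub_eq_zero.2 (h2 a b d e).three)
      (fun a b c e => sub_eq_zero.2 (h3 a b c e).three)
      (fun a b c d => sub_eq_zero.2 (h4 a b c d).three)]
    have e1 : alt (fun a b c d e => mo l a b c d e 3 - bs l 2 1 * sS 3 a b c d e) a b c d e =
        alt (fun a b c d e => mo l a b c d e 3) a b c d e -
          bs l 2 1 * alt (fun a b c d e => sS 3 a b c d e) a b c d e := by
      simp only [alt]
      ring
    rw [e1, alt_sS3, alt_mo, mul_zero, sub_zero]
    exact sum_eq_zero fun P _ => alt_ex_three P a b c d e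
  · -- the sixth moment
    set w0 := ∑ P ∈ pts K, pr l P * l P.1 with hw0
    set w1 := ∑ P ∈ pts K, pr l P * l (1 - P.1) with hw1
    set w2 := ∑ P ∈ pts K, pr l P * l P.2 with hw2
    set w3 := ∑ P ∈ pts K, pr l P * l (1 - P.2) with hw3
    set w4 := ∑ P ∈ pts K, pr l P * l (P.1 - P.2) with hw4
    set B := bs l 2 1 with hB
    have key : ∀ a b c d e : ZMod r, 4 * mo l a b c d e 6 - 15 * (B ^ 2 * sG a b c d e) =
        (a * b * c * d * e) * (a * (1440 * w0 - 12240 * B ^ 2) + b * (1440 * w1 - 12240 * B ^ 2) +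
          c * (1440 * w2 - 12240 * B ^ 2) + d * (1440 * w3 - 12240 * B ^ 2) +
            e * (1440 * w4 - 12240 * B ^ 2)) := by
      intro a b c d e
      rw [← alt_of_zero
        (F := fun a b c d e => 4 * mo l a b c d e 6 - 15 * (B ^ 2 * sG a b c d e))
        (fun b c d e => sub_eq_zero.2 (h0 b c d e).six)
        (fun a c d e => sub_eq_zero.2 (h1 a c d e).six)
        (fun a b d e => sub_eq_zero.2 (h2 a b d e).six)
        (fun a b c e => sub_eq_zero.2 (h3 a b c e).six)
        (fun a b c d => sub_eq_zero.2 (h4 a b c d).six)]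
      have e1 : alt (fun a b c d e => 4 * mo l a b c d e 6 - 15 * (B ^ 2 * sG a b c d e))
          a b c d e = 4 * alt (fun a b c d e => mo l a b c d e 6) a b c d e -
            15 * (B ^ 2 * alt (fun a b c d e => sG a b c d e) a b c d e) := by
        simp only [alt]
        ring
      rw [e1, alt_sG, alt_mo_six, ← hw0, ← hw1, ← hw2, ← hw3, ← hw4]
      ring
    set m0 := 1440 * w0 - 12240 * B ^ 2 with hm0
    set m1 := 1440 * w1 - 12240 * B ^ 2 with hm1
    set m2 := 1440 * w2 - 12240 * B ^ 2 with hm2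
    set m3 := 1440 * w3 - 12240 * B ^ 2 with hm3
    set m4 := 1440 * w4 - 12240 * B ^ 2 with hm4
    have k0 : (0 : ZMod r) = (1 * 1 * 1 * 1 * (-2)) * (1 * m0 + 1 * m1 + 1 * m2 + 1 * m3 +
        (-2) * m4) := by
      rw [← key]
      exact (sub_eq_zero.2 (good_abe hr7 hl hK h42 (by norm_num)).six).symm
    have k1 : (0 : ZMod r) = (1 * 1 * 2 * 1 * (-2)) * (1 * m0 + 1 * m1 + 2 * m2 + 1 * m3 +
        (-2) * m4) := by
      rw [← key]
      exact (sub_eq_zero.2 (good_abe hr7 hl hK h42 (by norm_num)).six).symm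
    have k2 : (0 : ZMod r) = (1 * 1 * 1 * 2 * (-2)) * (1 * m0 + 1 * m1 + 1 * m2 + 2 * m3 +
        (-2) * m4) := by
      rw [← key]
      exact (sub_eq_zero.2 (good_abe hr7 hl hK h42 (by norm_num)).six).symm
    have k3 : (0 : ZMod r) = (2 * 1 * 1 * 1 * (-2)) * (2 * m0 + 1 * m1 + 1 * m2 + 1 * m3 +
        (-2) * m4) := by
      rw [← key]
      exact (sub_eq_zero.2 (good_cde hr7 hl hK h42 (by norm_num)).six).symm
    have k4 : (0 : ZMod r) = (1 * 2 * 1 * 1 * (-2)) * (1 * m0 + 2 * m1 + 1 * m2 + 1 * m3 +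
        (-2) * m4) := by
      rw [← key]
      exact (sub_eq_zero.2 (good_cde hr7 hl hK h42 (by norm_num)).six).symm
    have ht := two_ne hr2
    have ht4 : (4 : ZMod r) ≠ 0 := by
      have : (4 : ZMod r) = 2 * 2 := by norm_num
      rw [this]
      exact mul_ne_zero ht ht
    have z2 : m2 = 0 := (mul_eq_zero.1 (by linear_combination k1 - 2 * k0 :
      (4 : ZMod r) * m2 = 0)).resolve_left ht4
    have z3 : m3 = 0 := (mul_eq_zero.1 (by linear_combination k2 - 2 * k0 :
      (4 : ZMod r) * m3 = 0)).resolve_left ht4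
    have z0 : m0 = 0 := (mul_eq_zero.1 (by linear_combination k3 - 2 * k0 :
      (4 : ZMod r) * m0 = 0)).resolve_left ht4
    have z1 : m1 = 0 := (mul_eq_zero.1 (by linear_combination k4 - 2 * k0 :
      (4 : ZMod r) * m1 = 0)).resolve_left ht4
    have z4 : m4 = 0 := by
      rw [z0, z1, z2, z3] at k0
      exact (mul_eq_zero.1 (by linear_combination -k0 :
        (4 : ZMod r) * m4 = 0)).resolve_left ht4
    rw [← sub_eq_zero, key a b c d e, z0, z1, z2, z3, z4]
    ring

end

end Pool.Agent.Helper79.KM
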