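import Pool.Agent.Helper79.KM.Seven
import Pool.Agent.Helper79.KM.Full

/-!
# The third and the sixth moment for all primes greater than five
-/

open Finset

namespace Pool.Agent.Helper79.KM

section

variable {R : Type*} [CommRing R]

theorem sS6_zero (a b c d : R) : sS 6 a b c d 0 =
    a ^ 6 + b ^ 6 + (a + b) ^ 6 + (c ^ 6 + d ^ 6 + (c + d) ^ 6) +
      ((a + c) ^ 6 + (b + d) ^ 6 + (a + b + c + d) ^ 6) := by
  simp only [sS]
  ring

theorem sS6_swap (a b c d e : R) : sS 6 a b c d e = sS 6 c d a b e := by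
  simp only [sS]
  ring

theorem sS6_zeroOne (a b c d e : R) : sS 6 a b c d e = sS 6 b a d c e := by
  simp only [sS]
  ring

theorem sS6_zeroInf (a b c d e : R) :
    sS 6 a b c d e = sS 6 (-(a + b + e)) b (-(c + d + e)) d e := by
  simp only [sS]
  ring

theorem sS6_oneY (a b c d e : R) : sS 6 a b c d e = sS 6 a e (-(a + b + c + d + e)) d b := by
  simp only [sS]
  ring

theorem alt_sS6 (a b c d e : R) : alt (fun a b c d e => sS 6 a b c d e) a b c d e =
    360 * (a * b * c * d * e * (a + b + c + d + e)) := by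
  simp only [alt, sS]
  ring

end

section

variable {K : Type*} [Field K] [Fintype K] [DecidableEq K] {r : ℕ} {l : K → ZMod r}

/-- the values of the moments for the exponents -/
structure Good6 (l : K → ZMod r) (a b c d e : ZMod r) : Prop where
  one : mo l a b c d e 1 = 0
  two : mo l a b c d e 2 = 0
  three : mo l a b c d e 3 = bs l 2 1 * sS 3 a b c d e
  six : 4 * mo l a b c d e 6 = 15 * (bs l 2 1 ^ 2 * sG a b c d e) + 12 * (s6 l * sS 6 a b c d e)

variable [hr : Fact r.Prime] (hr5 : 5 < r) (hl : IsLog l) (hK : (Fintype.card K : ZMod r) = 1)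
  (h7 : 7 * s6 l = 0) (h42 : bs l 4 2 = -6 * bs l 2 1 ^ 2 - 3 * s6 l)

include hr5 hl hK h7 h42

theorem good6_zero (a b c d : ZMod r) : Good6 l a b c d 0 := by
  refine ⟨?_, ?_, ?_, ?_⟩
  · rw [mo_zero_last]
    simp only [sum_range_succ, range_zero, sum_empty, om_zero hK, om1 hr5 hl]
    ring
  · rw [mo_zero_last]
    simp only [sum_range_succ, range_zero, sum_empty, om_zero hK, om1 hr5 hl, om2 hr5 hl]
    ring
  · rw [mo_zero_last, sS3_zero]
    simp only [sum_range_succ, range_zero, sum_empty, Nat.sub_zero, Nat.sub_self,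
      show 3 - 1 = 2 from rfl, show 3 - 2 = 1 from rfl, om_zero hK, om1 hr5 hl, om2 hr5 hl,
      om3 hr5 hl, mul_zero, add_zero, zero_add, Nat.choose_self,
      Nat.choose_zero_right, Nat.cast_one]
    ring
  · rw [mo_zero_last, sG_zero, sS6_zero]
    simp only [sum_range_succ, range_zero, sum_empty, Nat.sub_zero, Nat.sub_self,
      show 6 - 1 = 5 from rfl, show 6 - 2 = 4 from rfl, show 6 - 3 = 3 from rfl,
      show 6 - 4 = 2 from rfl, show 6 - 5 = 1 from rfl,
      om_zero hK, om1 hr5 hl, om2 hr5 hl, om3 hr5 hl, om4 hr5 hl,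
      om6 hr5 hl h7 h42, zero_mul, mul_zero, add_zero, zero_add, Nat.choose_self,
      Nat.choose_zero_right, Nat.cast_one, show (Nat.choose 6 3 : ℕ) = 20 from rfl,
      Nat.cast_ofNat]
    ring

omit hK h7 h42 in
theorem Good6.swap {a b c d e : ZMod r} (h : Good6 l c d a b e) : Good6 l a b c d e := by
  refine ⟨?_, ?_, ?_, ?_⟩
  · rw [mo_swap (by omega) hl, h.one]
  · rw [mo_swap (by omega) hl, h.two]
  · rw [mo_swap (by omega) hl, h.three, sS3_swap]
  · rw [mo_swap (by omega) hl, h.six, sG_swap, sS6_swap]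

omit hK h7 h42 in
theorem Good6.zeroOne {a b c d e : ZMod r} (h : Good6 l b a d c e) : Good6 l a b c d e := by
  refine ⟨?_, ?_, ?_, ?_⟩
  · rw [mo_zeroOne (by omega) hl, h.one]
  · rw [mo_zeroOne (by omega) hl, h.two]
  · rw [mo_zeroOne (by omega) hl, h.three, sS3_zeroOne]
  · rw [mo_zeroOne (by omega) hl, h.six, sG_zeroOne, sS6_zeroOne]

omit hK h7 h42 in
theorem Good6.zeroInf {a b c d e : ZMod r}
    (h : Good6 l (-(a + b + e)) b (-(c + d + e)) d e) : Good6 l a b c d e := by
  refine ⟨?_, ?_, ?_, ?_⟩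
  · rw [mo_zeroInf (by omega) hl, h.one]
  · rw [mo_zeroInf (by omega) hl, h.two]
  · rw [mo_zeroInf (by omega) hl, h.three, sS3_zeroInf a b c d e]
  · rw [mo_zeroInf (by omega) hl, h.six, sG_zeroInf a b c d e, sS6_zeroInf a b c d e]

omit hK h7 h42 in
theorem Good6.oneY {a b c d e : ZMod r} (h : Good6 l a e (-(a + b + c + d + e)) d b) :
    Good6 l a b c d e := by
  refine ⟨?_, ?_, ?_, ?_⟩
  · rw [mo_oneY (by omega) hl, h.one]
  · rw [mo_oneY (by omega) hl, h.two]
  · rw [mo_oneY (by omega) hl, h.three, sS3_oneY a b c d e]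
  · rw [mo_oneY (by omega) hl, h.six, sG_oneY a b c d e, sS6_oneY a b c d e]

theorem good6_b (a c d e : ZMod r) : Good6 l a 0 c d e := by
  apply Good6.oneY hr5 hl
  exact good6_zero hr5 hl hK h7 h42 _ _ _ _

theorem good6_a (b c d e : ZMod r) : Good6 l 0 b c d e := by
  apply Good6.zeroOne hr5 hl
  exact good6_b hr5 hl hK h7 h42 _ _ _ _

theorem good6_d (a b c e : ZMod r) : Good6 l a b c 0 e := by
  apply Good6.swap hr5 hl
  exact good6_b hr5 hl hK h7 h42 _ _ _ _

theorem good6_c (a b d e : ZMod r) : Good6 l a b 0 d e := by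
  apply Good6.swap hr5 hl
  exact good6_a hr5 hl hK h7 h42 _ _ _ _

theorem good6_abe {a b c d e : ZMod r} (h : a + b + e = 0) : Good6 l a b c d e := by
  apply Good6.zeroInf hr5 hl
  rw [h, neg_zero]
  exact good6_a hr5 hl hK h7 h42 _ _ _ _

theorem good6_cde {a b c d e : ZMod r} (h : c + d + e = 0) : Good6 l a b c d e := by
  apply Good6.swap hr5 hl
  exact good6_abe hr5 hl hK h7 h42 h

/-- the values of the moments -/
theorem good6 (a b c d e : ZMod r) : Good6 l a b c d e := by
  have hr2 : r ≠ 2 := by omega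
  have h0 := good6_a hr5 hl hK h7 h42
  have h1 := good6_b hr5 hl hK h7 h42
  have h2 := good6_c hr5 hl hK h7 h42
  have h3 := good6_d hr5 hl hK h7 h42
  have h4 := good6_zero hr5 hl hK h7 h42
  refine ⟨?_, ?_, ?_, ?_⟩
  · rw [← alt_of_zero (F := fun a b c d e => mo l a b c d e 1) (fun b c d e => (h0 b c d e).one)
      (fun a c d e => (h1 a c d e).one) (fun a b d e => (h2 a b d e).one)
      (fun a b c e => (h3 a b c e).one) (fun a b c d => (h4 a b c d).one), alt_mo]
    exact sum_eq_zero fun P _ => alt_ex_one P a b c d e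
  · rw [← alt_of_zero (F := fun a b c d e => mo l a b c d e 2) (fun b c d e => (h0 b c d e).two)
      (fun a c d e => (h1 a c d e).two) (fun a b d e => (h2 a b d e).two)
      (fun a b c e => (h3 a b c e).two) (fun a b c d => (h4 a b c d).two), alt_mo]
    exact sum_eq_zero fun P _ => alt_ex_two P a b c d e
  · rw [← sub_eq_zero, ← alt_of_zero
      (F := fun a b c d e => mo l a b c d e 3 - bs l 2 1 * sS 3 a b c d e)
      (fun b c d e => sub_eq_zero.2 (h0 b c d e).three)
      (fun a c d e => sub_eq_zero.2 (h1 a c d e).three)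
      (fun a b d e => sub_eq_zero.2 (h2 a b d e).three)
      (fun a b c e => sub_eq_zero.2 (h3 a b c e).three)
      (fun a b c d => sub_eq_zero.2 (h4 a b c d).three)]
    have e1 : alt (fun a b c d e => mo l a b c d e 3 - bs l 2 1 * sS 3 a b c d e) a b c d e =
        alt (fun a b c d e => mo l a b c d e 3) a b c d e -
          bs l 2 1 * alt (fun a b c d e => sS 3 a b c d e) a b c d e := by
      simp only [alt]
      ring
    rw [e1, alt_sS3, alt_mo, mul_zero, sub_zero]
    exact sum_eq_zero fun P _ => alt_ex_three P a b c d e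
  · -- the sixth moment
    set w0 := ∑ P ∈ pts K, pr l P * l P.1 with hw0
    set w1 := ∑ P ∈ pts K, pr l P * l (1 - P.1) with hw1
    set w2 := ∑ P ∈ pts K, pr l P * l P.2 with hw2
    set w3 := ∑ P ∈ pts K, pr l P * l (1 - P.2) with hw3
    set w4 := ∑ P ∈ pts K, pr l P * l (P.1 - P.2) with hw4
    set B := bs l 2 1 with hB
    set S := s6 l with hS
    have key : ∀ a b c d e : ZMod r, 4 * mo l a b c d e 6 -
        (15 * (B ^ 2 * sG a b c d e) + 12 * (S * sS 6 a b c d e)) =
        (a * b * c * d * e) * (a * (1440 * w0 - 12240 * B ^ 2 - 4320 * S) +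
          b * (1440 * w1 - 12240 * B ^ 2 - 4320 * S) +
          c * (1440 * w2 - 12240 * B ^ 2 - 4320 * S) +
          d * (1440 * w3 - 12240 * B ^ 2 - 4320 * S) +
            e * (1440 * w4 - 12240 * B ^ 2 - 4320 * S)) := by
      intro a b c d e
      rw [← alt_of_zero
        (F := fun a b c d e => 4 * mo l a b c d e 6 -
          (15 * (B ^ 2 * sG a b c d e) + 12 * (S * sS 6 a b c d e)))
        (fun b c d e => sub_eq_zero.2 (h0 b c d e).six)
        (fun a c d e => sub_eq_zero.2 (h1 a c d e).six)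
        (fun a b d e => sub_eq_zero.2 (h2 a b d e).six)
        (fun a b c e => sub_eq_zero.2 (h3 a b c e).six)
        (fun a b c d => sub_eq_zero.2 (h4 a b c d).six)]
      have e1 : alt (fun a b c d e => 4 * mo l a b c d e 6 -
          (15 * (B ^ 2 * sG a b c d e) + 12 * (S * sS 6 a b c d e)))
          a b c d e = 4 * alt (fun a b c d e => mo l a b c d e 6) a b c d e -
            (15 * (B ^ 2 * alt (fun a b c d e => sG a b c d e) a b c d e) +
              12 * (S * alt (fun a b c d e => sS 6 a b c d e) a b c d e)) := by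
        simp only [alt]
        ring
      rw [e1, alt_sG, alt_sS6, alt_mo_six, ← hw0, ← hw1, ← hw2, ← hw3, ← hw4]
      ring
    set m0 := 1440 * w0 - 12240 * B ^ 2 - 4320 * S with hm0
    set m1 := 1440 * w1 - 12240 * B ^ 2 - 4320 * S with hm1
    set m2 := 1440 * w2 - 12240 * B ^ 2 - 4320 * S with hm2
    set m3 := 1440 * w3 - 12240 * B ^ 2 - 4320 * S with hm3
    set m4 := 1440 * w4 - 12240 * B ^ 2 - 4320 * S with hm4
    have k0 : (0 : ZMod r) = (1 * 1 * 1 * 1 * (-2)) * (1 * m0 + 1 * m1 + 1 * m2 + 1 * m3 +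
        (-2) * m4) := by
      rw [← key]
      exact (sub_eq_zero.2 (good6_abe hr5 hl hK h7 h42 (by norm_num)).six).symm
    have k1 : (0 : ZMod r) = (1 * 1 * 2 * 1 * (-2)) * (1 * m0 + 1 * m1 + 2 * m2 + 1 * m3 +
        (-2) * m4) := by
      rw [← key]
      exact (sub_eq_zero.2 (good6_abe hr5 hl hK h7 h42 (by norm_num)).six).symm
    have k2 : (0 : ZMod r) = (1 * 1 * 1 * 2 * (-2)) * (1 * m0 + 1 * m1 + 1 * m2 + 2 * m3 +
        (-2) * m4) := by
      rw [← key]
      exact (sub_eq_zero.2 (good6_abe hr5 hl hK h7 h42 (by norm_num)).six).symm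
    have k3 : (0 : ZMod r) = (2 * 1 * 1 * 1 * (-2)) * (2 * m0 + 1 * m1 + 1 * m2 + 1 * m3 +
        (-2) * m4) := by
      rw [← key]
      exact (sub_eq_zero.2 (good6_cde hr5 hl hK h7 h42 (by norm_num)).six).symm
    have k4 : (0 : ZMod r) = (1 * 2 * 1 * 1 * (-2)) * (1 * m0 + 2 * m1 + 1 * m2 + 1 * m3 +
        (-2) * m4) := by
      rw [← key]
      exact (sub_eq_zero.2 (good6_cde hr5 hl hK h7 h42 (by norm_num)).six).symm
    have ht := two_ne hr2
    have ht4 : (4 : ZMod r) ≠ 0 := by
      have : (4 : ZMod r) = 2 * 2 := by norm_num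
      rw [this]
      exact mul_ne_zero ht ht
    have z2 : m2 = 0 := (mul_eq_zero.1 (by linear_combination k1 - 2 * k0 :
      (4 : ZMod r) * m2 = 0)).resolve_left ht4
    have z3 : m3 = 0 := (mul_eq_zero.1 (by linear_combination k2 - 2 * k0 :
      (4 : ZMod r) * m3 = 0)).resolve_left ht4
    have z0 : m0 = 0 := (mul_eq_zero.1 (by linear_combination k3 - 2 * k0 :
      (4 : ZMod r) * m0 = 0)).resolve_left ht4
    have z1 : m1 = 0 := (mul_eq_zero.1 (by linear_combination k4 - 2 * k0 :
      (4 : ZMod r) * m1 = 0)).resolve_left ht4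
    have z4 : m4 = 0 := by
      rw [z0, z1, z2, z3] at k0
      exact (mul_eq_zero.1 (by linear_combination -k0 :
        (4 : ZMod r) * m4 = 0)).resolve_left ht4
    rw [← sub_eq_zero, key a b c d e, z0, z1, z2, z3, z4]
    ring

end

end Pool.Agent.Helper79.KM
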