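import Pool.Agent.Helper79.KM.Defs

/-! Linear algebra of a grading: no similitude of a bilinear form when the numbers are not symmetric; separation. -/

set_option autoImplicit false

open Matrix H77MT

namespace Pool.Agent.Helper79.KM

section
variable {K : Type*} [Field K] [CharZero K] {m : Type*} [Fintype m] [DecidableEq m]

/-- the element of the grading is an eigenvalue on each part -/
theorem ht_mul {P : Finset ℤ} {R : ℤ → Matrix m m K} (hmul : ∀ p q, R p * R q = if p = q then R p else 0)
    (hsupp : ∀ p, p ∉ P → R p = 0) (q : ℤ) :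
    (∑ p ∈ P, (p : K) • R p) * R q = (q : K) • R q ∧ R q * (∑ p ∈ P, (p : K) • R p) = (q : K) • R q := by
  constructor
  · rw [Finset.sum_mul]
    by_cases hq : q ∈ P
    · rw [Finset.sum_eq_single q]
      · rw [smul_mul_assoc, hmul, if_pos rfl]
      · intro p _ hp
        rw [smul_mul_assoc, hmul, if_neg hp, smul_zero]
      · intro h
        exact absurd hq h
    · rw [hsupp q hq]
      simp
  · rw [Finset.mul_sum]
    by_cases hq : q ∈ P
    · rw [Finset.sum_eq_single q]
      · rw [mul_smul_comm, hmul, if_pos rfl]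
      · intro p _ hp
        rw [mul_smul_comm, hmul, if_neg (Ne.symm hp), smul_zero]
      · intro h
        exact absurd hq h
    · rw [hsupp q hq]
      simp

/-- if the element of the grading is a scalar then the numbers are symmetric -/
theorem ht_scalar {P : Finset ℤ} {R : ℤ → Matrix m m K} (hmul : ∀ p q, R p * R q = if p = q then R p else 0)
    (hsupp : ∀ p, p ∉ P → R p = 0) {l : K} (h : ∑ p ∈ P, (p : K) • R p = l • (1 : Matrix m m K)) :
    ∃ w : ℤ, ∀ p, (R p).rank = (R (w - p)).rank := by
  have h1 : ∀ q, R q ≠ 0 → (q : K) = l := by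
    intro q hq
    have h2 := (ht_mul hmul hsupp q).1
    rw [h, smul_mul_assoc, one_mul] at h2
    by_contra hc
    have h3 : ((q : K) - l) • R q = 0 := by rw [sub_smul, h2, sub_self]
    rcases smul_eq_zero.1 h3 with h4 | h4
    · exact hc (sub_eq_zero.1 h4)
    · exact hq h4
  by_cases hex : ∃ q, R q ≠ 0
  · obtain ⟨q, hq⟩ := hex
    refine ⟨2 * q, fun p => ?_⟩
    by_cases hp : R p = 0
    · have : R (2 * q - p) = 0 := by
        by_contra hc
        have h2 := h1 _ hc
        rw [← h1 q hq] at h2
        have h3 : 2 * q - p = q := by exact_mod_cast h2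
        have h4 : p = q := by omega
        rw [h4] at hp
        exact hq hp
      rw [hp, this]
    · have h2 := h1 _ hp
      rw [← h1 q hq] at h2
      have h3 : p = q := by exact_mod_cast h2
      rw [h3]
      congr 2
      omega
  · push Not at hex
    exact ⟨0, fun p => by rw [hex, hex]⟩

/-- if the element of the grading is a similitude of a bilinear form then the numbers are symmetric -/
theorem ht_sim {P : Finset ℤ} {R : ℤ → Matrix m m K} (hmul : ∀ p q, R p * R q = if p = q then R p else 0)
    (hsupp : ∀ p, p ∉ P → R p = 0) (hsum : ∑ p ∈ P, R p = 1) {b : Matrix m m K} (hb : IsUnit b.det) {μ : K}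
    (h : (∑ p ∈ P, (p : K) • R p)ᵀ * b + b * (∑ p ∈ P, (p : K) • R p) = μ • b) :
    ∃ w : ℤ, ∀ p, (R p).rank = (R (w - p)).rank := by
  set c := ∑ p ∈ P, (p : K) • R p with hc
  -- the key relation
  have key : ∀ p q, (R q)ᵀ * b * R p ≠ 0 → (p : K) + q = μ := by
    intro p q hpq
    have e1 : (R q)ᵀ * cᵀ = (q : K) • (R q)ᵀ := by
      rw [← transpose_mul, (ht_mul hmul hsupp q).1, transpose_smul]
    have e2 : c * R p = (p : K) • R p := (ht_mul hmul hsupp p).1
    have e3 : (R q)ᵀ * (cᵀ * b + b * c) * R p = (R q)ᵀ * (μ • b) * R p := by rw [h]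
    have e4 : (R q)ᵀ * (cᵀ * b + b * c) * R p = ((p : K) + q) • ((R q)ᵀ * b * R p) := by
      have : (R q)ᵀ * (cᵀ * b + b * c) * R p = ((R q)ᵀ * cᵀ) * b * R p + (R q)ᵀ * b * (c * R p) := by
        noncomm_ring
      rw [this, e1, e2, smul_mul_assoc, smul_mul_assoc, mul_smul_comm, add_smul, add_comm]
    rw [e4, mul_smul_comm, smul_mul_assoc] at e3
    by_contra hne
    have e5 : ((p : K) + q - μ) • ((R q)ᵀ * b * R p) = 0 := by rw [sub_smul, e3, sub_self]
    rcases smul_eq_zero.1 e5 with h4 | h4
    · exact hne (sub_eq_zero.1 h4)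
    · exact hpq h4
  have hsumT : ∑ q ∈ P, (R q)ᵀ = 1 := by
    rw [← transpose_sum, hsum, transpose_one]
  have hbne : ∀ p, R p ≠ 0 → b * R p ≠ 0 := by
    intro p hp h0
    apply hp
    have := congrArg (fun z => b⁻¹ * z) h0
    simpa [← mul_assoc, nonsing_inv_mul _ hb] using this
  by_cases hex : ∃ q, R q ≠ 0
  · obtain ⟨p₀, hp₀⟩ := hex
    obtain ⟨q₀, hq₀⟩ : ∃ q, (R q)ᵀ * b * R p₀ ≠ 0 := by
      by_contra hcon
      push Not at hcon
      apply hbne p₀ hp₀
      have : b * R p₀ = ∑ q ∈ P, (R q)ᵀ * b * R p₀ := by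
        rw [← Finset.sum_mul, ← Finset.sum_mul, hsumT, one_mul]
      rw [this]
      exact Finset.sum_eq_zero fun q _ => hcon q
    have hw : μ = ((p₀ + q₀ : ℤ) : K) := by rw [← key _ _ hq₀]; push_cast; ring
    refine ⟨p₀ + q₀, fun p => ?_⟩
    have k2 : ∀ p q, q ≠ p₀ + q₀ - p → (R q)ᵀ * b * R p = 0 := by
      intro p q hq
      by_contra hne
      have := key _ _ hne
      rw [hw] at this
      have h3 : p + q = p₀ + q₀ := by exact_mod_cast this
      apply hq
      omega
    have e1 : b * R p = (R (p₀ + q₀ - p))ᵀ * b * R p := by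
      have h1 : b * R p = ∑ q ∈ P, (R q)ᵀ * b * R p := by
        rw [← Finset.sum_mul, ← Finset.sum_mul, hsumT, one_mul]
      by_cases hq : p₀ + q₀ - p ∈ P
      · rw [h1, Finset.sum_eq_single (p₀ + q₀ - p)]
        · intro q _ hq'
          exact k2 p q hq'
        · intro h'
          exact absurd hq h'
      · rw [hsupp _ hq, transpose_zero, zero_mul, zero_mul, h1]
        refine Finset.sum_eq_zero fun q hqP => k2 p q ?_
        rintro rfl
        exact hq hqP
    have e2 : (R (p₀ + q₀ - p))ᵀ * b = (R (p₀ + q₀ - p))ᵀ * b * R p := by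
      have h1 : (R (p₀ + q₀ - p))ᵀ * b = ∑ p' ∈ P, (R (p₀ + q₀ - p))ᵀ * b * R p' := by
        rw [← Finset.mul_sum, hsum, mul_one]
      by_cases hp : p ∈ P
      · conv_lhs => rw [h1]
        rw [Finset.sum_eq_single p]
        · intro p' _ hp'
          exact k2 p' _ (by omega)
        · intro h'
          exact absurd hp h'
      · rw [hsupp _ hp, mul_zero]
        conv_lhs => rw [h1]
        refine Finset.sum_eq_zero fun p' hpP => k2 p' _ ?_
        intro h'
        apply hp
        have : p' = p := by omega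
        rwa [← this]
    have e3 : b * R p = (R (p₀ + q₀ - p))ᵀ * b := by rw [e1, ← e2]
    have r1 : (b * R p).rank = (R p).rank := rank_mul_eq_right_of_isUnit_det _ _ hb
    have r2 : ((R (p₀ + q₀ - p))ᵀ * b).rank = ((R (p₀ + q₀ - p))ᵀ).rank := rank_mul_eq_left_of_isUnit_det _ _ hb
    rw [← r1, e3, r2, rank_transpose]
  · push Not at hex
    exact ⟨0, fun p => by rw [hex, hex]⟩

end

end Pool.Agent.Helper79.KM
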