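import Pool.Agent.Helper79.KM.Seven

/-!
# Sums over the complement of the quadrilateral modulo five
-/

open Finset

namespace Pool.Agent.Helper79.KM

section

variable {K : Type*} [Field K] [Fintype K] [DecidableEq K] {r : ℕ} {l : K → ZMod r}

/-- the sum of a function of the five logarithms -/
def lo (l : K → ZMod r) (F : ZMod r → ZMod r → ZMod r → ZMod r → ZMod r → ZMod r) : ZMod r :=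
  ∑ P ∈ pts K, F (l P.1) (l (1 - P.1)) (l P.2) (l (1 - P.2)) (l (P.1 - P.2))

/-- the sums of products of powers over the elements different from zero and one -/
def bz (l : K → ZMod r) (a b : ℕ) : ZMod r :=
  ∑ x ∈ (univ.erase (0 : K)).erase 1, l x ^ a * l (1 - x) ^ b

theorem lo_four (i j k m : ℕ) : lo l (fun a b c d _ => a ^ i * b ^ j * c ^ k * d ^ m) =
    bz l i j * bz l k m - bz l (i + k) (j + m) := by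
  rw [lo, pts_split (fun x y => l x ^ i * l (1 - x) ^ j * l y ^ k * l (1 - y) ^ m), bz, bz, bz,
    sum_mul_sum]
  congr 1
  · exact sum_congr rfl fun x _ => sum_congr rfl fun y _ => by ring
  · exact sum_congr rfl fun x _ => by ring

variable [hr : Fact r.Prime] (hr2 : r ≠ 2) (hl : IsLog l)

include hr2 hl

theorem lo_swap (F : ZMod r → ZMod r → ZMod r → ZMod r → ZMod r → ZMod r) :
    lo l F = lo l (fun a b c d e => F c d a b e) := by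
  rw [lo, ← swap_pts, lo]
  refine sum_congr rfl fun P _ => ?_
  simp only [Prod.fst_swap, Prod.snd_swap]
  rw [hl.sub_comm hr2 P.2 P.1]

theorem lo_zeroOne (F : ZMod r → ZMod r → ZMod r → ZMod r → ZMod r → ZMod r) :
    lo l F = lo l (fun a b c d e => F b a d c e) := by
  rw [lo, ← sum_zeroOne, lo]
  refine sum_congr rfl fun P _ => ?_
  simp only [sub_sub_cancel]
  have h1 : 1 - P.1 - (1 - P.2) = P.2 - P.1 := by ring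
  rw [h1, hl.sub_comm hr2 P.2 P.1]

theorem lo_zeroInf (F : ZMod r → ZMod r → ZMod r → ZMod r → ZMod r → ZMod r) :
    lo l F = lo l (fun a b c d e => F (-a) (b - a) (-c) (d - c) (e - a - c)) := by
  rw [lo, ← sum_zeroInf, lo]
  refine sum_congr rfl ?_
  rintro ⟨x, y⟩ h
  rw [mem_pts] at h
  obtain ⟨hx0, hx1, hy0, hy1, hxy⟩ := h
  simp only at hx0 hx1 hy0 hy1 hxy
  simp only
  have h1 : 1 - x⁻¹ = (x - 1) / x := by field_simp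
  have h2 : 1 - y⁻¹ = (y - 1) / y := by field_simp
  have h3 : x⁻¹ - y⁻¹ = (y - x) / (x * y) := by field_simp
  rw [h1, h2, h3, hl.inv, hl.inv, hl.div (sub_ne_zero.2 hx1) hx0, hl.div (sub_ne_zero.2 hy1) hy0,
    hl.div (sub_ne_zero.2 hxy.symm) (mul_ne_zero hx0 hy0), hl.mul _ _ hx0 hy0,
    hl.sub_comm hr2 x 1, hl.sub_comm hr2 y 1, hl.sub_comm hr2 y x]
  congr 1
  ring

theorem lo_oneY (F : ZMod r → ZMod r → ZMod r → ZMod r → ZMod r → ZMod r) :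
    lo l F = lo l (fun a b c d e => F (a - c) (e - c) (-c) (d - c) (b - c)) := by
  rw [lo, ← sum_oneY, lo]
  refine sum_congr rfl ?_
  rintro ⟨x, y⟩ h
  rw [mem_pts] at h
  obtain ⟨hx0, hx1, hy0, hy1, hxy⟩ := h
  simp only at hx0 hx1 hy0 hy1 hxy
  simp only
  have h1 : 1 - x / y = (y - x) / y := by field_simp
  have h2 : 1 - y⁻¹ = (y - 1) / y := by field_simp
  have h3 : x / y - y⁻¹ = (x - 1) / y := by field_simp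
  rw [h1, h2, h3, hl.inv, hl.div hx0 hy0, hl.div (sub_ne_zero.2 hxy.symm) hy0,
    hl.div (sub_ne_zero.2 hy1) hy0, hl.div (sub_ne_zero.2 hx1) hy0, hl.sub_comm hr2 x 1,
    hl.sub_comm hr2 y 1, hl.sub_comm hr2 y x]

end

/-- a polynomial in four variables given by the list of its monomials -/
def ev (H : List (ℤ × ℕ × ℕ × ℕ × ℕ)) (a b c d : ZMod 5) : ZMod 5 :=
  (H.map fun t => (t.1 : ZMod 5) *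
    (a ^ t.2.1 * b ^ t.2.2.1 * c ^ t.2.2.2.1 * d ^ t.2.2.2.2)).sum

theorem lo_ev {K : Type*} [Field K] [Fintype K] [DecidableEq K] {l : K → ZMod 5}
    (H : List (ℤ × ℕ × ℕ × ℕ × ℕ)) : lo l (fun a b c d _ => ev H a b c d) =
      (H.map fun t => (t.1 : ZMod 5) * (bz l t.2.1 t.2.2.1 * bz l t.2.2.2.1 t.2.2.2.2 -
        bz l (t.2.1 + t.2.2.2.1) (t.2.2.1 + t.2.2.2.2))).sum := by
  induction H with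
  | nil => simp [ev, lo]
  | cons t H ih =>
    have h1 : lo l (fun a b c d _ => ev (t :: H) a b c d) =
        (t.1 : ZMod 5) * lo l (fun a b c d _ =>
          a ^ t.2.1 * b ^ t.2.2.1 * c ^ t.2.2.2.1 * d ^ t.2.2.2.2) +
          lo l (fun a b c d _ => ev H a b c d) := by
      simp only [lo, ev, List.map_cons, List.sum_cons, sum_add_distrib, mul_sum]
    rw [h1, ih, lo_four, List.map_cons, List.sum_cons]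

/-- a part of the polynomial -/
def pN4 (a b c d _e : ZMod 5) : ZMod 5 :=
  -a ^ 4 * c ^ 4 - a ^ 4 * c ^ 2 * d ^ 2 + 2 * a ^ 4 * c * d ^ 3 - 2 * a ^ 3 * b * c ^ 3 * d - 2
    * a ^ 3 * b * c ^ 2 * d ^ 2 - a ^ 3 * b * c * d ^ 3 - a ^ 3 * c ^ 4 * d - a ^ 3 * c ^ 3 * d ^
    2 + 2 * a ^ 3 * c ^ 2 * d ^ 3 - a ^ 2 * b ^ 2 * c ^ 4 - 2 * a ^ 2 * b ^ 2 * c ^ 3 * d + 2 * a
    ^ 2 * b ^ 2 * c ^ 2 * d ^ 2 + a ^ 2 * b ^ 2 * c * d ^ 3 - a ^ 2 * b * c ^ 5 - a ^ 2 * b * c ^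
    4 * d - 2 * a ^ 2 * b * c ^ 3 * d ^ 2 - a ^ 2 * b * c ^ 2 * d ^ 3 + a ^ 2 * c ^ 6 - a ^ 2 * c
    ^ 5 * d + a * b ^ 4 * c ^ 3 - a * b ^ 4 * c ^ 2 * d - 2 * a * b ^ 3 * c ^ 4 - 2 * a * b ^ 3 *
    c ^ 3 * d + a * b ^ 3 * c ^ 2 * d ^ 2 - 2 * a * b ^ 3 * c * d ^ 3 + 2 * a * b ^ 2 * c ^ 4 * d
    + 2 * a * b ^ 2 * c ^ 3 * d ^ 2 + a * b ^ 2 * c ^ 2 * d ^ 3 + a * c ^ 7 - a * c ^ 6 * d - b ^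
    4 * c ^ 4 + b ^ 4 * c ^ 3 * d + b ^ 3 * c ^ 5 + b ^ 3 * c ^ 3 * d ^ 2 - 2 * b ^ 3 * c ^ 2 * d
    ^ 3 - b ^ 2 * c ^ 6 + b ^ 2 * c ^ 5 * d - b * c ^ 7 + b * c ^ 6 * d - c ^ 8 + c ^ 7 * d

/-- a part of the polynomial -/
def pN1 (a _b c d e : ZMod 5) : ZMod 5 :=
  a ^ 4 * e ^ 4 + a ^ 3 * c ^ 3 * d * e + a ^ 3 * c ^ 2 * d ^ 2 * e - 2 * a ^ 3 * c * d ^ 3 * e
    + a ^ 3 * c * e ^ 4 - a ^ 3 * d * e ^ 4 - 2 * a ^ 2 * c ^ 5 * e + 2 * a ^ 2 * c ^ 4 * d * e +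
    a ^ 2 * c ^ 4 * e ^ 2 - a ^ 2 * c ^ 3 * d * e ^ 2 + a ^ 2 * c ^ 2 * e ^ 4 - 2 * a ^ 2 * c * d
    * e ^ 4 + a ^ 2 * d ^ 2 * e ^ 4 - a * c ^ 6 * e + a * c ^ 5 * d * e + a * c ^ 3 * e ^ 4 + 2 *
    a * c ^ 2 * d * e ^ 4 - 2 * a * c * d ^ 2 * e ^ 4 - a * d ^ 3 * e ^ 4 + c ^ 7 * e - c ^ 6 * d
    * e + c ^ 4 * e ^ 4 + c ^ 3 * d * e ^ 4 + c ^ 2 * d ^ 2 * e ^ 4 + c * d ^ 3 * e ^ 4 + d ^ 4 *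
    e ^ 4

/-- a part of the polynomial -/
def pN0 (_a b c d e : ZMod 5) : ZMod 5 :=
  b ^ 4 * c ^ 3 * e - b ^ 4 * c ^ 2 * d * e + b ^ 4 * e ^ 4 - b ^ 3 * c ^ 4 * e - b ^ 3 * c ^ 2
    * d ^ 2 * e - b ^ 3 * c * d ^ 3 * e - b ^ 3 * c * e ^ 4 + b ^ 3 * d * e ^ 4 + b ^ 2 * c ^ 5 *
    e - b ^ 2 * c ^ 4 * d * e + b ^ 2 * c ^ 2 * e ^ 4 - 2 * b ^ 2 * c * d * e ^ 4 + b ^ 2 * d ^ 2
    * e ^ 4 + b * c ^ 6 * e - b * c ^ 5 * d * e - b * c ^ 3 * e ^ 4 - 2 * b * c ^ 2 * d * e ^ 4 +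
    2 * b * c * d ^ 2 * e ^ 4 + b * d ^ 3 * e ^ 4

/-- a part of the polynomial -/
def pN3 (a b c _d e : ZMod 5) : ZMod 5 :=
  a ^ 3 * b * e ^ 4 + a ^ 2 * b ^ 2 * e ^ 4 + a ^ 2 * b * c ^ 4 * e + 2 * a ^ 2 * b * c * e ^ 4
    - a * b ^ 4 * c ^ 2 * e - a * b ^ 3 * c ^ 3 * e + a * b ^ 3 * e ^ 4 - 2 * a * b ^ 2 * c * e ^
    4 + a * b * c ^ 5 * e - a * b * c ^ 4 * e ^ 2 - 2 * a * b * c ^ 2 * e ^ 4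

/-- a part of the polynomial -/
def pN2 (a b _c d e : ZMod 5) : ZMod 5 :=
  -2 * a ^ 2 * b * d * e ^ 4 + 2 * a * b ^ 2 * d * e ^ 4 - 2 * a * b * d ^ 2 * e ^ 4

/-- the final polynomial -/
def pH : List (ℤ × ℕ × ℕ × ℕ × ℕ) :=
  [(1, 5, 1, 2, 0), (-1, 5, 1, 1, 1), (-1, 5, 0, 3, 0), (1, 5, 0, 2, 1), (2, 4, 4, 0, 0), (2, 4,
   3, 1, 0), (1, 4, 2, 2, 0), (1, 4, 2, 1, 1), (-2, 4, 1, 3, 0), (-2, 4, 1, 1, 2), (1, 4, 1, 0,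
   3), (1, 4, 0, 4, 0), (-1, 4, 0, 3, 1), (1, 4, 0, 2, 2), (1, 4, 0, 1, 3), (2, 3, 4, 1, 0), (-2,
   3, 4, 0, 1), (2, 3, 3, 2, 0), (-2, 3, 3, 1, 1), (1, 3, 2, 3, 0), (-1, 3, 2, 2, 1), (-1, 3, 1,
   4, 0), (-1, 3, 1, 3, 1), (1, 3, 1, 2, 2), (2, 3, 1, 1, 3), (-1, 3, 1, 0, 4), (1, 3, 0, 5, 0),
   (-2, 3, 0, 4, 1), (1, 3, 0, 3, 2), (-1, 3, 0, 2, 3), (1, 3, 0, 1, 4), (-2, 2, 4, 2, 0), (2, 2,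
   4, 0, 2), (-2, 2, 3, 3, 0), (2, 2, 3, 1, 2), (1, 2, 2, 4, 0), (-1, 2, 2, 2, 2), (1, 2, 2, 1,
   3), (1, 2, 1, 5, 0), (2, 2, 1, 4, 1), (1, 2, 1, 2, 3), (1, 2, 1, 0, 5), (1, 2, 0, 6, 0), (-1,
   2, 0, 5, 1), (2, 2, 0, 4, 2), (-2, 2, 0, 3, 3), (-1, 2, 0, 1, 5), (1, 1, 4, 3, 0), (1, 1, 4, 2,
   1), (-2, 1, 4, 0, 3), (-2, 1, 3, 4, 0), (1, 1, 3, 2, 2), (1, 1, 3, 1, 3), (-1, 1, 2, 5, 0),
   (-2, 1, 2, 4, 1), (2, 1, 2, 3, 2), (-1, 1, 2, 2, 3), (2, 1, 1, 6, 0), (-1, 1, 1, 4, 2), (1, 1,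
   1, 3, 3), (-2, 1, 1, 2, 4), (-2, 1, 1, 1, 5), (1, 1, 1, 0, 6), (-1, 1, 0, 6, 1), (1, 1, 0, 5,
   2), (2, 1, 0, 3, 4), (2, 1, 0, 2, 5), (-1, 1, 0, 1, 6), (2, 0, 4, 2, 2), (1, 0, 4, 1, 3), (1,
   0, 4, 0, 4), (2, 0, 3, 5, 0), (-1, 0, 3, 4, 1), (-2, 0, 3, 3, 2), (-1, 0, 3, 2, 3), (1, 0, 3,
   1, 4), (-1, 0, 2, 6, 0), (2, 0, 2, 5, 1), (2, 0, 2, 4, 2), (1, 0, 2, 3, 3), (1, 0, 2, 2, 4),
   (1, 0, 1, 6, 1), (2, 0, 1, 5, 2), (2, 0, 1, 4, 3), (-1, 0, 1, 3, 4), (1, 0, 1, 2, 5), (-1, 0,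
   1, 1, 6), (1, 0, 0, 8, 0), (2, 0, 0, 7, 1), (2, 0, 0, 6, 2), (-2, 0, 0, 4, 4), (-1, 0, 0, 3,
   5), (1, 0, 0, 2, 6)]

theorem first_id (a b c d e : ZMod 5) : (a - b - c + d) ^ 4 * e ^ 4 =
    pN4 a b c d e + pN1 a b c d e + pN0 a b c d e + pN3 a b c d e + pN2 a b c d e - 2 * (b ^ 3 * c * d ^ 3 * e - (b - a) ^ 3 * (-c) * (d - c) ^ 3 * (e - a - c)) + (a * b * c
      ^ 3 * d * e ^ 2 - (-a) * (b - a) * (-c) ^ 3 * (d - c) * (e - a - c) ^ 2) - (a * b * c * d *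
      e ^ 4 - (a - c) * (e - c) * (-c) * (d - c) * (b - c) ^ 4) - (a * b * c * d ^ 4 * e - c * d *
      a * b ^ 4 * e) + (a * b * c * d ^ 4 * e - b * a * d * c ^ 4 * e) - (a * b ^ 2 * c * d ^ 3 *
      e - b * a ^ 2 * d * c ^ 3 * e) - 2 * (a * b ^ 2 * c ^ 2 * d ^ 2 * e - b * a ^ 2 * d ^ 2 * c
      ^ 2 * e) - 2 * (a * b ^ 2 * c ^ 3 * d * e - b * a ^ 2 * d ^ 3 * c * e) + (a * b ^ 3 * c ^ 2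
      * d * e - c * d ^ 3 * a ^ 2 * b * e) := by
  have h5 : (5 : ZMod 5) = 0 := rfl
  simp only [pN4, pN1, pN0, pN3, pN2]
  linear_combination (a ^ 4 * c ^ 3 * d - a ^ 4 * c ^ 2 * d ^ 2 + a ^ 3 * b * c ^ 4 - 3 * a ^ 3 * b * c ^ 3 * d +
      4 * a ^ 3 * b * c ^ 2 * d ^ 2 - a ^ 3 * b * c * d ^ 3 - a ^ 3 * b * e ^ 4 + a ^ 3 * c ^ 4 *
      d - a ^ 3 * c ^ 3 * d ^ 2 - a ^ 3 * c ^ 3 * d * e + a ^ 3 * c ^ 2 * d ^ 2 * e - a ^ 3 * c *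
      e ^ 4 + a ^ 3 * d * e ^ 4 - a ^ 2 * b ^ 2 * c ^ 4 + 4 * a ^ 2 * b ^ 2 * c ^ 3 * d - 4 * a ^
      2 * b ^ 2 * c ^ 2 * d ^ 2 + a ^ 2 * b ^ 2 * c * d ^ 3 + a ^ 2 * b ^ 2 * e ^ 4 + a ^ 2 * b *
      c ^ 5 - 3 * a ^ 2 * b * c ^ 4 * d - a ^ 2 * b * c ^ 4 * e + 4 * a ^ 2 * b * c ^ 3 * d ^ 2 +
      3 * a ^ 2 * b * c ^ 3 * d * e - a ^ 2 * b * c ^ 2 * d ^ 3 - 4 * a ^ 2 * b * c ^ 2 * d ^ 2 *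
      e + a ^ 2 * b * c * d ^ 3 * e + 2 * a ^ 2 * b * c * e ^ 4 - 2 * a ^ 2 * b * d * e ^ 4 + a ^
      2 * c ^ 2 * e ^ 4 - 2 * a ^ 2 * c * d * e ^ 4 + a ^ 2 * d ^ 2 * e ^ 4 + a * b ^ 3 * c ^ 3 *
      e + a * b ^ 3 * c ^ 2 * d ^ 2 - a * b ^ 3 * c ^ 2 * d * e - a * b ^ 3 * e ^ 4 + 2 * a * b ^
      2 * c ^ 4 * d - 4 * a * b ^ 2 * c ^ 3 * d ^ 2 - 2 * a * b ^ 2 * c ^ 3 * d * e + a * b ^ 2 *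
      c ^ 2 * d ^ 3 + 4 * a * b ^ 2 * c ^ 2 * d ^ 2 * e - a * b ^ 2 * c * d ^ 3 * e - 2 * a * b ^
      2 * c * e ^ 4 + 2 * a * b ^ 2 * d * e ^ 4 - a * b * c ^ 6 + a * b * c ^ 5 * d + a * b * c ^
      5 * e - a * b * c ^ 4 * d * e - 2 * a * b * c ^ 2 * e ^ 4 + 5 * a * b * c * d * e ^ 4 - 2 *
      a * b * d ^ 2 * e ^ 4 - a * c ^ 3 * e ^ 4 + 2 * a * c ^ 2 * d * e ^ 4 - 2 * a * c * d ^ 2 *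
      e ^ 4 + a * d ^ 3 * e ^ 4 + b ^ 3 * c ^ 5 - 2 * b ^ 3 * c ^ 4 * d - b ^ 3 * c ^ 4 * e + b ^
      3 * c ^ 3 * d ^ 2 + 2 * b ^ 3 * c ^ 3 * d * e - b ^ 3 * c ^ 2 * d ^ 2 * e + b ^ 3 * c * d ^
      3 * e + b ^ 3 * c * e ^ 4 - b ^ 3 * d * e ^ 4 - b ^ 2 * c ^ 6 + b ^ 2 * c ^ 5 * d + b ^ 2 *
      c ^ 5 * e - b ^ 2 * c ^ 4 * d * e + b ^ 2 * c ^ 2 * e ^ 4 - 2 * b ^ 2 * c * d * e ^ 4 + b ^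
      2 * d ^ 2 * e ^ 4 + b * c ^ 7 - b * c ^ 6 * d - b * c ^ 6 * e + b * c ^ 5 * d * e + b * c ^
      3 * e ^ 4 - 2 * b * c ^ 2 * d * e ^ 4 + 2 * b * c * d ^ 2 * e ^ 4 - b * d ^ 3 * e ^ 4 - c ^
      3 * d * e ^ 4 + c ^ 2 * d ^ 2 * e ^ 4 - c * d ^ 3 * e ^ 4 : ZMod 5) * h5

theorem second_id (a b c d e : ZMod 5) : pN4 a b c d e +
    pN1 (a - c) (e - c) (-c) (d - c) (b - c) + pN0 (e - c) (a - c) (d - c) (-c) (b - c) +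
      pN3 (-c) (d - c) (a - c) (e - c) (b - c) + pN2 (d - c) (-c) (e - c) (a - c) (b - c) =
        ev pH a b c d := by
  have h5 : (5 : ZMod 5) = 0 := rfl
  simp only [pN4, pN1, pN0, pN3, pN2, ev, pH, List.map_cons, List.map_nil, List.sum_cons,
    List.sum_nil, pow_zero, pow_one, mul_one, one_mul, Int.cast_one, Int.cast_neg, Int.cast_ofNat]
  linear_combination (-2 * a ^ 4 * b ^ 3 * c + 2 * a ^ 4 * b ^ 2 * c ^ 2 - 2 * a ^ 4 * b * c ^ 3 + a ^ 4 * b * c ^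
      2 * d + a ^ 4 * c ^ 4 - a ^ 4 * c ^ 3 * d - 2 * a ^ 3 * b ^ 4 * c + 6 * a ^ 3 * b ^ 3 * c ^
      2 + 2 * a ^ 3 * b ^ 3 * c * d - 9 * a ^ 3 * b ^ 2 * c ^ 3 - 3 * a ^ 3 * b ^ 2 * c ^ 2 * d +
      7 * a ^ 3 * b * c ^ 4 + 2 * a ^ 3 * b * c ^ 3 * d - 2 * a ^ 3 * b * c ^ 2 * d ^ 2 - 3 * a ^
      3 * c ^ 5 + a ^ 3 * c ^ 3 * d ^ 2 + 2 * a ^ 2 * b ^ 4 * c ^ 2 + 2 * a ^ 2 * b ^ 4 * c * d -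
      6 * a ^ 2 * b ^ 3 * c ^ 3 - 8 * a ^ 2 * b ^ 3 * c ^ 2 * d - 2 * a ^ 2 * b ^ 3 * c * d ^ 2 +
      8 * a ^ 2 * b ^ 2 * c ^ 4 + 13 * a ^ 2 * b ^ 2 * c ^ 3 * d + 3 * a ^ 2 * b ^ 2 * c ^ 2 * d ^
      2 - 5 * a ^ 2 * b * c ^ 5 - 15 * a ^ 2 * b * c ^ 4 * d + 5 * a ^ 2 * b * c ^ 3 * d ^ 2 - 3 *
      a ^ 2 * b * c ^ 2 * d ^ 3 + a ^ 2 * c ^ 6 + 7 * a ^ 2 * c ^ 5 * d - 7 * a ^ 2 * c ^ 4 * d ^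
      2 + 3 * a ^ 2 * c ^ 3 * d ^ 3 - 6 * a * b ^ 4 * c ^ 2 * d + 2 * a * b ^ 4 * c * d ^ 2 + 22 *
      a * b ^ 3 * c ^ 3 * d - 8 * a * b ^ 3 * c ^ 2 * d ^ 2 + a * b ^ 3 * c * d ^ 3 + a * b ^ 2 *
      c ^ 5 - 34 * a * b ^ 2 * c ^ 4 * d + 12 * a * b ^ 2 * c ^ 3 * d ^ 2 - 2 * a * b ^ 2 * c ^ 2
      * d ^ 3 - 3 * a * b * c ^ 6 + 30 * a * b * c ^ 5 * d - 15 * a * b * c ^ 4 * d ^ 2 + 2 * a *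
      b * c ^ 3 * d ^ 3 + 3 * a * b * c ^ 2 * d ^ 4 - a * b * c * d ^ 5 + 2 * a * c ^ 7 - 12 * a *
      c ^ 6 * d + 9 * a * c ^ 5 * d ^ 2 - a * c ^ 4 * d ^ 3 - 3 * a * c ^ 3 * d ^ 4 + a * c ^ 2 *
      d ^ 5 + b ^ 4 * c ^ 4 + b ^ 4 * c ^ 3 * d - b ^ 4 * c * d ^ 3 - 5 * b ^ 3 * c ^ 5 - 3 * b ^
      3 * c ^ 4 * d - b ^ 3 * c ^ 3 * d ^ 2 + 3 * b ^ 3 * c ^ 2 * d ^ 3 - b ^ 3 * c * d ^ 4 + 7 *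
      b ^ 2 * c ^ 6 + 5 * b ^ 2 * c ^ 5 * d + 2 * b ^ 2 * c ^ 4 * d ^ 2 - 5 * b ^ 2 * c ^ 3 * d ^
      3 + b ^ 2 * c ^ 2 * d ^ 4 - 4 * b * c ^ 7 - 6 * b * c ^ 6 * d + 4 * b * c ^ 4 * d ^ 3 - 3 *
      b * c ^ 3 * d ^ 4 + b * c ^ 2 * d ^ 5 + 3 * c ^ 7 * d - 2 * c ^ 6 * d ^ 2 - 2 * c ^ 5 * d ^
      3 + 3 * c ^ 4 * d ^ 4 - c ^ 3 * d ^ 5 : ZMod 5) * h5

end Pool.Agent.Helper79.KM
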