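import Mathlib

/-!
# Sums of products of logarithms over a finite field
-/

open Finset

namespace Pool.Agent.Helper79.KM

/-- a homomorphism from the nonzero elements of a field to the additive group of `ZMod r`,
extended by zero -/
structure IsLog {K : Type*} [Field K] {r : ℕ} (l : K → ZMod r) : Prop where
  zero : l 0 = 0
  mul : ∀ x y, x ≠ 0 → y ≠ 0 → l (x * y) = l x + l y

section

variable {K : Type*} [Field K] {r : ℕ} {l : K → ZMod r}

theorem IsLog.one (hl : IsLog l) : l 1 = 0 := by
  have h := hl.mul 1 1 one_ne_zero one_ne_zero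
  rw [mul_one] at h
  linear_combination -h

theorem IsLog.inv (hl : IsLog l) (x : K) : l x⁻¹ = -l x := by
  rcases eq_or_ne x 0 with rfl | h
  · rw [inv_zero, hl.zero, neg_zero]
  · have h1 := hl.mul x x⁻¹ h (inv_ne_zero h)
    rw [mul_inv_cancel₀ h, hl.one] at h1
    linear_combination -h1

theorem IsLog.div (hl : IsLog l) {x y : K} (hx : x ≠ 0) (hy : y ≠ 0) :
    l (x / y) = l x - l y := by
  rw [div_eq_mul_inv, hl.mul _ _ hx (inv_ne_zero hy), hl.inv, sub_eq_add_neg]

variable [hr : Fact r.Prime] (hr2 : r ≠ 2)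

include hr2

theorem two_ne : (2 : ZMod r) ≠ 0 := by
  intro h
  have h1 : ((2 : ℕ) : ZMod r) = 0 := by exact_mod_cast h
  rw [ZMod.natCast_eq_zero_iff] at h1
  exact hr2 ((Nat.prime_dvd_prime_iff_eq hr.out Nat.prime_two).1 h1)

theorem IsLog.neg_one (hl : IsLog l) : l (-1) = 0 := by
  have h := hl.mul (-1) (-1) (neg_ne_zero.2 one_ne_zero) (neg_ne_zero.2 one_ne_zero)
  rw [neg_one_mul, neg_neg, hl.one] at h
  have h2 : (2 : ZMod r) * l (-1) = 0 := by linear_combination -h
  exact (mul_eq_zero.1 h2).resolve_left (two_ne hr2)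

theorem IsLog.neg (hl : IsLog l) (x : K) : l (-x) = l x := by
  rcases eq_or_ne x 0 with rfl | h
  · rw [neg_zero]
  · rw [← neg_one_mul, hl.mul _ _ (neg_ne_zero.2 one_ne_zero) h, hl.neg_one hr2, zero_add]

theorem IsLog.sub_comm (hl : IsLog l) (x y : K) : l (x - y) = l (y - x) := by
  rw [← hl.neg hr2, neg_sub]

end

section sums

variable {K : Type*} [Field K] [Fintype K] {r : ℕ} {l : K → ZMod r}
  [hr : Fact r.Prime]

omit hr in
/-- a sum over the nonzero elements is invariant under multiplication -/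
theorem sum_mul_left {M : Type*} [AddCommMonoid M] (F : K → M) {c : K} (hc : c ≠ 0) :
    ∑ x, F (c * x) = ∑ x, F x :=
  Fintype.sum_equiv (Equiv.mulLeft₀ c hc) _ _ fun _ => rfl

omit hr in
theorem sum_add_right {M : Type*} [AddCommMonoid M] (F : K → M) (c : K) :
    ∑ x, F (x + c) = ∑ x, F x :=
  Fintype.sum_equiv (Equiv.addRight c) _ _ fun _ => rfl

omit hr in
theorem sum_one_sub {M : Type*} [AddCommMonoid M] (F : K → M) :
    ∑ x, F (1 - x) = ∑ x, F x :=
  Fintype.sum_equiv (Equiv.subLeft 1) _ _ fun _ => rfl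

omit hr in
theorem sum_inv {M : Type*} [AddCommMonoid M] (F : K → M) :
    ∑ x, F x⁻¹ = ∑ x, F x :=
  Fintype.sum_equiv (Equiv.inv K) _ _ fun _ => rfl

/-- the power sums of the logarithm vanish -/
theorem sum_pow_log (hl : IsLog l) :
    ∀ k : ℕ, 0 < k → k + 1 < r → ∑ x, l x ^ k = 0 := by
  classical
  by_cases hsurj : ∀ x, l x = 0
  · intro k hk _
    exact sum_eq_zero fun x _ => by rw [hsurj x, zero_pow hk.ne']
  push Not at hsurj
  obtain ⟨g, hg⟩ := hsurj
  have hg0 : g ≠ 0 := by
    rintro rfl
    exact hg hl.zero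
  -- the sum over the nonzero elements
  have key : ∀ k : ℕ, k + 1 < r → ∑ x ∈ univ.erase (0 : K), l x ^ k = 0 := by
    intro k
    induction k using Nat.strong_induction_on with
    | _ k ih =>
      intro hk
      have h1 : ∑ x ∈ univ.erase (0 : K), (l x + l g) ^ (k + 1) =
          ∑ x ∈ univ.erase (0 : K), l x ^ (k + 1) := by
        refine sum_bij' (fun x _ => g * x) (fun x _ => g⁻¹ * x) ?_ ?_ ?_ ?_ ?_
        · intro x hx
          rw [mem_erase] at hx ⊢
          exact ⟨mul_ne_zero hg0 hx.1, mem_univ _⟩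
        · intro x hx
          rw [mem_erase] at hx ⊢
          exact ⟨mul_ne_zero (inv_ne_zero hg0) hx.1, mem_univ _⟩
        · intro x _
          rw [← mul_assoc, inv_mul_cancel₀ hg0, one_mul]
        · intro x _
          rw [← mul_assoc, mul_inv_cancel₀ hg0, one_mul]
        · intro x hx
          rw [mem_erase] at hx
          rw [hl.mul _ _ hg0 hx.1, add_comm]
      have h2 : ∑ x ∈ univ.erase (0 : K), (l x + l g) ^ (k + 1) =
          ∑ i ∈ range (k + 2), ((k + 1).choose i : ZMod r) * l g ^ (k + 1 - i) *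
            ∑ x ∈ univ.erase (0 : K), l x ^ i := by
        simp only [add_pow]
        rw [sum_comm]
        refine sum_congr rfl fun i _ => ?_
        rw [mul_sum]
        refine sum_congr rfl fun x _ => ?_
        ring
      rw [h2, sum_range_succ, sum_range_succ, Nat.sub_self, pow_zero, Nat.choose_self,
        Nat.cast_one, one_mul, one_mul, sum_eq_zero (s := range k)] at h1
      · have h3 : ((k + 1 : ℕ) : ZMod r) ≠ 0 := by
          intro h
          rw [ZMod.natCast_eq_zero_iff] at h
          exact absurd (Nat.le_of_dvd (Nat.succ_pos k) h) (by omega)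
        have h4 : (k + 1).choose k = k + 1 := by
          rw [Nat.choose_succ_self_right]
        have h5 : k + 1 - k = 1 := by omega
        rw [h4, h5, pow_one, zero_add] at h1
        have h6 : (((k + 1 : ℕ) : ZMod r) * l g) * ∑ x ∈ univ.erase (0 : K), l x ^ k = 0 := by
          linear_combination h1
        exact (mul_eq_zero.1 h6).resolve_left (mul_ne_zero h3 hg)
      · intro i hi
        rw [mem_range] at hi
        rw [ih i hi (by omega), mul_zero]
  intro k hk hkr
  rw [← add_sum_erase univ _ (mem_univ (0 : K)), hl.zero, zero_pow hk.ne', zero_add]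
  exact key k hkr

end sums

end Pool.Agent.Helper79.KM
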