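import Pool.Agent.Helper79.KM.Char

/-!
# The character sums on the plane of the vectors `(s, -s, -s, s, -t)`
-/

open Finset

namespace Pool.Agent.Helper79.KM

open Pool.Agent.Helper73.LF Pool.Agent.Helper73.QC

section

variable {K L : Type} [Field K] [Fintype K] [DecidableEq K] [Field L] [CharZero L] [IsAlgClosed L]
  {r j : ℕ} [hr : Fact r.Prime]

/-- the exponent of the value of the character at a point of the complement -/
def expo {N : ℕ} (e : K → ZMod N) (v : Fin 5 → ZMod N) (P : K × K) : ZMod N :=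
  v 0 * e P.1 + v 1 * e (1 - P.1) + v 2 * e P.2 + v 3 * e (1 - P.2) + v 4 * e (P.1 - P.2)

omit [CharZero L] [IsAlgClosed L] in
theorem quad_sum {τ : MulChar K L} {z : L} (hz : z ^ (r ^ j) = 1) {e : K → ZMod (r ^ j)}
    (he : ∀ x ≠ 0, ∀ a : ZMod (r ^ j), ch τ a x = z ^ (a * e x).val) (v : Fin 5 → ZMod (r ^ j)) :
    quad (ch τ (v 0)) (ch τ (v 1)) (ch τ (v 2)) (ch τ (v 3)) (ch τ (v 4)) =
      ∑ P ∈ pts K, z ^ (expo e v P).val := by
  rw [quad, ← sum_product', univ_product_univ]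
  refine (sum_subset_zero_on_sdiff (subset_univ (pts K)) ?_ ?_).symm
  · rintro ⟨x, y⟩ h
    rw [mem_sdiff, mem_pts] at h
    have h1 := h.2
    simp only at h1 ⊢
    by_cases hx0 : x = 0
    · rw [hx0, map_zero'']
      ring
    by_cases hx1 : x = 1
    · rw [hx1, sub_self, map_zero'']
      ring
    by_cases hy0 : y = 0
    · rw [hy0, map_zero'' (ch τ (v 2))]
      ring
    by_cases hy1 : y = 1
    · rw [hy1, sub_self, map_zero'' (ch τ (v 3))]
      ring
    by_cases hxy : x = y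
    · rw [hxy, sub_self, map_zero'' (ch τ (v 4))]
      ring
    exact absurd ⟨hx0, hx1, hy0, hy1, hxy⟩ h1
  · rintro ⟨x, y⟩ h
    rw [mem_pts] at h
    obtain ⟨hx0, hx1, hy0, hy1, hxy⟩ := h
    simp only at hx0 hx1 hy0 hy1 hxy ⊢
    rw [he x hx0, he _ (sub_ne_zero.2 hx1.symm), he y hy0, he _ (sub_ne_zero.2 hy1.symm),
      he _ (sub_ne_zero.2 hxy), ← pow_val_add hz, ← pow_val_add hz, ← pow_val_add hz,
      ← pow_val_add hz]
    rfl

/-- the logarithm modulo `r` -/
def lg (hj : 0 < j) (e : K → ZMod (r ^ j)) (x : K) : ZMod r := if x = 0 then 0 else red r j hj (e x)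

omit [Fintype K] in
theorem lg_of_ne (hj : 0 < j) (e : K → ZMod (r ^ j)) {x : K} (hx : x ≠ 0) :
    lg hj e x = red r j hj (e x) := if_neg hx

omit [Fintype K] in
theorem lg_isLog (hj : 0 < j) {e : K → ZMod (r ^ j)}
    (he : ∀ x y, x ≠ 0 → y ≠ 0 → e (x * y) = e x + e y) : IsLog (lg hj e) := by
  refine ⟨if_pos rfl, fun x y hx hy => ?_⟩
  rw [lg_of_ne hj e hx, lg_of_ne hj e hy, lg_of_ne hj e (mul_ne_zero hx hy), he x y hx hy, map_add]

/-- the relation given by the absolute value of a Jacobi sum -/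
theorem jacobi_six (hr7 : 7 < r) (hj : 0 < j) {τ : MulChar K L}
    (hτ : orderOf τ = Fintype.card K - 1)
    (hd : r ^ j ∣ Fintype.card K - 1) {z : L} (hz : IsPrimitiveRoot z (r ^ j))
    {e : K → ZMod (r ^ j)} (hadd : ∀ x y, x ≠ 0 → y ≠ 0 → e (x * y) = e x + e y)
    (he : ∀ x ≠ 0, ∀ a : ZMod (r ^ j), ch τ a x = z ^ (a * e x).val) :
    ∑ x, ∑ y, ((lg hj e x + lg hj e (1 - x)) - (lg hj e y + lg hj e (1 - y))) ^ 6 =
      4 * ∑ y, (lg hj e y + lg hj e (1 - y)) ^ 6 := by
  have hN : 1 < r ^ j := Nat.one_lt_pow hj.ne' hr.out.one_lt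
  have : NeZero (r ^ j) := ⟨by omega⟩
  have : Fact (1 < r ^ j) := ⟨hN⟩
  have hK0 : ((Fintype.card K - 1 : ℕ) : ZMod (r ^ j)) = 0 := (ZMod.natCast_eq_zero_iff _ _).2 hd
  have hz1 := hz.pow_eq_one
  set m : K → ZMod r := fun x => lg hj e x + lg hj e (1 - x) with hm
  have hl := lg_isLog hj hadd
  have m0 : m 0 = 0 := by
    rw [hm]
    simp only [sub_zero]
    rw [hl.zero, hl.one, add_zero]
  have m1 : m 1 = 0 := by
    rw [hm]
    simp only [sub_self]
    rw [hl.zero, hl.one, add_zero]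
  have h1mem : (1 : K) ∈ univ.erase (0 : K) := by
    rw [mem_erase]
    exact ⟨one_ne_zero, mem_univ _⟩
  -- the sum over the elements different from zero and one
  have hsplit : ∀ {M : Type} [AddCommMonoid M] (g : K → M), ∑ x, g x =
      g 0 + (g 1 + ∑ x ∈ (univ.erase (0 : K)).erase 1, g x) := by
    intro M _ g
    rw [add_sum_erase _ g h1mem, add_sum_erase univ g (mem_univ 0)]
  have hS : ∑ x ∈ (univ.erase (0 : K)).erase 1, ∑ y ∈ (univ.erase (0 : K)).erase 1,
      (m x - m y) ^ 6 = 0 := by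
    have hring : ringChar L ≠ ringChar K := by
      rw [ringChar.eq_zero]
      intro h
      have : CharP K 0 := by
        rw [h]
        exact ringChar.charP K
      have : CharZero K := CharP.charP_to_charZero K
      exact not_injective_infinite_finite (Nat.cast : ℕ → K) Nat.cast_injective
    have hne : ch τ (1 : ZMod (r ^ j)) ≠ 1 := ch_ne_one hτ (by rw [hK0, zero_mul]) one_ne_zero
    have hne2 : ch τ (1 : ZMod (r ^ j)) * ch τ (1 : ZMod (r ^ j)) ≠ 1 := by
      rw [← ch_add hτ (by rw [hK0, zero_mul]) (by rw [hK0, zero_mul])]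
      refine ch_ne_one hτ (by rw [hK0, zero_mul]) ?_
      intro h
      have h2 : ((2 : ℕ) : ZMod (r ^ j)) = 0 := by
        push_cast
        linear_combination h
      rw [ZMod.natCast_eq_zero_iff] at h2
      have h3 := (dvd_pow_self r hj.ne').trans h2
      have := Nat.le_of_dvd (by omega) h3
      omega
    have hJ := jacobiSum_mul_jacobiSum_inv hring hne hne hne2
    have hinv : (ch τ (1 : ZMod (r ^ j)))⁻¹ = ch τ (-1 : ZMod (r ^ j)) :=
      (ch_neg hτ (by rw [hK0, zero_mul])).symm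
    rw [hinv, jacobiSum, jacobiSum] at hJ
    have hJ' : (∑ x ∈ (univ.erase (0 : K)).erase 1, z ^ (e x + e (1 - x)).val) *
        (∑ x ∈ (univ.erase (0 : K)).erase 1, z ^ (-(e x + e (1 - x))).val) =
          ((Fintype.card K : ℤ) : L) := by
      have e0 : (1 - 0 : K) = 1 := sub_zero 1
      have e1 : (1 - 1 : K) = 0 := sub_self 1
      rw [hsplit, hsplit (fun x => ch τ (-1 : ZMod (r ^ j)) x * ch τ (-1 : ZMod (r ^ j)) (1 - x)),
        map_zero'', map_zero'', zero_mul, zero_mul, zero_add, zero_add, e1, map_zero'',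
        map_zero'', mul_zero, mul_zero, zero_add, zero_add] at hJ
      rw [Int.cast_natCast, ← hJ]
      congr 1
      · refine sum_congr rfl fun x hx => ?_
        rw [mem_erase, mem_erase] at hx
        rw [he x hx.2.1, he _ (sub_ne_zero.2 hx.1.symm), ← pow_val_add hz1, one_mul, one_mul]
      · refine sum_congr rfl fun x hx => ?_
        rw [mem_erase, mem_erase] at hx
        rw [he x hx.2.1, he _ (sub_ne_zero.2 hx.1.symm), ← pow_val_add hz1, neg_one_mul,
          neg_one_mul, ← neg_add]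
    have hphi : 6 < r ^ j - r ^ (j - 1) := by
      obtain ⟨j', rfl⟩ : ∃ j', j = j' + 1 := ⟨j - 1, by omega⟩
      rw [Nat.add_sub_cancel, pow_succ]
      have h1 : 1 ≤ r ^ j' := Nat.one_le_pow _ _ hr.out.pos
      have h2 : r ^ j' * 8 ≤ r ^ j' * r := Nat.mul_le_mul_left _ (by omega)
      omega
    have h6 := pair_moment hj hz _ _ _ hJ' (k := 6) (by omega) hphi
    rw [← h6]
    refine sum_congr rfl fun x hx => sum_congr rfl fun y hy => ?_
    rw [mem_erase, mem_erase] at hx hy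
    rw [hm]
    simp only
    rw [lg_of_ne hj e hx.2.1, lg_of_ne hj e (sub_ne_zero.2 hx.1.symm), lg_of_ne hj e hy.2.1,
      lg_of_ne hj e (sub_ne_zero.2 hy.1.symm), map_add, map_add]
  have hT : ∑ y, m y ^ 6 = ∑ y ∈ (univ.erase (0 : K)).erase 1, m y ^ 6 := by
    rw [hsplit, m0, m1]
    ring
  have h3 : ∀ x, ∑ y, (m x - m y) ^ 6 = 2 * m x ^ 6 +
      ∑ y ∈ (univ.erase (0 : K)).erase 1, (m x - m y) ^ 6 := by
    intro x
    rw [hsplit, m0, m1]
    ring
  have h4 : ∑ x, ∑ y, (m x - m y) ^ 6 = 4 * ∑ y, m y ^ 6 := by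
    simp only [h3]
    rw [sum_add_distrib, ← mul_sum]
    rw [hsplit (fun x => ∑ y ∈ (univ.erase (0 : K)).erase 1, (m x - m y) ^ 6), hS, m0, m1]
    have h5 : ∑ y ∈ (univ.erase (0 : K)).erase 1, (0 - m y) ^ 6 =
        ∑ y ∈ (univ.erase (0 : K)).erase 1, m y ^ 6 := sum_congr rfl fun y _ => by ring
    rw [h5, ← hT]
    ring
  exact h4

end

end Pool.Agent.Helper79.KM
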