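import Pool.Agent.Helper79.KM.Cnt
import Pool.Agent.Helper79.KM.Sum
import Pool.Agent.Helper79.KM.Kummer

/-!
# The character sums on the plane for the modulus `r`
-/

open Finset

namespace Pool.Agent.Helper79.KM

open Pool.Agent.Helper73.LF Pool.Agent.Helper73.QC

section

variable {K L : Type} [Field K] [Fintype K] [DecidableEq K] [Field L] [CharZero L] [IsAlgClosed L]
  {r : ℕ} [hr : Fact r.Prime]

omit [DecidableEq K] in
theorem exists_log_aux {N : ℕ} (hN : r ^ 1 = N) {τ : MulChar K L}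
    (hτ : orderOf τ = Fintype.card K - 1) (hd : N ∣ Fintype.card K - 1) :
    ∃ (z : L) (e : K → ZMod N), IsPrimitiveRoot z N ∧
      (∀ x y, x ≠ 0 → y ≠ 0 → e (x * y) = e x + e y) ∧
        (∀ x ≠ 0, ∀ a : ZMod N, ch τ a x = z ^ (a * e x).val) ∧ ∃ x ≠ 0, e x ≠ 0 := by
  subst hN
  obtain ⟨z, e, hz, hadd, he, x, hx, hred⟩ := exists_log one_pos hτ hd
  refine ⟨z, e, hz, hadd, he, x, hx, fun h => hred ?_⟩
  rw [h, map_zero]

omit [CharZero L] [IsAlgClosed L] in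
theorem quad_sum_aux {N : ℕ} (hN : r ^ 1 = N) {τ : MulChar K L} {z : L} (hz : z ^ N = 1)
    {e : K → ZMod N} (he : ∀ x ≠ 0, ∀ a : ZMod N, ch τ a x = z ^ (a * e x).val)
    (v : Fin 5 → ZMod N) :
    quad (ch τ (v 0)) (ch τ (v 1)) (ch τ (v 2)) (ch τ (v 3)) (ch τ (v 4)) =
      ∑ P ∈ pts K, z ^ (expo e v P).val := by
  subst hN
  exact quad_sum hz he v

omit [CharZero L] [IsAlgClosed L] in
theorem one_of_odd {c : L} (h2 : c ^ 2 = 1) {N : ℕ} (hN : Odd N) (h : c ^ N = 1) : c = 1 := by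
  obtain ⟨i, rfl⟩ := hN
  rwa [pow_succ, pow_mul, h2, one_pow, one_mul] at h

/-- the character sums on the plane as polynomials in a root of unity -/
theorem plane_data (hr2 : r ≠ 2) {τ : MulChar K L} (hτ : orderOf τ = Fintype.card K - 1)
    (hd : r ∣ Fintype.card K - 1) {s t : ZMod r} (hs : s ≠ 0) {a : Fin 5 → ZMod r}
    (hP : Permuted (planeVec s t) a) :
    ∃ (z : L) (l : K → ZMod r), IsPrimitiveRoot z r ∧ IsLog l ∧ (∃ x, l x ≠ 0) ∧
      quad (ch τ (a 0)) (ch τ (a 1)) (ch τ (a 2)) (ch τ (a 3)) (ch τ (a 4)) =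
        ∑ i, ∑ j, (nn l i j : L) * z ^ (i - s⁻¹ * t * j).val ∧
      quad (ch τ (a 0))⁻¹ (ch τ (a 1))⁻¹ (ch τ (a 2))⁻¹ (ch τ (a 3))⁻¹ (ch τ (a 4))⁻¹ =
        ∑ i, ∑ j, (nn l i j : L) * z ^ (i - s⁻¹ * t * j).val := by
  have : NeZero r := ⟨hr.out.ne_zero⟩
  have hro : Odd r := hr.out.odd_of_ne_two hr2
  have hK0 : ((Fintype.card K - 1 : ℕ) : ZMod r) = 0 := (ZMod.natCast_eq_zero_iff _ _).2 hd
  have hok : ∀ w : ZMod r, Ok τ w := by
    intro w
    have h2 : ((Fintype.card K - 1 : ℕ) : ZMod r) * w = 0 := by rw [hK0, zero_mul]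
    have h3 : ((r : ℕ) : ZMod r) * w = 0 := by rw [ZMod.natCast_self, zero_mul]
    refine ⟨h2, ?_⟩
    have h4 : (ch τ w (-1)) ^ r = 1 := by
      rw [← MulChar.pow_apply' _ (NeZero.ne r), ch_pow hτ h2 h3,
        MulChar.one_apply (isUnit_iff_ne_zero.2 (neg_ne_zero.2 one_ne_zero))]
    have h5 : (ch τ w (-1)) ^ 2 = 1 := by
      rw [← map_pow, neg_one_sq, map_one]
    exact one_of_odd h5 hro h4
  obtain ⟨hoka, h1, h2⟩ := qs_permuted hτ hP fun i => hok _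
  have hinv : quad (ch τ (a 0))⁻¹ (ch τ (a 1))⁻¹ (ch τ (a 2))⁻¹ (ch τ (a 3))⁻¹ (ch τ (a 4))⁻¹ =
      qs τ (-a) := by
    rw [qs]
    simp only [Pi.neg_apply]
    rw [ch_neg hτ (hoka 0).1, ch_neg hτ (hoka 1).1, ch_neg hτ (hoka 2).1, ch_neg hτ (hoka 3).1,
      ch_neg hτ (hoka 4).1]
  have hdir : quad (ch τ (a 0)) (ch τ (a 1)) (ch τ (a 2)) (ch τ (a 3)) (ch τ (a 4)) =
      qs τ a := rfl
  rw [hinv, hdir, h1, h2]
  obtain ⟨z, e, hz, hadd, he, x₀, hx₀, hne⟩ := exists_log_aux (pow_one r) hτ hd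
  set l : K → ZMod r := fun x => if x = 0 then 0 else e x with hl
  have hl0 : ∀ x ≠ 0, l x = e x := fun x hx => if_neg hx
  have hL : IsLog l := by
    refine ⟨if_pos rfl, fun x y hx hy => ?_⟩
    rw [hl0 x hx, hl0 y hy, hl0 _ (mul_ne_zero hx hy), hadd x y hx hy]
  have hz' : IsPrimitiveRoot (z ^ s.val) r := by
    refine hz.pow_of_coprime _ ?_
    refine (Nat.Coprime.symm ?_)
    rw [hr.out.coprime_iff_not_dvd]
    intro h
    have h3 := Nat.eq_zero_of_dvd_of_lt h (ZMod.val_lt s)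
    exact hs ((ZMod.val_eq_zero s).1 h3)
  have key : ∀ u : ZMod r, z ^ (s * u).val = (z ^ s.val) ^ u.val := fun u => by
    rw [mul_comm]
    exact pow_val_mul hz.pow_eq_one u s
  have hst : s * (s⁻¹ * t) = t := by
    rw [← mul_assoc, mul_inv_cancel₀ hs, one_mul]
  have hex : ∀ P ∈ pts K, expo e (planeVec s t) P = s * (lam l P - s⁻¹ * t * dif l P) := by
    rintro ⟨x, y⟩ hP
    rw [mem_pts] at hP
    obtain ⟨hx0, hx1, hy0, hy1, hxy⟩ := hP
    simp only at hx0 hx1 hy0 hy1 hxy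
    simp only [expo, lam, dif, planeVec, Matrix.cons_val]
    rw [hl0 x hx0, hl0 _ (sub_ne_zero.2 hx1.symm), hl0 y hy0, hl0 _ (sub_ne_zero.2 hy1.symm),
      hl0 _ (sub_ne_zero.2 hxy)]
    linear_combination (e (x - y)) * hst
  have q1 : qs τ (planeVec s t) =
      ∑ i, ∑ j, (nn l i j : L) * (z ^ s.val) ^ (i - s⁻¹ * t * j).val := by
    rw [qs, quad_sum_aux (pow_one r) hz.pow_eq_one he,
      ← sum_nn (l := l) (fun i j => (z ^ s.val) ^ (i - s⁻¹ * t * j).val)]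
    refine sum_congr rfl fun P hP => ?_
    rw [hex P hP, key]
  have q2 : qs τ (-planeVec s t) =
      ∑ i, ∑ j, (nn l i j : L) * (z ^ s.val) ^ (i - s⁻¹ * t * j).val := by
    have h3 : qs τ (-planeVec s t) =
        ∑ i, ∑ j, (nn l i j : L) * (z ^ s.val) ^ (-(i - s⁻¹ * t * j)).val := by
      rw [qs, quad_sum_aux (pow_one r) hz.pow_eq_one he,
        ← sum_nn (l := l) (fun i j => (z ^ s.val) ^ (-(i - s⁻¹ * t * j)).val)]
      refine sum_congr rfl fun P hP => ?_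
      rw [← key]
      congr 2
      have h4 := hex P hP
      simp only [expo, Pi.neg_apply] at h4 ⊢
      linear_combination -h4
    rw [h3, ← Equiv.sum_comp (Equiv.neg (ZMod r))]
    refine sum_congr rfl fun i _ => ?_
    rw [← Equiv.sum_comp (Equiv.neg (ZMod r))]
    refine sum_congr rfl fun j _ => ?_
    simp only [Equiv.neg_apply]
    rw [nn_neg_left hr2 hL, nn_neg_right hr2 hL]
    congr 3
    ring
  exact ⟨z ^ s.val, l, hz', hL, ⟨x₀, by rwa [hl0 x₀ hx₀]⟩, q1, q2⟩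

end

end Pool.Agent.Helper79.KM
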