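import Mathlib

/-!
# Sums of roots of unity of prime power order and power sums of the exponents
-/

open Polynomial Finset

namespace Pool.Agent.Helper79.KM

section

variable {F : Type*} [Field F]

theorem dvd_theta {N : ℕ} {G : F[X]} (h : (X - 1) ^ (N + 1) ∣ G) :
    (X - 1) ^ N ∣ X * derivative G := by
  obtain ⟨H, rfl⟩ := h
  refine Dvd.dvd.mul_left ?_ _
  rw [derivative_mul, derivative_pow_succ]
  refine dvd_add (Dvd.dvd.mul_right (Dvd.dvd.mul_right (Dvd.dvd.mul_left (dvd_refl _) _) _) _)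
    (Dvd.dvd.mul_right (pow_dvd_pow _ (Nat.le_succ N)) _)

/-- the iterated Euler derivative -/
noncomputable def theta (k : ℕ) (G : F[X]) : F[X] := (fun H => X * derivative H)^[k] G

theorem theta_succ (k : ℕ) (G : F[X]) : theta (k + 1) G = X * derivative (theta k G) := by
  rw [theta, theta, Function.iterate_succ_apply']

theorem dvd_theta_iter (k : ℕ) : ∀ {N : ℕ} {G : F[X]}, (X - 1) ^ (N + k) ∣ G →
    (X - 1) ^ N ∣ theta k G := by
  induction k with
  | zero => intro N G h; exact h
  | succ k ih =>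
    intro N G h
    rw [theta_succ]
    apply dvd_theta
    apply ih
    rwa [add_right_comm, add_assoc]

theorem theta_sum {ι : Type*} (s : Finset ι) (c : ι → F) (m : ι → ℕ) (k : ℕ) :
    theta k (∑ i ∈ s, C (c i) * X ^ m i) = ∑ i ∈ s, C (c i * (m i : F) ^ k) * X ^ m i := by
  induction k with
  | zero => simp [theta]
  | succ k ih =>
    rw [theta_succ, ih, derivative_sum, mul_sum]
    refine sum_congr rfl fun i _ => ?_
    rw [derivative_C_mul_X_pow]
    rcases Nat.eq_zero_or_pos (m i) with h | h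
    · rw [h]
      simp
    · obtain ⟨j, hj⟩ : ∃ j, m i = j + 1 := ⟨m i - 1, by omega⟩
      rw [hj]
      simp only [Nat.add_sub_cancel, map_mul, pow_succ]
      ring

theorem eval_theta {ι : Type*} (s : Finset ι) (c : ι → F) (m : ι → ℕ) (k N : ℕ) (hk : k < N)
    (h : (X - 1) ^ N ∣ ∑ i ∈ s, C (c i) * X ^ m i) : ∑ i ∈ s, c i * (m i : F) ^ k = 0 := by
  have h1 : (X - 1) ^ (N - k) ∣ theta k (∑ i ∈ s, C (c i) * X ^ m i) := by
    apply dvd_theta_iter
    rwa [Nat.sub_add_cancel hk.le]
  obtain ⟨H, hH⟩ := h1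
  rw [theta_sum] at hH
  have h2 := congrArg (eval 1) hH
  rw [eval_finsetSum, eval_mul, eval_pow, eval_sub, eval_X, eval_one, sub_self,
    zero_pow (by omega), zero_mul] at h2
  rw [← h2]
  refine sum_congr rfl fun i _ => ?_
  rw [eval_mul, eval_C, eval_pow, eval_X, one_pow, mul_one]

end

/-- A relation between powers of a primitive root of unity of order `r ^ j` gives relations modulo
`r` for the powers of the exponents. -/
theorem moment {L : Type*} [Field L] [CharZero L] {r j : ℕ} [hr : Fact r.Prime] (hj : 0 < j)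
    {z : L} (hz : IsPrimitiveRoot z (r ^ j)) {ι : Type*} (s : Finset ι) (c : ι → ℤ) (m : ι → ℕ)
    (h : ∑ i ∈ s, (c i : L) * z ^ m i = 0) {k : ℕ} (hk : k < r ^ j - r ^ (j - 1)) :
    ∑ i ∈ s, (c i : ZMod r) * (m i : ZMod r) ^ k = 0 := by
  have hpos : 0 < r ^ j := pow_pos hr.out.pos j
  set G : ℤ[X] := ∑ i ∈ s, C (c i) * X ^ m i with hG
  have h1 : aeval z G = 0 := by
    rw [hG, map_sum, ← h]
    refine sum_congr rfl fun i _ => ?_
    rw [map_mul, map_pow, aeval_X, aeval_C, algebraMap_int_eq, eq_intCast]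
  have h2 : cyclotomic (r ^ j) ℤ ∣ G := by
    rw [cyclotomic_eq_minpoly hz hpos]
    exact minpoly.isIntegrallyClosed_dvd (hz.isIntegral hpos) h1
  have h3 : (X - 1) ^ (r ^ j - r ^ (j - 1)) ∣ G.map (Int.castRingHom (ZMod r)) := by
    have h4 := cyclotomic_mul_prime_pow_eq (ZMod r) (p := r) (m := 1)
      (by rw [Nat.dvd_one]; exact hr.out.one_lt.ne') hj
    rw [mul_one, cyclotomic_one] at h4
    rw [← h4, ← map_cyclotomic_int]
    exact Polynomial.map_dvd _ h2
  have h4 : G.map (Int.castRingHom (ZMod r)) = ∑ i ∈ s, C ((c i : ZMod r)) * X ^ m i := by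
    rw [hG, Polynomial.map_sum]
    refine sum_congr rfl fun i _ => ?_
    rw [Polynomial.map_mul, Polynomial.map_pow, map_X, map_C, eq_intCast]
  rw [h4] at h3
  exact eval_theta s _ m k _ hk h3

end Pool.Agent.Helper79.KM
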