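import Pool.Agent.Helper79.KM.Two

/-!
# The moments of the logarithms on the complement of the quadrilateral, and its symmetries
-/

open Finset

namespace Pool.Agent.Helper79.KM

section

variable {K : Type*} [Field K] [Fintype K] [DecidableEq K]

theorem sum_invol {M : Type*} [AddCommMonoid M] (σ : K × K → K × K)
    (h1 : ∀ P ∈ pts K, σ P ∈ pts K) (h2 : ∀ P ∈ pts K, σ (σ P) = P) (F : K × K → M) :
    ∑ P ∈ pts K, F (σ P) = ∑ P ∈ pts K, F P :=
  sum_bij' (fun P _ => σ P) (fun P _ => σ P) h1 h1 h2 h2 fun _ _ => rfl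

theorem sum_zeroOne {M : Type*} [AddCommMonoid M] (F : K × K → M) :
    ∑ P ∈ pts K, F (1 - P.1, 1 - P.2) = ∑ P ∈ pts K, F P := by
  refine sum_invol (fun P => (1 - P.1, 1 - P.2)) ?_ ?_ F
  · rintro ⟨x, y⟩ h
    rw [mem_pts] at h ⊢
    obtain ⟨hx0, hx1, hy0, hy1, hxy⟩ := h
    simp only at hx0 hx1 hy0 hy1 hxy ⊢
    refine ⟨sub_ne_zero.2 hx1.symm, ?_, sub_ne_zero.2 hy1.symm, ?_, ?_⟩
    · intro h
      exact hx0 (by linear_combination -h)
    · intro h
      exact hy0 (by linear_combination -h)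
    · intro h
      exact hxy (by linear_combination -h)
  · rintro ⟨x, y⟩ _
    simp

theorem sum_zeroInf {M : Type*} [AddCommMonoid M] (F : K × K → M) :
    ∑ P ∈ pts K, F (P.1⁻¹, P.2⁻¹) = ∑ P ∈ pts K, F P := by
  refine sum_invol (fun P => (P.1⁻¹, P.2⁻¹)) ?_ ?_ F
  · rintro ⟨x, y⟩ h
    rw [mem_pts] at h ⊢
    obtain ⟨hx0, hx1, hy0, hy1, hxy⟩ := h
    simp only at hx0 hx1 hy0 hy1 hxy ⊢
    refine ⟨inv_ne_zero hx0, ?_, inv_ne_zero hy0, ?_, ?_⟩
    · intro h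
      exact hx1 (inv_eq_one.1 h)
    · intro h
      exact hy1 (inv_eq_one.1 h)
    · intro h
      exact hxy (inv_injective h)
  · rintro ⟨x, y⟩ _
    simp

theorem sum_oneY {M : Type*} [AddCommMonoid M] (F : K × K → M) :
    ∑ P ∈ pts K, F (P.1 / P.2, P.2⁻¹) = ∑ P ∈ pts K, F P := by
  refine sum_invol (fun P => (P.1 / P.2, P.2⁻¹)) ?_ ?_ F
  · rintro ⟨x, y⟩ h
    rw [mem_pts] at h ⊢
    obtain ⟨hx0, hx1, hy0, hy1, hxy⟩ := h
    simp only at hx0 hx1 hy0 hy1 hxy ⊢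
    refine ⟨div_ne_zero hx0 hy0, ?_, inv_ne_zero hy0, ?_, ?_⟩
    · intro h
      exact hxy ((div_eq_one_iff_eq hy0).1 h)
    · intro h
      exact hy1 (inv_eq_one.1 h)
    · intro h
      apply hx1
      have h1 : x / y * y = y⁻¹ * y := by rw [h]
      rwa [div_mul_cancel₀ _ hy0, inv_mul_cancel₀ hy0] at h1
  · rintro ⟨x, y⟩ h
    rw [mem_pts] at h
    have hy0 : y ≠ 0 := h.2.2.1
    simp only [Prod.mk.injEq, inv_inv, and_true]
    field_simp

end

section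

variable {K : Type*} [Field K] [Fintype K] [DecidableEq K] {r : ℕ} {l : K → ZMod r}

/-- the logarithm of the product of the powers of the five functions -/
def ex (l : K → ZMod r) (a b c d e : ZMod r) (P : K × K) : ZMod r :=
  a * l P.1 + b * l (1 - P.1) + c * l P.2 + d * l (1 - P.2) + e * l (P.1 - P.2)

/-- the moments -/
def mo (l : K → ZMod r) (a b c d e : ZMod r) (k : ℕ) : ZMod r :=
  ∑ P ∈ pts K, ex l a b c d e P ^ k

variable [hr : Fact r.Prime] (hr2 : r ≠ 2) (hl : IsLog l)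

include hr2 hl

theorem mo_swap (a b c d e : ZMod r) (k : ℕ) : mo l a b c d e k = mo l c d a b e k := by
  rw [mo, ← swap_pts, mo]
  refine sum_congr rfl fun P _ => ?_
  congr 1
  simp only [ex, Prod.fst_swap, Prod.snd_swap]
  rw [hl.sub_comm hr2 P.2 P.1]
  ring

omit hr hr2 hl in
theorem mo_zeroOne' (h : ∀ x y, l (x - y) = l (y - x)) (a b c d e : ZMod r) (k : ℕ) :
    mo l a b c d e k = mo l b a d c e k := by
  rw [mo, ← sum_zeroOne, mo]
  refine sum_congr rfl fun P _ => ?_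
  congr 1
  simp only [ex, sub_sub_cancel]
  have h1 : 1 - P.1 - (1 - P.2) = P.2 - P.1 := by ring
  rw [h1, h P.2 P.1]
  ring

theorem mo_zeroOne (a b c d e : ZMod r) (k : ℕ) : mo l a b c d e k = mo l b a d c e k :=
  mo_zeroOne' (fun x y => hl.sub_comm hr2 x y) a b c d e k

theorem mo_zeroInf (a b c d e : ZMod r) (k : ℕ) :
    mo l a b c d e k = mo l (-(a + b + e)) b (-(c + d + e)) d e k := by
  rw [mo, ← sum_zeroInf, mo]
  refine sum_congr rfl ?_
  rintro ⟨x, y⟩ h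
  rw [mem_pts] at h
  obtain ⟨hx0, hx1, hy0, hy1, hxy⟩ := h
  simp only at hx0 hx1 hy0 hy1 hxy
  congr 1
  simp only [ex]
  have h1 : 1 - x⁻¹ = (x - 1) / x := by field_simp
  have h2 : 1 - y⁻¹ = (y - 1) / y := by field_simp
  have h3 : x⁻¹ - y⁻¹ = (y - x) / (x * y) := by field_simp
  rw [h1, h2, h3, hl.inv, hl.inv, hl.div (sub_ne_zero.2 hx1) hx0, hl.div (sub_ne_zero.2 hy1) hy0,
    hl.div (sub_ne_zero.2 hxy.symm) (mul_ne_zero hx0 hy0), hl.mul _ _ hx0 hy0,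
    hl.sub_comm hr2 x 1, hl.sub_comm hr2 y 1, hl.sub_comm hr2 y x]
  ring

theorem mo_oneY (a b c d e : ZMod r) (k : ℕ) :
    mo l a b c d e k = mo l a e (-(a + b + c + d + e)) d b k := by
  rw [mo, ← sum_oneY, mo]
  refine sum_congr rfl ?_
  rintro ⟨x, y⟩ h
  rw [mem_pts] at h
  obtain ⟨hx0, hx1, hy0, hy1, hxy⟩ := h
  simp only at hx0 hx1 hy0 hy1 hxy
  congr 1
  simp only [ex]
  have h1 : 1 - x / y = (y - x) / y := by field_simp
  have h2 : 1 - y⁻¹ = (y - 1) / y := by field_simp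
  have h3 : x / y - y⁻¹ = (x - 1) / y := by field_simp
  rw [h1, h2, h3, hl.inv, hl.div hx0 hy0, hl.div (sub_ne_zero.2 hxy.symm) hy0,
    hl.div (sub_ne_zero.2 hy1) hy0, hl.div (sub_ne_zero.2 hx1) hy0, hl.sub_comm hr2 x 1,
    hl.sub_comm hr2 y 1, hl.sub_comm hr2 y x]
  ring

end

end Pool.Agent.Helper79.KM
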