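import Pool.Agent.Helper79.KM.Log

/-!
# Sums of products of the logarithms of `x` and `1 - x`
-/

open Finset

namespace Pool.Agent.Helper79.KM

section

variable {K : Type*} [Field K] [Fintype K] {r : ℕ} {l : K → ZMod r}

/-- the sum of the products of powers of the logarithms of `x` and `1 - x` -/
def bs (l : K → ZMod r) (a b : ℕ) : ZMod r := ∑ x, l x ^ a * l (1 - x) ^ b

theorem bs_comm (a b : ℕ) : bs l a b = bs l b a := by
  rw [bs, ← sum_one_sub, bs]
  refine sum_congr rfl fun x _ => ?_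
  rw [sub_sub_cancel, mul_comm]

variable [hr : Fact r.Prime] (hr2 : r ≠ 2)

include hr2

theorem bs_inv (hl : IsLog l) {a : ℕ} (ha : 0 < a) (b : ℕ) :
    bs l a b = ∑ x, (-l x) ^ a * (l (1 - x) - l x) ^ b := by
  rw [bs, ← sum_inv]
  refine sum_congr rfl fun x _ => ?_
  rcases eq_or_ne x 0 with rfl | h
  · rw [inv_zero, hl.zero, neg_zero, zero_pow ha.ne', zero_mul, zero_mul]
  · rw [hl.inv]
    congr 2
    rcases eq_or_ne x 1 with rfl | h1
    · rw [inv_one, sub_self, hl.zero, hl.one, sub_zero]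
    · have e : 1 - x⁻¹ = (x - 1) / x := by field_simp
      rw [e, hl.div (sub_ne_zero.2 h1) h, hl.sub_comm hr2]

theorem bs11 (hl : IsLog l) (h : 3 < r) : bs l 1 1 = 0 := by
  have h1 := bs_inv hr2 hl one_pos 1
  have h2 := sum_pow_log hl 2 (by omega) (by omega)
  have h3 : ∑ x, (-l x) ^ 1 * (l (1 - x) - l x) ^ 1 = -bs l 1 1 + ∑ x, l x ^ 2 := by
    rw [bs, ← sum_neg_distrib, ← sum_add_distrib]
    exact sum_congr rfl fun x _ => by ring
  rw [h3, h2] at h1
  have h4 : (2 : ZMod r) * bs l 1 1 = 0 := by linear_combination h1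
  exact (mul_eq_zero.1 h4).resolve_left (two_ne hr2)

theorem bs31 (hl : IsLog l) (h : 5 < r) : bs l 3 1 = 0 := by
  have h1 := bs_inv hr2 hl (show 0 < 3 by omega) 1
  have h2 := sum_pow_log hl 4 (by omega) (by omega)
  have h3 : ∑ x, (-l x) ^ 3 * (l (1 - x) - l x) ^ 1 = -bs l 3 1 + ∑ x, l x ^ 4 := by
    rw [bs, ← sum_neg_distrib, ← sum_add_distrib]
    exact sum_congr rfl fun x _ => by ring
  rw [h3, h2] at h1
  have h4 : (2 : ZMod r) * bs l 3 1 = 0 := by linear_combination h1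
  exact (mul_eq_zero.1 h4).resolve_left (two_ne hr2)

theorem bs51 (hl : IsLog l) (h : 7 < r) : bs l 5 1 = 0 := by
  have h1 := bs_inv hr2 hl (show 0 < 5 by omega) 1
  have h2 := sum_pow_log hl 6 (by omega) (by omega)
  have h3 : ∑ x, (-l x) ^ 5 * (l (1 - x) - l x) ^ 1 = -bs l 5 1 + ∑ x, l x ^ 6 := by
    rw [bs, ← sum_neg_distrib, ← sum_add_distrib]
    exact sum_congr rfl fun x _ => by ring
  rw [h3, h2] at h1
  have h4 : (2 : ZMod r) * bs l 5 1 = 0 := by linear_combination h1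
  exact (mul_eq_zero.1 h4).resolve_left (two_ne hr2)

omit hr2 in
theorem natCast_ne {m : ℕ} (h : ∀ q : ℕ, q.Prime → q ∣ m → q < r) :
    ((m : ℕ) : ZMod r) ≠ 0 := by
  intro h1
  rw [ZMod.natCast_eq_zero_iff] at h1
  exact absurd (h r hr.out h1) (lt_irrefl r)

theorem bs22 (hl : IsLog l) (h : 5 < r) : bs l 2 2 = 0 := by
  have h1 := bs_inv hr2 hl one_pos 3
  have h2 := sum_pow_log hl 4 (by omega) (by omega)
  have h3 : ∑ x, (-l x) ^ 1 * (l (1 - x) - l x) ^ 3 =
      -bs l 1 3 + 3 * bs l 2 2 - 3 * bs l 3 1 + ∑ x, l x ^ 4 := by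
    simp only [bs, mul_sum, ← sum_neg_distrib, ← sum_add_distrib, ← sum_sub_distrib]
    exact sum_congr rfl fun x _ => by ring
  rw [h3, h2, bs_comm 1 3, bs31 hr2 hl h] at h1
  have h4 : ((3 : ℕ) : ZMod r) * bs l 2 2 = 0 := by
    push_cast
    linear_combination -h1
  refine (mul_eq_zero.1 h4).resolve_left (natCast_ne fun q _ hq' => ?_)
  have := Nat.le_of_dvd (by omega) hq'
  omega

theorem bs33 (hl : IsLog l) (h : 7 < r) : 2 * bs l 3 3 = 3 * bs l 4 2 := by
  have h1 := bs_inv hr2 hl (show 0 < 3 by omega) 3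
  have h2 := sum_pow_log hl 6 (by omega) (by omega)
  have h3 : ∑ x, (-l x) ^ 3 * (l (1 - x) - l x) ^ 3 =
      -bs l 3 3 + 3 * bs l 4 2 - 3 * bs l 5 1 + ∑ x, l x ^ 6 := by
    simp only [bs, mul_sum, ← sum_neg_distrib, ← sum_add_distrib, ← sum_sub_distrib]
    exact sum_congr rfl fun x _ => by ring
  rw [h3, h2, bs51 hr2 hl h] at h1
  linear_combination h1

omit hr2 in
theorem sum_pow_log' (hl : IsLog l) {k : ℕ} (hk : 0 < k) (h : k + 1 < r) :
    ∑ x, l (1 - x) ^ k = 0 := by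
  rw [sum_one_sub (fun x => l x ^ k)]
  exact sum_pow_log hl k hk h

/-- the values of the power sums of `l x + l (1 - x)` -/
theorem one_moments (hl : IsLog l) (h : 7 < r) :
    ∑ x, (l x + l (1 - x)) ^ 1 = 0 ∧ ∑ x, (l x + l (1 - x)) ^ 2 = 0 ∧
      ∑ x, (l x + l (1 - x)) ^ 3 = 6 * bs l 2 1 ∧ ∑ x, (l x + l (1 - x)) ^ 4 = 0 ∧
        ∑ x, (l x + l (1 - x)) ^ 6 = 60 * bs l 4 2 := by
  refine ⟨?_, ?_, ?_, ?_, ?_⟩
  · have h1 : ∑ x, (l x + l (1 - x)) ^ 1 = ∑ x, l x ^ 1 + ∑ x, l (1 - x) ^ 1 := by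
      rw [← sum_add_distrib]
      exact sum_congr rfl fun x _ => by ring
    rw [h1, sum_pow_log hl 1 (by omega) (by omega), sum_pow_log' hl (by omega) (by omega),
      add_zero]
  · have h1 : ∑ x, (l x + l (1 - x)) ^ 2 = ∑ x, l x ^ 2 + ∑ x, l (1 - x) ^ 2 +
        2 * bs l 1 1 := by
      simp only [bs, mul_sum, ← sum_add_distrib]
      exact sum_congr rfl fun x _ => by ring
    rw [h1, sum_pow_log hl 2 (by omega) (by omega), sum_pow_log' hl (by omega) (by omega),
      bs11 hr2 hl (by omega)]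
    ring
  · have h1 : ∑ x, (l x + l (1 - x)) ^ 3 = ∑ x, l x ^ 3 + ∑ x, l (1 - x) ^ 3 +
        3 * bs l 2 1 + 3 * bs l 1 2 := by
      simp only [bs, mul_sum, ← sum_add_distrib]
      exact sum_congr rfl fun x _ => by ring
    rw [h1, sum_pow_log hl 3 (by omega) (by omega), sum_pow_log' hl (by omega) (by omega),
      bs_comm 1 2]
    ring
  · have h1 : ∑ x, (l x + l (1 - x)) ^ 4 = ∑ x, l x ^ 4 + ∑ x, l (1 - x) ^ 4 +
        4 * bs l 3 1 + 6 * bs l 2 2 + 4 * bs l 1 3 := by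
      simp only [bs, mul_sum, ← sum_add_distrib]
      exact sum_congr rfl fun x _ => by ring
    rw [h1, sum_pow_log hl 4 (by omega) (by omega), sum_pow_log' hl (by omega) (by omega),
      bs_comm 1 3, bs31 hr2 hl (by omega), bs22 hr2 hl (by omega)]
    ring
  · have h1 : ∑ x, (l x + l (1 - x)) ^ 6 = ∑ x, l x ^ 6 + ∑ x, l (1 - x) ^ 6 +
        6 * bs l 5 1 + 15 * bs l 4 2 + 20 * bs l 3 3 + 15 * bs l 2 4 + 6 * bs l 1 5 := by
      simp only [bs, mul_sum, ← sum_add_distrib]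
      exact sum_congr rfl fun x _ => by ring
    rw [h1, sum_pow_log hl 6 (by omega) (by omega), sum_pow_log' hl (by omega) (by omega),
      bs_comm 1 5, bs_comm 2 4, bs51 hr2 hl h]
    linear_combination 10 * bs33 hr2 hl h

end

section pairs

variable {K : Type*} [Field K] [Fintype K] [DecidableEq K] {r : ℕ} {l : K → ZMod r}
  [hr : Fact r.Prime] (hr2 : r ≠ 2)

include hr2

/-- the sum of the products of two logarithms -/
theorem pair_sum (hl : IsLog l) (hK : (Fintype.card K : ZMod r) = 1) (h : 3 < r) {u v : K}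
    (huv : u ≠ v) : ∑ z, l (z + u) * l (z + v) = -l (u - v) ^ 2 := by
  have hd : v - u ≠ 0 := sub_ne_zero.2 huv.symm
  have e0 : ∑ z, l (z + u) * l (z + v) = ∑ z, l z * l (z + (v - u)) := by
    rw [← sum_add_right (fun z => l z * l (z + (v - u))) u]
    refine sum_congr rfl fun z _ => ?_
    congr 2
    ring
  have e1 : ∑ z, l z * l (z + (v - u)) =
      ∑ y, l ((v - u) * y) * l ((v - u) * y + (v - u)) :=
    (sum_mul_left (fun z => l z * l (z + (v - u))) hd).symm
  have e2 : ∀ y, l ((v - u) * y) * l ((v - u) * y + (v - u)) =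
      (l (v - u) + l y) * (l (v - u) + l (y + 1)) - (if y = 0 then l (v - u) ^ 2 else 0) -
        (if y = -1 then l (v - u) ^ 2 else 0) := by
    intro y
    have h3 : (v - u) * y + (v - u) = (v - u) * (y + 1) := by ring
    rw [h3]
    rcases eq_or_ne y 0 with rfl | h0
    · rw [mul_zero, hl.zero, zero_mul, zero_add, hl.one, if_pos rfl, if_neg (by
        rw [eq_comm, neg_eq_zero]; exact one_ne_zero)]
      ring
    · rcases eq_or_ne y (-1) with rfl | h1
      · rw [neg_add_cancel, mul_zero, hl.zero, mul_zero, if_neg h0, if_pos rfl, hl.neg_one hr2]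
        ring
      · rw [if_neg h0, if_neg h1, hl.mul _ _ hd h0, hl.mul _ _ hd (by
          intro h4
          exact h1 (eq_neg_of_add_eq_zero_left h4))]
        ring
  have e3 : ∑ y, l y * l (y + 1) = 0 := by
    rw [← bs11 hr2 hl h, bs]
    refine Fintype.sum_equiv (Equiv.neg K) _ _ fun y => ?_
    rw [Equiv.neg_apply, hl.neg hr2, sub_neg_eq_add, pow_one, pow_one, add_comm 1 y]
  have p1 : ∑ y, l y = 0 := by
    have := sum_pow_log hl 1 (by omega) (by omega)
    simpa using this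
  have p2 : ∑ y, l (y + 1) = 0 := by rw [sum_add_right l 1, p1]
  rw [e0, e1]
  simp only [e2, sum_sub_distrib, sum_ite_eq', mem_univ, if_true]
  have e4 : ∑ y, (l (v - u) + l y) * (l (v - u) + l (y + 1)) =
      (Fintype.card K : ZMod r) * l (v - u) ^ 2 + l (v - u) * (∑ y, l y) +
        l (v - u) * (∑ y, l (y + 1)) + ∑ y, l y * l (y + 1) := by
    rw [mul_sum, mul_sum, ← nsmul_eq_mul, ← card_univ, ← sum_const, ← sum_add_distrib,
      ← sum_add_distrib, ← sum_add_distrib]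
    exact sum_congr rfl fun x _ => by ring
  rw [e4, p1, p2, e3, hK, hl.sub_comm hr2 u v]
  ring

omit [DecidableEq K] hr2 in
theorem square_sum (hl : IsLog l) (h : 3 < r) (u : K) : ∑ z, l (z + u) * l (z + u) = 0 := by
  have h1 := sum_pow_log hl 2 (by omega) (by omega)
  rw [← sum_add_right _ u] at h1
  rw [← h1]
  exact sum_congr rfl fun x _ => by ring

end pairs

end Pool.Agent.Helper79.KM
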