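import Pool.Agent.Helper44.KM.FiveCount
import Pool.Agent.Helper79.KM.Cnt

/-!
# The number of points with a given value of `l x + 2 l (1 - x) + 3 l y + 4 l (1 - y)`
-/

open Finset

namespace Pool.Agent.Helper79.KM

open Pool.Agent.Helper44.KM

theorem one_add_two_ne : (1 : ZMod 5) + 2 ≠ 0 := by decide

section

variable {K : Type*} [Field K] [Fintype K] [DecidableEq K] {r : ℕ} {l : K → ZMod r}

/-- the number of pairs with a given difference of `l x + c * l (1 - x)` -/
theorem pair_count_mul [hr : Fact r.Prime] (hl : IsLog l) (h0 : ∃ x, l x ≠ 0) {c : ZMod r}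
    (hc : c ≠ 0) (hc1 : 1 + c ≠ 0) {j : ZMod r} (hj : j ≠ 0) :
    ((((rest K) ×ˢ (rest K)).filter fun P =>
      (l P.1 + c * l (1 - P.1)) - (l P.2 + c * l (1 - P.2)) = 0).card : ℤ) =
        (((rest K) ×ˢ (rest K)).filter fun P =>
          (l P.1 + c * l (1 - P.1)) - (l P.2 + c * l (1 - P.2)) = j).card + Fintype.card K := by
  have : NeZero r := ⟨hr.out.ne_zero⟩
  obtain ⟨g, hg⟩ := h0
  have hg0 : g ≠ 0 := by
    rintro rfl
    exact hg hl.zero
  have hl' : IsLog fun x => c * l x :=
    ⟨by rw [hl.zero, mul_zero], fun x y hx hy => by rw [hl.mul x y hx hy, mul_add]⟩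
  have hz := Complex.isPrimitiveRoot_exp r hr.out.ne_zero
  set z := Complex.exp (2 * Real.pi * Complex.I / r)
  have hz1 := hz.pow_eq_one
  set χ := lchar hl hz1 with hχ
  set φ := lchar hl' hz1 with hφ
  have happ : ∀ x : K, x ≠ 0 → χ x = z ^ (l x).val := fun x hx => lchar_apply hl hz1 hx
  have happ' : ∀ x : K, x ≠ 0 → φ x = z ^ (c * l x).val := fun x hx => lchar_apply hl' hz1 hx
  have hinv : ∀ x : K, x ≠ 0 → χ⁻¹ x = z ^ (-l x).val := by
    intro x hx
    rw [MulChar.inv_apply', happ _ (inv_ne_zero hx), hl.inv]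
  have hinv' : ∀ x : K, x ≠ 0 → φ⁻¹ x = z ^ (-(c * l x)).val := by
    intro x hx
    rw [MulChar.inv_apply', happ' _ (inv_ne_zero hx), hl.inv, mul_neg]
  have hpow : ∀ a : ZMod r, a ≠ 0 → z ^ a.val ≠ 1 := by
    intro a ha h
    have h1 := (hz.pow_eq_one_iff_dvd _).1 h
    have h2 := Nat.eq_zero_of_dvd_of_lt h1 (ZMod.val_lt a)
    exact ha ((ZMod.val_eq_zero a).1 h2)
  have hne : χ ≠ 1 := by
    intro h
    have h1 := happ g hg0
    rw [h, MulChar.one_apply (isUnit_iff_ne_zero.2 hg0)] at h1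
    exact hpow _ hg h1.symm
  have hne' : φ ≠ 1 := by
    intro h
    have h1 := happ' g hg0
    rw [h, MulChar.one_apply (isUnit_iff_ne_zero.2 hg0)] at h1
    exact hpow _ (mul_ne_zero hc hg) h1.symm
  have hne2 : χ * φ ≠ 1 := by
    intro h
    have h1 : (χ * φ) g = z ^ (l g + c * l g).val := by
      rw [MulChar.mul_apply, happ g hg0, happ' g hg0, Helper44.KM.pow_val_add' hz1]
    rw [h, MulChar.one_apply (isUnit_iff_ne_zero.2 hg0)] at h1
    refine hpow _ ?_ h1.symm
    intro h2
    have h3 : (1 + c) * l g = 0 := by linear_combination h2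
    rcases mul_eq_zero.1 h3 with h4 | h4
    · exact hc1 h4
    · exact hg h4
  have hring : ringChar ℂ ≠ ringChar K := by
    rw [ringChar.eq_zero]
    intro h
    have : CharP K 0 := by
      rw [h]
      exact ringChar.charP K
    have : CharZero K := CharP.charP_to_charZero K
    exact not_injective_infinite_finite (Nat.cast : ℕ → K) Nat.cast_injective
  have hJ := jacobiSum_mul_jacobiSum_inv hring hne hne' hne2
  rw [jacobiSum, jacobiSum] at hJ
  have e0 : (1 - 0 : K) = 1 := sub_zero 1
  have e1 : (1 - 1 : K) = 0 := sub_self 1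
  have z0 : χ 0 = 0 := χ.map_zero
  have z1 : χ⁻¹ 0 = 0 := χ⁻¹.map_zero
  have z2 : φ 0 = 0 := φ.map_zero
  have z3 : φ⁻¹ 0 = 0 := φ⁻¹.map_zero
  rw [sum_rest (fun x => χ x * φ (1 - x)) (by simp only [z0, zero_mul])
    (by simp only [e1, z2, mul_zero]), sum_rest (fun x => χ⁻¹ x * φ⁻¹ (1 - x))
      (by simp only [z1, zero_mul]) (by simp only [e1, z3, mul_zero]), sum_mul_sum,
      ← sum_product'] at hJ
  refine count_prime hz _ _ _ ?_ hj
  rw [Int.cast_natCast, ← hJ]
  refine sum_congr rfl fun P hP => ?_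
  rw [mem_product, mem_rest, mem_rest] at hP
  obtain ⟨⟨h1, h2⟩, h3, h4⟩ := hP
  rw [happ _ h2, happ' _ (sub_ne_zero.2 (Ne.symm h1)), hinv _ h4,
    hinv' _ (sub_ne_zero.2 (Ne.symm h3)), ← Helper44.KM.pow_val_add' hz1,
    ← Helper44.KM.pow_val_add' hz1, ← Helper44.KM.pow_val_add' hz1]
  congr 2
  ring

end

section

variable {K : Type*} [Field K] [Fintype K] [DecidableEq K] {l : K → ZMod 5}

/-- the number of elements with a given logarithm of `(1 - x) / x` -/
theorem quot_count [hr : Fact (Nat.Prime 5)] (hl : IsLog l) (h0 : ∃ x, l x ≠ 0) {w : ℕ}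
    (hw : Fintype.card K = 5 * w + 1) (j : ZMod 5) :
    (((rest K).filter fun x => l (1 - x) - l x = j).card : ℤ) = w - if j = 0 then 1 else 0 := by
  have h1 : ((rest K).filter fun x => l (1 - x) - l x = j).card =
      ((rest K).filter fun x => l x = j).card := by
    -- the map `x ↦ (x - 1) / x`
    refine card_bij' (fun x _ => 1 - x⁻¹) (fun x _ => (1 - x)⁻¹) ?_ ?_ ?_ ?_
    · intro x hx
      rw [mem_filter, mem_rest] at hx ⊢
      obtain ⟨⟨hx1, hx0⟩, hx⟩ := hx
      have h2 : 1 - x⁻¹ = (x - 1) / x := by field_simp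
      refine ⟨⟨?_, ?_⟩, ?_⟩
      · intro h3
        have h4 : x⁻¹ = 0 := by linear_combination -h3
        exact inv_ne_zero hx0 h4
      · rw [h2]
        exact div_ne_zero (sub_ne_zero.2 hx1) hx0
      · rw [h2, hl.div (sub_ne_zero.2 hx1) hx0, hl.sub_comm (by norm_num) x 1]
        exact hx
    · intro x hx
      rw [mem_filter, mem_rest] at hx ⊢
      obtain ⟨⟨hx1, hx0⟩, hx⟩ := hx
      have hx1' : 1 - x ≠ 0 := sub_ne_zero.2 (Ne.symm hx1)
      have h2 : 1 - (1 - x)⁻¹ = (0 - x) / (1 - x) := by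
        field_simp
        ring
      refine ⟨⟨?_, inv_ne_zero hx1'⟩, ?_⟩
      · intro h3
        rw [inv_eq_one] at h3
        exact hx0 (by linear_combination -h3)
      · have h4 : (0 : K) - x ≠ 0 := by
          rw [zero_sub]
          exact neg_ne_zero.2 hx0
        rw [h2, hl.div h4 hx1', hl.inv, hl.sub_comm (by norm_num) 0 x, sub_zero, hx]
        ring
    · intro x hx
      rw [mem_filter, mem_rest] at hx
      rw [sub_sub_cancel, inv_inv]
    · intro x hx
      rw [inv_inv, sub_sub_cancel]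
  rw [h1]
  have h2 := fiber_card hl h0 hw j
  have h3 : (univ.erase (0 : K)).filter (fun x => l x = j) =
      if j = 0 then insert 1 ((rest K).filter fun x => l x = j)
        else (rest K).filter fun x => l x = j := by
    ext x
    split_ifs with hj
    · rw [mem_filter, mem_erase, mem_insert, mem_filter, mem_rest]
      constructor
      · rintro ⟨⟨hx0, _⟩, hx⟩
        by_cases hx1 : x = 1
        · exact Or.inl hx1
        · exact Or.inr ⟨⟨hx1, hx0⟩, hx⟩
      · rintro (rfl | ⟨⟨hx1, hx0⟩, hx⟩)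
        · exact ⟨⟨one_ne_zero, mem_univ _⟩, by rw [hl.one, hj]⟩
        · exact ⟨⟨hx0, mem_univ _⟩, hx⟩
    · rw [mem_filter, mem_erase, mem_filter, mem_rest]
      constructor
      · rintro ⟨⟨hx0, _⟩, hx⟩
        refine ⟨⟨?_, hx0⟩, hx⟩
        rintro rfl
        rw [hl.one] at hx
        exact hj hx.symm
      · rintro ⟨⟨hx1, hx0⟩, hx⟩
        exact ⟨⟨hx0, mem_univ _⟩, hx⟩
  rw [h3] at h2
  split_ifs at h2 ⊢ with hj
  · rw [card_insert_of_notMem (by
      rw [mem_filter, mem_rest]
      rintro ⟨⟨h, _⟩, _⟩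
      exact h rfl)] at h2
    rw [← h2]
    push_cast
    ring
  · rw [← h2]
    ring

theorem kappa_count (hK : Fintype.card K % 5 = 1) (hl : IsLog l) (h0 : ∃ x, l x ≠ 0)
    {j : ZMod 5} (hj : j ≠ 0) :
    (((pts K).filter fun P =>
      l P.1 + 2 * l (1 - P.1) + 3 * l P.2 + 4 * l (1 - P.2) = 0).card : ℤ) =
        ((pts K).filter fun P =>
          l P.1 + 2 * l (1 - P.1) + 3 * l P.2 + 4 * l (1 - P.2) = j).card +
            (Fintype.card K + 1) := by
  have hr : Fact (Nat.Prime 5) := ⟨by norm_num⟩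
  obtain ⟨w, hw⟩ : ∃ w, Fintype.card K = 5 * w + 1 := ⟨Fintype.card K / 5, by omega⟩
  have h5 : (5 : ZMod 5) = 0 := rfl
  -- the numbers of points
  have key : ∀ i : ZMod 5, (((pts K).filter fun P =>
      l P.1 + 2 * l (1 - P.1) + 3 * l P.2 + 4 * l (1 - P.2) = i).card : ℤ) =
        (((rest K) ×ˢ (rest K)).filter fun P =>
          (l P.1 + 2 * l (1 - P.1)) - (l P.2 + 2 * l (1 - P.2)) = i).card -
            ((rest K).filter fun x => l (1 - x) - l x = i).card := by
    intro i
    have h1 := pts_split (K := K) (fun x y : K =>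
      if l x + 2 * l (1 - x) + 3 * l y + 4 * l (1 - y) = i then (1 : ℤ) else 0)
    rw [card_filter, card_filter, card_filter, sum_product]
    push_cast
    rw [h1]
    congr 1
    · refine sum_congr rfl fun x _ => ?_
      -- replace `y` by `1 - y`
      refine sum_bij' (fun y _ => 1 - y) (fun y _ => 1 - y) ?_ ?_ ?_ ?_ ?_
      · intro y hy
        rw [mem_rest]
        rw [mem_erase, mem_erase] at hy
        refine ⟨?_, sub_ne_zero.2 hy.1.symm⟩
        intro h
        exact hy.2.1 (by linear_combination -h)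
      · intro y hy
        rw [mem_rest] at hy
        rw [mem_erase, mem_erase]
        refine ⟨?_, sub_ne_zero.2 hy.1.symm, mem_univ _⟩
        intro h
        exact hy.2 (by linear_combination -h)
      · intro y _
        exact sub_sub_cancel 1 y
      · intro y _
        exact sub_sub_cancel 1 y
      · intro y _
        simp only [sub_sub_cancel]
        refine if_congr ?_ rfl rfl
        have h2 : l x + 2 * l (1 - x) + 3 * l y + 4 * l (1 - y) =
            l x + 2 * l (1 - x) - (l (1 - y) + 2 * l y) := by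
          linear_combination (l y + l (1 - y)) * h5
        rw [h2]
    · refine sum_congr rfl fun x _ => ?_
      refine if_congr ?_ rfl rfl
      have h2 : l x + 2 * l (1 - x) + 3 * l x + 4 * l (1 - x) = l (1 - x) - l x := by
        linear_combination (l x + l (1 - x)) * h5
      rw [h2]
  rw [key 0, key j, quot_count hl h0 hw 0, quot_count hl h0 hw j, if_pos rfl, if_neg hj,
    pair_count_mul hl h0 (c := 2) two_ne_five one_add_two_ne hj]
  ring

end

end Pool.Agent.Helper79.KM
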