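import Pool.Agent.Helper79.KM.Base

/-!
# The moments of one variable for all primes greater than five
-/

open Finset

namespace Pool.Agent.Helper79.KM

section

variable {K : Type*} [Field K] [Fintype K] {r : ℕ} {l : K → ZMod r}

/-- the sixth power sum of the logarithm -/
def s6 (l : K → ZMod r) : ZMod r := ∑ x, l x ^ 6

variable [hr : Fact r.Prime] (hr5 : 5 < r) (hl : IsLog l)

include hr5 hl

theorem bs51' : 2 * bs l 5 1 = s6 l := by
  have h1 := bs_inv (by omega) hl (show 0 < 5 by omega) 1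
  have h3 : ∑ x, (-l x) ^ 5 * (l (1 - x) - l x) ^ 1 = -bs l 5 1 + s6 l := by
    rw [bs, s6, ← sum_neg_distrib, ← sum_add_distrib]
    exact sum_congr rfl fun x _ => by ring
  rw [h3] at h1
  linear_combination h1

theorem bs33' : 4 * bs l 3 3 = 6 * bs l 4 2 - s6 l := by
  have h1 := bs_inv (by omega) hl (show 0 < 3 by omega) 3
  have h2 := bs51' hr5 hl
  have h3 : ∑ x, (-l x) ^ 3 * (l (1 - x) - l x) ^ 3 =
      -bs l 3 3 + 3 * bs l 4 2 - 3 * bs l 5 1 + s6 l := by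
    simp only [bs, s6, mul_sum, ← sum_neg_distrib, ← sum_add_distrib, ← sum_sub_distrib]
    exact sum_congr rfl fun x _ => by ring
  rw [h3] at h1
  linear_combination 2 * h1 - 3 * h2

/-- the values of the power sums of `l x + l (1 - x)` -/
theorem one_moments' :
    ∑ x, (l x + l (1 - x)) ^ 1 = 0 ∧ ∑ x, (l x + l (1 - x)) ^ 2 = 0 ∧
      ∑ x, (l x + l (1 - x)) ^ 3 = 6 * bs l 2 1 ∧ ∑ x, (l x + l (1 - x)) ^ 4 = 0 ∧
        ∑ x, (l x + l (1 - x)) ^ 6 = 60 * bs l 4 2 + 3 * s6 l := by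
  refine ⟨?_, ?_, ?_, ?_, ?_⟩
  · have h1 : ∑ x, (l x + l (1 - x)) ^ 1 = ∑ x, l x ^ 1 + ∑ x, l (1 - x) ^ 1 := by
      rw [← sum_add_distrib]
      exact sum_congr rfl fun x _ => by ring
    rw [h1, sum_pow_log hl 1 (by omega) (by omega), sum_pow_log' hl (by omega) (by omega),
      add_zero]
  · have h1 : ∑ x, (l x + l (1 - x)) ^ 2 = ∑ x, l x ^ 2 + ∑ x, l (1 - x) ^ 2 +
        2 * bs l 1 1 := by
      simp only [bs, mul_sum, ← sum_add_distrib]
      exact sum_congr rfl fun x _ => by ring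
    rw [h1, sum_pow_log hl 2 (by omega) (by omega), sum_pow_log' hl (by omega) (by omega),
      bs11 (by omega) hl (by omega)]
    ring
  · have h1 : ∑ x, (l x + l (1 - x)) ^ 3 = ∑ x, l x ^ 3 + ∑ x, l (1 - x) ^ 3 +
        3 * bs l 2 1 + 3 * bs l 1 2 := by
      simp only [bs, mul_sum, ← sum_add_distrib]
      exact sum_congr rfl fun x _ => by ring
    rw [h1, sum_pow_log hl 3 (by omega) (by omega), sum_pow_log' hl (by omega) (by omega),
      bs_comm 1 2]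
    ring
  · have h1 : ∑ x, (l x + l (1 - x)) ^ 4 = ∑ x, l x ^ 4 + ∑ x, l (1 - x) ^ 4 +
        4 * bs l 3 1 + 6 * bs l 2 2 + 4 * bs l 1 3 := by
      simp only [bs, mul_sum, ← sum_add_distrib]
      exact sum_congr rfl fun x _ => by ring
    rw [h1, sum_pow_log hl 4 (by omega) (by omega), sum_pow_log' hl (by omega) (by omega),
      bs_comm 1 3, bs31 (by omega) hl hr5, bs22 (by omega) hl hr5]
    ring
  · have h1 : ∑ x, (l x + l (1 - x)) ^ 6 = s6 l + ∑ x, l (1 - x) ^ 6 +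
        6 * bs l 5 1 + 15 * bs l 4 2 + 20 * bs l 3 3 + 15 * bs l 2 4 + 6 * bs l 1 5 := by
      simp only [bs, s6, mul_sum, ← sum_add_distrib]
      exact sum_congr rfl fun x _ => by ring
    have h2 : ∑ x, l (1 - x) ^ 6 = s6 l := sum_one_sub (fun x => l x ^ 6)
    rw [h1, h2, bs_comm 1 5, bs_comm 2 4]
    linear_combination 6 * bs51' hr5 hl + 5 * bs33' hr5 hl

end

section

variable {K : Type*} [Field K] [Fintype K] [DecidableEq K] {r : ℕ} {l : K → ZMod r}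
  [hr : Fact r.Prime] (hr5 : 5 < r) (hl : IsLog l)

include hr5 hl

theorem om1 (a b : ZMod r) : om l a b 1 = 0 := by
  rw [om_pos hl a b one_pos]
  have h1 : ∑ x, (a * l x + b * l (1 - x)) ^ 1 = a * ∑ x, l x ^ 1 + b * ∑ x, l (1 - x) ^ 1 := by
    simp only [mul_sum, ← sum_add_distrib]
    exact sum_congr rfl fun x _ => by ring
  rw [h1, sum_pow_log hl 1 (by omega) (by omega), sum_pow_log' hl (by omega) (by omega)]
  ring

theorem om2 (a b : ZMod r) : om l a b 2 = 0 := by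
  rw [om_pos hl a b two_pos]
  have h1 : ∑ x, (a * l x + b * l (1 - x)) ^ 2 = a ^ 2 * ∑ x, l x ^ 2 +
      b ^ 2 * ∑ x, l (1 - x) ^ 2 + 2 * a * b * bs l 1 1 := by
    simp only [bs, mul_sum, ← sum_add_distrib]
    exact sum_congr rfl fun x _ => by ring
  rw [h1, sum_pow_log hl 2 (by omega) (by omega), sum_pow_log' hl (by omega) (by omega),
    bs11 (by omega) hl (by omega)]
  ring

theorem om3 (a b : ZMod r) : om l a b 3 = 3 * (a * b * (a + b)) * bs l 2 1 := by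
  rw [om_pos hl a b (by omega)]
  have h1 : ∑ x, (a * l x + b * l (1 - x)) ^ 3 = a ^ 3 * ∑ x, l x ^ 3 +
      b ^ 3 * ∑ x, l (1 - x) ^ 3 + 3 * a ^ 2 * b * bs l 2 1 + 3 * a * b ^ 2 * bs l 1 2 := by
    simp only [bs, mul_sum, ← sum_add_distrib]
    exact sum_congr rfl fun x _ => by ring
  rw [h1, sum_pow_log hl 3 (by omega) (by omega), sum_pow_log' hl (by omega) (by omega),
    bs_comm 1 2]
  ring

theorem om4 (a b : ZMod r) : om l a b 4 = 0 := by
  rw [om_pos hl a b (by omega)]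
  have h1 : ∑ x, (a * l x + b * l (1 - x)) ^ 4 = a ^ 4 * ∑ x, l x ^ 4 +
      b ^ 4 * ∑ x, l (1 - x) ^ 4 + 4 * a ^ 3 * b * bs l 3 1 + 6 * a ^ 2 * b ^ 2 * bs l 2 2 +
        4 * a * b ^ 3 * bs l 1 3 := by
    simp only [bs, mul_sum, ← sum_add_distrib]
    exact sum_congr rfl fun x _ => by ring
  rw [h1, sum_pow_log hl 4 (by omega) (by omega), sum_pow_log' hl (by omega) (by omega),
    bs_comm 1 3, bs31 (by omega) hl hr5, bs22 (by omega) hl hr5]
  ring

theorem om6 (h7 : 7 * s6 l = 0) (h42 : bs l 4 2 = -6 * bs l 2 1 ^ 2 - 3 * s6 l) (a b : ZMod r) :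
    om l a b 6 = -90 * (a * b * (a + b)) ^ 2 * bs l 2 1 ^ 2 -
      3 * s6 l * (a ^ 6 + b ^ 6 + (a + b) ^ 6) := by
  rw [om_pos hl a b (by omega)]
  have h1 : ∑ x, (a * l x + b * l (1 - x)) ^ 6 = a ^ 6 * s6 l +
      b ^ 6 * ∑ x, l (1 - x) ^ 6 + 6 * a ^ 5 * b * bs l 5 1 + 15 * a ^ 4 * b ^ 2 * bs l 4 2 +
        20 * a ^ 3 * b ^ 3 * bs l 3 3 + 15 * a ^ 2 * b ^ 4 * bs l 2 4 +
          6 * a * b ^ 5 * bs l 1 5 := by
    simp only [bs, s6, mul_sum, ← sum_add_distrib]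
    exact sum_congr rfl fun x _ => by ring
  have h2 : ∑ x, l (1 - x) ^ 6 = s6 l := sum_one_sub (fun x => l x ^ 6)
  rw [h1, h2, bs_comm 1 5, bs_comm 2 4]
  linear_combination (3 * a ^ 5 * b + 3 * a * b ^ 5) * bs51' hr5 hl +
    5 * a ^ 3 * b ^ 3 * bs33' hr5 hl +
      (15 * a ^ 4 * b ^ 2 + 30 * a ^ 3 * b ^ 3 + 15 * a ^ 2 * b ^ 4) * h42 +
        (a ^ 6 + b ^ 6 + 3 * a ^ 5 * b + 3 * a * b ^ 5 - 5 * a ^ 3 * b ^ 3) * h7

end

end Pool.Agent.Helper79.KM
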