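import Pool.Agent.Helper79.KM.One

/-!
# Sums over the complement of the quadrilateral
-/

open Finset

namespace Pool.Agent.Helper79.KM

section

variable {K : Type*} [Field K] [Fintype K] [DecidableEq K]

/-- the points of the complement of the quadrilateral -/
def pts (K : Type*) [Field K] [Fintype K] [DecidableEq K] : Finset (K × K) :=
  univ.filter fun P => P.1 ≠ 0 ∧ P.1 ≠ 1 ∧ P.2 ≠ 0 ∧ P.2 ≠ 1 ∧ P.1 ≠ P.2

theorem mem_pts {P : K × K} :
    P ∈ pts K ↔ P.1 ≠ 0 ∧ P.1 ≠ 1 ∧ P.2 ≠ 0 ∧ P.2 ≠ 1 ∧ P.1 ≠ P.2 := by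
  rw [pts, mem_filter]
  simp

/-- the fibration by the cross ratio -/
theorem fib_cross {M : Type*} [AddCommMonoid M] (F : K → K → M) :
    ∑ P ∈ pts K, F (P.1 * (1 - P.2) / ((1 - P.1) * P.2)) (P.2 / (1 - P.2)) =
      ∑ c ∈ (univ.erase (0 : K)).erase 1,
        ∑ Y ∈ univ.filter (fun Y : K => Y ≠ 0 ∧ 1 + Y ≠ 0 ∧ 1 + c * Y ≠ 0), F c Y := by
  rw [sum_sigma']
  refine sum_bij' (fun P _ => ⟨P.1 * (1 - P.2) / ((1 - P.1) * P.2), P.2 / (1 - P.2)⟩)
    (fun Q _ => (Q.1 * Q.2 / (1 + Q.1 * Q.2), Q.2 / (1 + Q.2))) ?_ ?_ ?_ ?_ ?_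
  · rintro ⟨x, y⟩ h
    rw [mem_pts] at h
    obtain ⟨hx0, hx1, hy0, hy1, hxy⟩ := h
    simp only at hx0 hx1 hy0 hy1 hxy
    have a1 : 1 - x ≠ 0 := sub_ne_zero.2 hx1.symm
    have a2 : 1 - y ≠ 0 := sub_ne_zero.2 hy1.symm
    simp only [mem_sigma, mem_erase, mem_univ, and_true, mem_filter, true_and]
    refine ⟨⟨?_, ?_⟩, ?_, ?_, ?_⟩
    · intro h
      rw [div_eq_one_iff_eq (mul_ne_zero a1 hy0)] at h
      apply hxy
      linear_combination h
    · exact div_ne_zero (mul_ne_zero hx0 a2) (mul_ne_zero a1 hy0)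
    · exact div_ne_zero hy0 a2
    · have : 1 + y / (1 - y) = 1 / (1 - y) := by
        field_simp
        ring
      rw [this]
      exact div_ne_zero one_ne_zero a2
    · have : 1 + x * (1 - y) / ((1 - x) * y) * (y / (1 - y)) = 1 / (1 - x) := by
        field_simp
        ring
      rw [this]
      exact div_ne_zero one_ne_zero a1
  · rintro ⟨c, Y⟩ h
    simp only [mem_sigma, mem_erase, mem_univ, and_true, mem_filter, true_and] at h
    obtain ⟨⟨hc1, hc0⟩, hY, hY1, hcY⟩ := h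
    rw [mem_pts]
    simp only
    refine ⟨div_ne_zero (mul_ne_zero hc0 hY) hcY, ?_, div_ne_zero hY hY1, ?_, ?_⟩
    · intro h
      rw [div_eq_one_iff_eq hcY] at h
      exact one_ne_zero (by linear_combination -h : (1 : K) = 0)
    · intro h
      rw [div_eq_one_iff_eq hY1] at h
      exact one_ne_zero (by linear_combination -h : (1 : K) = 0)
    · intro h
      rw [div_eq_div_iff hcY hY1] at h
      have : (c - 1) * Y = 0 := by linear_combination h
      rcases mul_eq_zero.1 this with h1 | h1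
      · exact hc1 (sub_eq_zero.1 h1)
      · exact hY h1
  · rintro ⟨x, y⟩ h
    rw [mem_pts] at h
    obtain ⟨hx0, hx1, hy0, hy1, hxy⟩ := h
    simp only at hx0 hx1 hy0 hy1 hxy
    have a1 : 1 - x ≠ 0 := sub_ne_zero.2 hx1.symm
    have a2 : 1 - y ≠ 0 := sub_ne_zero.2 hy1.symm
    simp only [Prod.mk.injEq]
    constructor
    · have h1 : x * (1 - y) / ((1 - x) * y) * (y / (1 - y)) = x / (1 - x) := by
        field_simp
      have h2 : 1 + x / (1 - x) = 1 / (1 - x) := by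
        field_simp
        ring
      rw [h1, h2]
      field_simp
    · have h2 : 1 + y / (1 - y) = 1 / (1 - y) := by
        field_simp
        ring
      rw [h2]
      field_simp
  · rintro ⟨c, Y⟩ h
    simp only [mem_sigma, mem_erase, mem_univ, and_true, mem_filter, true_and] at h
    obtain ⟨⟨hc1, hc0⟩, hY, hY1, hcY⟩ := h
    have h1 : 1 - c * Y / (1 + c * Y) = 1 / (1 + c * Y) := by
      field_simp
      ring
    have h2 : 1 - Y / (1 + Y) = 1 / (1 + Y) := by
      field_simp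
      ring
    simp only [Sigma.mk.injEq, heq_eq_eq]
    rw [h1, h2]
    constructor
    · field_simp
    · field_simp
  · rintro ⟨x, y⟩ _
    rfl

/-- the fibration by the difference -/
theorem fib_diff {M : Type*} [AddCommMonoid M] (F : K → K → M) :
    ∑ P ∈ pts K, F (P.1 - P.2) P.2 =
      ∑ w ∈ univ.erase (0 : K),
        ∑ y ∈ univ.filter (fun y : K => y ≠ 0 ∧ y ≠ 1 ∧ y + w ≠ 0 ∧ y + w ≠ 1), F w y := by
  rw [sum_sigma']
  refine sum_bij' (fun P _ => ⟨P.1 - P.2, P.2⟩) (fun Q _ => (Q.2 + Q.1, Q.2)) ?_ ?_ ?_ ?_ ?_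
  · rintro ⟨x, y⟩ h
    rw [mem_pts] at h
    obtain ⟨hx0, hx1, hy0, hy1, hxy⟩ := h
    simp only [mem_sigma, mem_erase, mem_univ, and_true, mem_filter, true_and]
    refine ⟨sub_ne_zero.2 hxy, hy0, hy1, ?_, ?_⟩
    · rwa [add_sub_cancel]
    · rwa [add_sub_cancel]
  · rintro ⟨w, y⟩ h
    simp only [mem_sigma, mem_erase, mem_univ, and_true, mem_filter, true_and] at h
    obtain ⟨hw, h1, h2, h3, h4⟩ := h
    rw [mem_pts]
    refine ⟨h3, h4, h1, h2, ?_⟩
    intro h
    exact hw (add_eq_left.1 h)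
  · rintro ⟨x, y⟩ _
    simp
  · rintro ⟨w, y⟩ _
    simp
  · rintro ⟨x, y⟩ _
    rfl

/-- exchange of the two coordinates -/
theorem swap_pts {M : Type*} [AddCommMonoid M] (F : K × K → M) :
    ∑ P ∈ pts K, F P.swap = ∑ P ∈ pts K, F P := by
  refine sum_bij' (fun P _ => P.swap) (fun P _ => P.swap) ?_ ?_ ?_ ?_ ?_
  · rintro ⟨x, y⟩ h
    rw [mem_pts] at h ⊢
    exact ⟨h.2.2.1, h.2.2.2.1, h.1, h.2.1, h.2.2.2.2.symm⟩
  · rintro ⟨x, y⟩ h
    rw [mem_pts] at h ⊢
    exact ⟨h.2.2.1, h.2.2.2.1, h.1, h.2.1, h.2.2.2.2.symm⟩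
  · intro P _
    exact P.swap_swap
  · intro P _
    exact P.swap_swap
  · intro P _
    rfl

/-- a sum over all elements but three -/
theorem sum_three {M : Type*} [AddCommGroup M] (F : K → M) {c : K} (h0 : c ≠ 0) (h1 : c ≠ 1) :
    ∑ Y ∈ univ.filter (fun Y : K => Y ≠ 0 ∧ 1 + Y ≠ 0 ∧ 1 + c * Y ≠ 0), F Y =
      ∑ Y, F Y - F 0 - F (-1) - F (-c⁻¹) := by
  have e : univ.filter (fun Y : K => Y ≠ 0 ∧ 1 + Y ≠ 0 ∧ 1 + c * Y ≠ 0) =
      ((univ.erase (0 : K)).erase (-1)).erase (-c⁻¹) := by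
    ext Y
    simp only [mem_filter, mem_univ, true_and, mem_erase, and_true]
    constructor
    · rintro ⟨a, b, d⟩
      refine ⟨?_, ?_, a⟩
      · rintro rfl
        apply d
        rw [mul_neg, mul_inv_cancel₀ h0, add_neg_cancel]
      · rintro rfl
        exact b (add_neg_cancel 1)
    · rintro ⟨a, b, d⟩
      refine ⟨d, ?_, ?_⟩
      · intro h
        exact b (eq_neg_of_add_eq_zero_right h)
      · intro h
        apply a
        rw [eq_neg_iff_add_eq_zero]
        have : c * (Y + c⁻¹) = 0 := by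
          rw [mul_add, mul_inv_cancel₀ h0]
          linear_combination h
        exact (mul_eq_zero.1 this).resolve_left h0
  have hm : (-1 : K) ∈ univ.erase (0 : K) := by
    rw [mem_erase]
    exact ⟨neg_ne_zero.2 one_ne_zero, mem_univ _⟩
  have hc : -c⁻¹ ∈ (univ.erase (0 : K)).erase (-1) := by
    rw [mem_erase, mem_erase]
    refine ⟨?_, neg_ne_zero.2 (inv_ne_zero h0), mem_univ _⟩
    intro h
    rw [neg_inj, inv_eq_one] at h
    exact h1 h
  rw [e, ← add_sum_erase univ F (mem_univ (0 : K)), ← add_sum_erase _ F hm,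
    ← add_sum_erase _ F hc]
  abel

/-- a sum over all elements but four -/
theorem sum_four {M : Type*} [AddCommGroup M] (F : K → M) {w : K} (h0 : w ≠ 0) (h1 : w ≠ 1)
    (h2 : w ≠ -1) :
    ∑ y ∈ univ.filter (fun y : K => y ≠ 0 ∧ y ≠ 1 ∧ y + w ≠ 0 ∧ y + w ≠ 1), F y =
      ∑ y, F y - F 0 - F 1 - F (-w) - F (1 - w) := by
  have e : univ.filter (fun y : K => y ≠ 0 ∧ y ≠ 1 ∧ y + w ≠ 0 ∧ y + w ≠ 1) =
      (((univ.erase (0 : K)).erase 1).erase (-w)).erase (1 - w) := by
    ext y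
    simp only [mem_filter, mem_univ, true_and, mem_erase, and_true]
    constructor
    · rintro ⟨a, b, d, f⟩
      refine ⟨?_, ?_, b, a⟩
      · rintro rfl
        exact f (sub_add_cancel 1 w)
      · rintro rfl
        exact d (neg_add_cancel w)
    · rintro ⟨a, b, d, f⟩
      refine ⟨f, d, ?_, ?_⟩
      · intro h
        exact b (eq_neg_of_add_eq_zero_left h)
      · intro h
        exact a (eq_sub_of_add_eq h)
  have m1 : (1 : K) ∈ univ.erase (0 : K) := by
    rw [mem_erase]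
    exact ⟨one_ne_zero, mem_univ _⟩
  have m2 : -w ∈ (univ.erase (0 : K)).erase 1 := by
    rw [mem_erase, mem_erase]
    refine ⟨?_, neg_ne_zero.2 h0, mem_univ _⟩
    intro h
    exact h2 (by rw [← h, neg_neg])
  have m3 : 1 - w ∈ ((univ.erase (0 : K)).erase 1).erase (-w) := by
    rw [mem_erase, mem_erase, mem_erase]
    refine ⟨?_, ?_, sub_ne_zero.2 h1.symm, mem_univ _⟩
    · intro h
      exact one_ne_zero (by linear_combination h : (1 : K) = 0)
    · intro h
      exact h0 (by linear_combination -h)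
  rw [e, ← add_sum_erase univ F (mem_univ (0 : K)), ← add_sum_erase _ F m1,
    ← add_sum_erase _ F m2, ← add_sum_erase _ F m3]
  abel

end

end Pool.Agent.Helper79.KM
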